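import Pool.Agent.H78.Tie.Corner
import Pool.Agent.H67.Flat.CfgBridge4

/-!
# From a flat ternary cyclotomic polynomial to the structure `TAp`
-/

namespace Pool.Agent.H78.Tie

open Finset
open Pool.Agent.H98.Flat
open Pool.Agent.H67.Flat

/-- the data of a flat triple: a configuration in arithmetic progression -/
def ApData (p q r w h : ℕ) : Prop :=
    ∃ (C : Cfg) (a c δ κ : ℤ) (i : ℤ → ℤ) (sg u ε : ℤ),
      C.p = p ∧ C.q = q ∧ C.w = w ∧ C.h = h ∧ C.Gen ∧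
      (p : ℤ) ∣ a ∧ IsCoprime (q : ℤ) a ∧ IsCoprime δ (p : ℤ) ∧
      (∀ k, 0 ≤ i k ∧ i k < p) ∧ (∀ k, (p : ℤ) ∣ k - (κ + δ * i k)) ∧
      (∀ k, C.U k = c + a * i k) ∧
      (∀ x, (p : ℤ) ∣ x → ∀ v Y, |C.Fint x v Y| ≤ 1) ∧
      ((sg = -1 ∧ (p : ℤ) ∣ c) ∨ (sg = 1 ∧ (p : ℤ) ∣ c - 1)) ∧
      (p : ℤ) ∣ q * w + sg ∧ (p : ℤ) ∣ δ * q + h ∧
      (ε = 1 ∨ ε = -1) ∧ (p : ℤ) * q ∣ u * r - ε ∧ (q : ℤ) ∣ a + u ∧ (p : ℤ) ∣ δ * q + u

theorem exists_ap {p q r w h : ℕ} (hp : p.Prime) (hq : q.Prime) (hr : r.Prime)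
    (hpq : p < q) (hqr : q < r)
    (hflat : ∀ n : ℕ, |(Polynomial.cyclotomic (p * q * r) ℤ).coeff n| ≤ 1)
    (hw0 : 0 < w) (hh0 : 0 < h) (hwh : w + h ≤ p)
    (hw : (p : ℤ) ∣ w * q - 1 ∨ (p : ℤ) ∣ w * q + 1)
    (hh : (p : ℤ) ∣ h * r - 1 ∨ (p : ℤ) ∣ h * r + 1) :
    ApData p q r w h := by
  have hp' : (0 : ℤ) < p := by exact_mod_cast hp.pos
  have hq' : (0 : ℤ) < q := by exact_mod_cast hq.pos
  have hpp : Prime (p : ℤ) := Nat.prime_iff_prime_int.1 hp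
  have hqp : Prime (q : ℤ) := Nat.prime_iff_prime_int.1 hq
  have h1p : ¬ (p : ℤ) ∣ 1 := fun h => hpp.not_isUnit (isUnit_of_dvd_one h)
  have h1q : ¬ (q : ℤ) ∣ 1 := fun h => hqp.not_isUnit (isUnit_of_dvd_one h)
  have hpr : ¬ (p : ℤ) ∣ r := by
    intro h1
    have := (Nat.prime_dvd_prime_iff_eq hp hr).1 (by exact_mod_cast h1)
    omega
  -- choose `u`
  have hu : ∃ u : ℤ, ∃ ε : ℤ, (ε = 1 ∨ ε = -1) ∧ (p : ℤ) * q ∣ u * r - ε ∧ (p : ℤ) ∣ h - u := by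
    have cop : IsCoprime (r : ℤ) ((p : ℤ) * q) := by
      rw [show (p : ℤ) * q = ((p * q : ℕ) : ℤ) by push_cast; ring]
      rw [Nat.isCoprime_iff_coprime]
      exact Nat.Coprime.mul_right ((Nat.coprime_primes hr hp).2 (by omega))
        ((Nat.coprime_primes hr hq).2 (by omega))
    obtain ⟨x, y, hxy⟩ := cop
    rcases hh with h2 | h2
    · refine ⟨x, 1, Or.inl rfl, ⟨-y, by linear_combination hxy⟩, ?_⟩
      have : (p : ℤ) ∣ (h - x) * r := by
        obtain ⟨c, hc⟩ := h2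
        exact ⟨c + y * q, by linear_combination hc - hxy⟩
      exact (hpp.dvd_or_dvd this).resolve_right hpr
    · refine ⟨-x, -1, Or.inr rfl, ⟨y, by linear_combination -hxy⟩, ?_⟩
      have : (p : ℤ) ∣ (h - -x) * r := by
        obtain ⟨c, hc⟩ := h2
        exact ⟨c - y * q, by linear_combination hc + hxy⟩
      exact (hpp.dvd_or_dvd this).resolve_right hpr
  obtain ⟨u, ε, hε, hur, hhu⟩ := hu
  have hur' : (p : ℤ) * q ∣ u * r - 1 ∨ (p : ℤ) * q ∣ u * r + 1 := by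
    rcases hε with rfl | rfl
    · left; exact hur
    · right; simpa using hur
  have hε2 : ε * ε = 1 := by rcases hε with rfl | rfl <;> norm_num
  have huq : ¬ (q : ℤ) ∣ u := by
    intro h1
    apply h1q
    have h2 : (q : ℤ) ∣ u * r - ε := (dvd_mul_left _ _).trans hur
    have h3 := dvd_sub (h1.mul_right r) h2
    have h4 : (q : ℤ) ∣ ε * ε := by
      have := h3.mul_right ε
      rwa [show (u * r - (u * r - ε)) * ε = ε * ε by ring] at this
    rwa [hε2] at h4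
  have hup : ¬ (p : ℤ) ∣ u := by
    intro h1
    apply h1p
    have h2 : (p : ℤ) ∣ u * r - ε := (dvd_mul_right _ _).trans hur
    have h3 := dvd_sub (h1.mul_right r) h2
    have h4 : (p : ℤ) ∣ ε * ε := by
      have := h3.mul_right ε
      rwa [show (u * r - (u * r - ε)) * ε = ε * ε by ring] at this
    rwa [hε2] at h4
  -- choose `t`
  have ht : ∀ w0 : ℕ, (p : ℤ) ∣ w0 * q - 1 → (p : ℤ) ∣ w0 * u * (-(ε * q * r)) + 1 := by
    intro w0 hw0
    obtain ⟨c1, hc1⟩ := hw0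
    obtain ⟨c2, hc2⟩ : (p : ℤ) ∣ u * r - ε := (dvd_mul_right _ _).trans hur
    exact ⟨-(ε * c2) * (w0 * q) - c1, by
      linear_combination -(ε * (w0 * q)) * hc2 - hc1 - (w0 * q) * hε2⟩
  set t : ℤ := -(ε * q * r) with htdef
  have apx : ∀ w0 : ℕ, (p : ℤ) ∣ w0 * q - 1 → ∀ k : ℤ,
      (p : ℤ) ∣ k - -(w0 * u) * ((t * k) % p) := by
    intro w0 hw0 k
    obtain ⟨c, hc⟩ := ht w0 hw0
    have := Int.mul_ediv_add_emod (t * k) p
    refine ⟨c * k - w0 * u * ((t * k) / p), ?_⟩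
    linear_combination (w0 * u) * this + k * hc
  have hw0p : ∀ w0 : ℕ, (p : ℤ) ∣ w0 * q - 1 → ¬ (p : ℤ) ∣ w0 := by
    intro w0 hw0 h1
    apply h1p
    have := dvd_sub (h1.mul_right q) hw0
    simpa using this
  have cuq : IsCoprime (q : ℤ) u := by
    obtain ⟨c1, hc1⟩ := hur
    exact ⟨-(ε * p * c1), ε * r, by linear_combination ε * hc1 + hε2⟩
  have cup : IsCoprime u (p : ℤ) := by
    obtain ⟨c1, hc1⟩ := hur
    exact ⟨ε * r, -(ε * q * c1), by linear_combination ε * hc1 + hε2⟩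
  have hδ : ∀ w0 : ℕ, (p : ℤ) ∣ w0 * q - 1 → IsCoprime (-(w0 * u)) (p : ℤ) := by
    intro w0 hw0
    obtain ⟨c1, hc1⟩ := hw0
    have : IsCoprime (w0 : ℤ) (p : ℤ) := ⟨q, -c1, by linear_combination hc1⟩
    exact (this.mul_left cup).neg_left
  have ha : ∀ w0 : ℕ, IsCoprime (q : ℤ) (u * (q * w0 - 1)) := by
    intro w0
    have : IsCoprime (q : ℤ) (q * w0 - 1) := ⟨w0, -1, by ring⟩
    exact cuq.mul_right this
  have hap : ∀ w0 : ℕ, (p : ℤ) ∣ w0 * q - 1 → (p : ℤ) ∣ u * (q * w0 - 1) := by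
    intro w0 h1
    rw [mul_comm (q : ℤ)]
    exact h1.mul_left u
  have hqu : ∀ w0 : ℕ, (q : ℤ) ∣ u * (q * w0 - 1) + u := fun w0 => ⟨u * w0, by ring⟩
  have hδu : ∀ w0 : ℕ, (p : ℤ) ∣ w0 * q - 1 → (p : ℤ) ∣ -(w0 * u) * q + u := by
    intro w0 h1
    obtain ⟨c, hc⟩ := h1
    exact ⟨-(c * u), by linear_combination (-u) * hc⟩
  have hδh : ∀ w0 : ℕ, (p : ℤ) ∣ w0 * q - 1 → (p : ℤ) ∣ -(w0 * u) * q + h := by
    intro w0 h1
    have := dvd_add (hδu w0 h1) hhu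
    rwa [show -((w0 : ℤ) * u) * q + u + (h - u) = -(w0 * u) * q + h by ring] at this
  rcases hw with hw | hw
  · -- kind zero
    have P := pre_Uc hp hq hpq hw0 (by omega : w < p) hh0 (by omega : h < p) hw (ht w hw) huq
    refine ⟨P.cfg hwh, u * (q * w - 1), 0, -(w * u), 0, fun k => (t * k) % p, -1, u, ε,
      rfl, rfl, rfl, rfl, P.gen hwh, hap w hw, ha w, hδ w hw,
      fun k => ⟨Int.emod_nonneg _ hp'.ne', Int.emod_lt_of_pos _ hp'⟩, ?_, ?_, ?_,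
      Or.inl ⟨rfl, dvd_zero _⟩, ?_, hδh w hw, hε, hur, hqu w, hδu w hw⟩
    · intro k
      have := apx w hw k
      rw [zero_add]; exact this
    · intro k
      change Uc p q w u t k = _
      unfold Uc; ring
    · intro x hx v Y
      rw [P.Fint_eq]
      exact Fc_bound_zero hp hq hr hpq hqr hw0 (by omega) hw hhu (ht w hw) hur' hflat hx v Y
    · rwa [show (q : ℤ) * w + -1 = w * q - 1 by ring]
  · -- kind one
    obtain ⟨w0, rfl⟩ : ∃ w0, w = p - w0 := ⟨p - w, by omega⟩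
    have hw0' : w0 < p := by omega
    have hcw : ((p - w0 : ℕ) : ℤ) = p - w0 := Nat.cast_sub hw0'.le
    have hw1 : (p : ℤ) ∣ w0 * q - 1 := by
      rw [hcw] at hw
      obtain ⟨c, hc⟩ := hw
      exact ⟨q - c, by linear_combination -hc⟩
    have hw00 : 0 < w0 := by
      rcases Nat.eq_zero_or_pos w0 with h1 | h1
      · exact absurd (by rw [h1]; simp) (hw0p w0 hw1)
      · exact h1
    have P0 := pre_Uc hp hq hpq hw00 hw0' hh0 (by omega : h < p) hw1 (ht w0 hw1) huq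
    have P := P0.compl
    have bd : ∀ x, (p : ℤ) ∣ x → ∀ v Y, |(P.cfg hwh).Fint x v Y| ≤ 1 := by
      intro x hx v Y
      rw [P.Fint_eq, Fc_compl P0, abs_neg]
      exact Fc_bound_zero hp hq hr hpq hqr hw00 hw0' hw1 hhu (ht w0 hw1) hur' hflat hx v Y
    refine ⟨P.cfg hwh, u * (q * w0 - 1), q * w0, -(w0 * u), -w0, fun k => (t * (k + w0)) % p, 1,
      u, ε, rfl, rfl, rfl, rfl, P.gen hwh, hap w0 hw1, ha w0, hδ w0 hw1,
      fun k => ⟨Int.emod_nonneg _ hp'.ne', Int.emod_lt_of_pos _ hp'⟩, ?_, ?_, bd,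
      Or.inr ⟨rfl, ?_⟩, ?_, hδh w0 hw1, hε, hur, hqu w0, hδu w0 hw1⟩
    · intro k
      have := apx w0 hw1 (k + w0)
      rwa [show k - (-(w0 : ℤ) + -(w0 * u) * ((t * (k + w0)) % p))
        = k + w0 - -(w0 * u) * ((t * (k + w0)) % p) by ring]
    · intro k
      change cU q w0 (Uc p q w0 u t) k = _
      unfold cU Uc; ring
    · rwa [mul_comm]
    · rwa [mul_comm]

/-- construction of `TAp` from a progression -/
theorem tap_of {C : Cfg} {a c δ κ sg om : ℤ} {i : ℤ → ℤ}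
    (hpq : C.p < C.q) (hw : 2 ≤ C.w) (hh : 2 ≤ C.h) (w2 : 2 * C.w < C.p)
    (h2 : 2 * C.h < C.p) (hpa : (C.p : ℤ) ∣ a) (hqa : IsCoprime (C.q : ℤ) a)
    (hδ : IsCoprime δ (C.p : ℤ))
    (hi : ∀ k, 0 ≤ i k ∧ i k < C.p) (hik : ∀ k, (C.p : ℤ) ∣ k - (κ + δ * i k))
    (hU : ∀ k, C.U k = c + a * i k)
    (hfl : ∀ x, (C.p : ℤ) ∣ x → ∀ v Y, |C.Fint x v Y| ≤ 1)
    (hc : (sg = -1 ∧ (C.p : ℤ) ∣ c) ∨ (sg = 1 ∧ (C.p : ℤ) ∣ c - 1))
    (hpw : (C.p : ℤ) ∣ C.q * C.w + sg) (hom : om = 1 ∨ om = -1)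
    (hqe : (C.p : ℤ) ∣ δ * C.q + om * C.h) (h2d : 2 * ((a * C.p) % C.N) < C.N) :
    ∃ A : TAp, A.p = C.p ∧ A.q = C.q ∧ A.w = C.w ∧ A.h = C.h ∧ A.a = a ∧ A.e = δ ∧
      A.sg = sg ∧ A.om = om ∧ A.Fl := by
  have hp' : (0 : ℤ) < C.p := by exact_mod_cast C.p_pos
  have hq' : (0 : ℤ) < C.q := by exact_mod_cast C.hq
  have hN := C.N_pos
  -- inverse of `δ`
  obtain ⟨e', he'⟩ : ∃ e' : ℤ, (C.p : ℤ) ∣ δ * e' - 1 := by
    obtain ⟨x, y, hxy⟩ := hδ
    exact ⟨x, -y, by linear_combination hxy⟩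
  set d := (a * C.p) % C.N with hd
  have d0 := Int.emod_nonneg (a * C.p) hN.ne'
  have de := Int.emod_add_mul_ediv (a * C.p) C.N
  have md0 : 0 ≤ d / C.q := Int.ediv_nonneg d0 hq'.le
  have f0 := Int.emod_nonneg d hq'.ne'
  have f1 := Int.emod_lt_of_pos d hq'
  have fe := Int.emod_add_mul_ediv d C.q
  have fne : d % C.q ≠ 0 := by
    intro h0
    have h1 : (C.q : ℤ) ∣ d := Int.dvd_of_emod_eq_zero h0
    have h2 : (C.q : ℤ) ∣ a * C.p := by
      obtain ⟨z, hz⟩ := h1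
      refine ⟨z + C.p * ((a * C.p) / C.N), ?_⟩
      have hNe : C.N = C.p * C.q := rfl
      linear_combination hz - de + ((a * C.p) / C.N) * hNe
    have h3 := hqa.dvd_of_dvd_mul_left h2
    have := Int.le_of_dvd hp' h3
    have : (C.p : ℤ) < C.q := by exact_mod_cast hpq
    omega
  have hmd2 : 2 * (d / C.q) < C.p := by
    by_contra hcon
    have h1 : (C.p : ℤ) ≤ 2 * (d / C.q) := by omega
    have h2 : C.q * (C.p : ℤ) ≤ C.q * (2 * (d / C.q)) := mul_le_mul_of_nonneg_left h1 hq'.le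
    have h3 : C.N = C.q * C.p := by unfold Cfg.N; ring
    have h4 : C.q * (2 * (d / C.q)) = 2 * (C.q * (d / C.q)) := by ring
    omega
  let A : TAp :=
    { p := C.p, q := C.q, w := C.w, h := C.h, a := a, e := δ, e' := e', md := d / C.q,
      fd := d % C.q, sg := sg, om := om, hw := hw, hh := hh, w2 := w2, h2 := h2, pq := hpq,
      inv := he', hpa := hpa, hqa := hqa, hmd := md0, hmd2 := hmd2,
      hfd := by omega, hfd2 := f1,
      hd := ⟨(a * C.p) / C.N, by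
        have : C.N = C.p * C.q := rfl
        rw [← this]
        linear_combination -de - fe⟩,
      hsg := by rcases hc with h | h
                · right; exact h.1
                · left; exact h.1
      hpw := hpw, hom := hom, hqe := hqe }
  refine ⟨A, rfl, rfl, rfl, rfl, rfl, rfl, rfl, rfl, ?_⟩
  -- flatness
  have key : ∀ k, C.N ∣ (A.cfg 0).U (k + -κ) - (C.U k + -c) := by
    intro k
    have h1 : (A.cfg 0).U (k + -κ) = A.a * i k := by
      apply TAp.U_of_idx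
      · exact (hi k).1
      · have := (hi k).2; rw [zero_add]; exact this
      · have h3 := hik k
        rw [← dvd_neg]
        have : -(A.e * i k - (k + -κ)) = k - (κ + δ * i k) := by
          change -(δ * i k - (k + -κ)) = _; ring
        rw [this]; exact h3
    rw [h1, hU k]
    change C.N ∣ a * i k - (c + a * i k + -c)
    rw [show a * i k - (c + a * i k + -c) = 0 by ring]
    exact dvd_zero _
  intro u v y hu
  rw [translate_pt C (A.cfg 0) rfl rfl rfl rfl (-κ) (-c) key u v y, ← C.Fint_eq]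
  apply hfl
  have hk : A.k0 = (if sg = 1 then 2 else 1) := rfl
  rcases hc with ⟨h1, h2⟩ | ⟨h1, h2⟩
  · rw [hk, if_neg (by omega)] at hu
    have := dvd_add hu h2
    rwa [show u + 1 + c = u - -c + 1 by ring] at this
  · rw [hk, if_pos h1] at hu
    have := dvd_add hu h2
    rwa [show u + 2 + (c - 1) = u - -c + 1 by ring] at this

/-- the progression `TAp` of a flat triple -/
theorem ApData.exists_tap {p q r w h : ℕ} (D : ApData p q r w h) (hpq : p < q)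
    (hw2 : 2 ≤ w) (hh2 : 2 ≤ h) (hwp : 2 * w < p) (hhp : 2 * h < p) :
    ∃ (A : TAp) (u ε η : ℤ), A.p = p ∧ A.q = q ∧ A.w = w ∧ A.h = h ∧ A.Fl ∧
      (ε = 1 ∨ ε = -1) ∧ (η = 1 ∨ η = -1) ∧ (p : ℤ) * q ∣ u * r - ε ∧
      (q : ℤ) ∣ A.a + η * u ∧ (p : ℤ) ∣ A.e * q + η * u := by
  obtain ⟨C, a, c, δ, κ, i, sg, u, ε, rfl, rfl, rfl, rfl, G, hpa, hqa, hδ, hi, hik, hU, hfl, hc,
    hpw, hqe, hε, hur, hqu, hpu⟩ := D
  have hN := C.N_pos
  have hodd : 2 * ((a * C.p) % C.N) ≠ C.N := by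
    intro hcon
    have h1 : (C.q : ℤ) ∣ a * (2 * C.p) := by
      have := Int.mul_ediv_add_emod (a * C.p) C.N
      have hNe : C.N = C.p * C.q := rfl
      exact ⟨2 * C.p * ((a * C.p) / C.N) + C.p, by
        linear_combination -2 * this + hcon + (2 * ((a * C.p) / C.N) + 1) * hNe⟩
    have h2 := hqa.dvd_of_dvd_mul_left h1
    have cop : IsCoprime (C.q : ℤ) C.p := by
      obtain ⟨z, hz⟩ := hpw
      rcases hc with ⟨h, _⟩ | ⟨h, _⟩
      · rw [h] at hz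
        exact ⟨C.w, -z, by linear_combination hz⟩
      · rw [h] at hz
        exact ⟨-C.w, z, by linear_combination -hz⟩
    have h3 := cop.dvd_of_dvd_mul_right h2
    have := Int.le_of_dvd (by norm_num) h3
    omega
  have d0 := Int.emod_nonneg (a * C.p) hN.ne'
  have d1 := Int.emod_lt_of_pos (a * C.p) hN
  rcases lt_or_ge (2 * ((a * C.p) % C.N)) C.N with h2d | h2d
  · obtain ⟨A, e1, e2, e3, e4, e5, e6, e7, e8, F⟩ := tap_of (om := 1) hpq hw2 hh2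
      hwp hhp hpa hqa hδ hi hik hU hfl hc hpw (Or.inl rfl) (by rwa [one_mul]) h2d
    exact ⟨A, u, ε, 1, e1, e2, e3, e4, F, hε, Or.inl rfl, hur, by rw [e5, one_mul]; exact hqu,
      by rw [e6, one_mul]; exact hpu⟩
  · have hmod : (-a * C.p) % C.N = C.N - (a * C.p) % C.N := by
      have := Int.mul_ediv_add_emod (a * C.p) C.N
      refine ((Int.ediv_emod_unique (q := -(a * C.p / C.N) - 1) hN).2 ⟨?_, by omega, ?_⟩).2
      · linear_combination -this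
      · have : (a * C.p) % C.N ≠ 0 := by omega
        omega
    have g1 : ∀ k, (C.p : ℤ) ∣ k - (κ + δ * (C.p - 1) + -δ * (C.p - 1 - i k)) := by
      intro k
      have := hik k
      rwa [show k - (κ + δ * (C.p - 1) + -δ * (C.p - 1 - i k)) = k - (κ + δ * i k) by ring]
    have g2 : ∀ k, C.U k = c + a * (C.p - 1) + -a * (C.p - 1 - i k) := by
      intro k
      rw [hU k]; ring
    have g3 : (sg = -1 ∧ (C.p : ℤ) ∣ c + a * (C.p - 1)) ∨
        (sg = 1 ∧ (C.p : ℤ) ∣ c + a * (C.p - 1) - 1) := by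
      rcases hc with ⟨h1, h2⟩ | ⟨h1, h2⟩
      · left; exact ⟨h1, dvd_add h2 (hpa.mul_right _)⟩
      · right
        refine ⟨h1, ?_⟩
        have := dvd_add h2 (hpa.mul_right ((C.p : ℤ) - 1))
        rwa [show c - 1 + a * ((C.p : ℤ) - 1) = c + a * (C.p - 1) - 1 by ring] at this
    have g4 : (C.p : ℤ) ∣ -δ * C.q + -1 * C.h := by
      rw [← dvd_neg]
      rwa [show -(-δ * (C.q : ℤ) + -1 * C.h) = δ * C.q + C.h by ring]
    have g5 : 2 * ((-a * C.p) % C.N) < C.N := by rw [hmod]; omega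
    obtain ⟨A, e1, e2, e3, e4, e5, e6, e7, e8, F⟩ := tap_of (C := C) (a := -a)
      (c := c + a * (C.p - 1)) (δ := -δ) (κ := κ + δ * (C.p - 1)) (i := fun k => C.p - 1 - i k)
      (om := -1) (sg := sg) hpq hw2 hh2
      hwp hhp ((dvd_neg).2 hpa) hqa.neg_right hδ.neg_left
      (fun k => by have := hi k; constructor <;> omega) g1 g2 hfl g3 hpw (Or.inr rfl) g4 g5
    refine ⟨A, u, ε, -1, e1, e2, e3, e4, F, hε, Or.inr rfl, hur, ?_, ?_⟩
    · rw [e5, ← dvd_neg]; rwa [show -(-a + -1 * u) = a + u by ring]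
    · rw [e6, ← dvd_neg]; rwa [show -(-δ * (C.q : ℤ) + -1 * u) = δ * C.q + u by ring]

/-- **the bridge for ties**: flatness of `Φ_{pqr}` gives a progression `TAp` -/
theorem exists_tap {p q r w h : ℕ} (hp : p.Prime) (hq : q.Prime) (hr : r.Prime)
    (hpq : p < q) (hqr : q < r)
    (hflat : ∀ n : ℕ, |(Polynomial.cyclotomic (p * q * r) ℤ).coeff n| ≤ 1)
    (hw2 : 2 ≤ w) (hh2 : 2 ≤ h) (hwp : 2 * w < p) (hhp : 2 * h < p)
    (hw : (p : ℤ) ∣ w * q - 1 ∨ (p : ℤ) ∣ w * q + 1)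
    (hh : (p : ℤ) ∣ h * r - 1 ∨ (p : ℤ) ∣ h * r + 1) :
    ∃ (A : TAp) (u ε η : ℤ), A.p = p ∧ A.q = q ∧ A.w = w ∧ A.h = h ∧ A.Fl ∧
      (ε = 1 ∨ ε = -1) ∧ (η = 1 ∨ η = -1) ∧ (p : ℤ) * q ∣ u * r - ε ∧
      (q : ℤ) ∣ A.a + η * u ∧ (p : ℤ) ∣ A.e * q + η * u :=
  (exists_ap hp hq hr hpq hqr hflat (by omega : 0 < w) (by omega : 0 < h) (by omega) hw
    hh).exists_tap hpq hw2 hh2 hwp hhp

theorem TAp.coprime_pq (A : TAp) : IsCoprime (A.p : ℤ) A.q := by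
  obtain ⟨z, hz⟩ := A.hpw
  rcases A.hsg with h | h
  · rw [h] at hz
    exact ⟨z, -A.w, by linear_combination -hz⟩
  · rw [h] at hz
    exact ⟨-z, A.w, by linear_combination hz⟩

/-- a tie with offset zero means `r ≡ ± t (mod pq)` -/
theorem tie_zero {A : TAp} (T : A.Tie) (hx : T.x = 0) {u r ε η : ℤ} (hε : ε = 1 ∨ ε = -1)
    (hη : η = 1 ∨ η = -1) (hur : (A.p : ℤ) * A.q ∣ u * r - ε) (hqu : (A.q : ℤ) ∣ A.a + η * u)
    (hpu : (A.p : ℤ) ∣ A.e * A.q + η * u) :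
    (A.p : ℤ) * A.q ∣ r - T.t ∨ (A.p : ℤ) * A.q ∣ r + T.t := by
  have e2 : T.ep * T.ep = 1 := by rcases T.hep with h | h <;> rw [h] <;> norm_num
  have s2 : A.sg * A.sg = 1 := by rcases A.hsg with h | h <;> rw [h] <;> norm_num
  have n2 : η * η = 1 := by rcases hη with h | h <;> rw [h] <;> norm_num
  have ε2 : ε * ε = 1 := by rcases hε with h | h <;> rw [h] <;> norm_num
  have cop : IsCoprime (A.p : ℤ) A.q := A.coprime_pq
  -- `u t ≡ - η ep sg`
  have hq1 : (A.q : ℤ) ∣ u * T.t + η * T.ep * A.sg := by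
    obtain ⟨z1, hz1⟩ := T.tie
    obtain ⟨z2, hz2⟩ := hqu
    exact ⟨η * (z2 * T.t) - η * (A.p * z1 + T.ep * A.w), by
      linear_combination (-η) * hz1 + (η * T.t) * hz2 - (u * T.t) * n2⟩
  have hp1 : (A.p : ℤ) ∣ u * T.t + η * T.ep * A.sg := by
    obtain ⟨z1, hz1⟩ := T.row
    obtain ⟨z2, hz2⟩ := hpu
    obtain ⟨z3, hz3⟩ := A.hpw
    rw [hx] at hz1
    exact ⟨η * (z2 * T.t) - η * A.q * z1 + η * T.ep * z3, by
      linear_combination (-η * A.q) * hz1 + (η * T.t) * hz2 + (η * T.ep) * hz3 - (u * T.t) * n2⟩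
  have hpq1 : (A.p : ℤ) * A.q ∣ u * T.t + η * T.ep * A.sg := cop.mul_dvd hp1 hq1
  -- multiply by `r`
  obtain ⟨z1, hz1⟩ := hpq1
  obtain ⟨z2, hz2⟩ := hur
  have key : (A.p : ℤ) * A.q ∣ r + η * T.ep * A.sg * ε * T.t := by
    refine ⟨η * T.ep * A.sg * (z1 * r - z2 * T.t), ?_⟩
    have m : (η * T.ep * A.sg) * (η * T.ep * A.sg) = 1 := by
      linear_combination (T.ep * T.ep * A.sg * A.sg) * n2 + (A.sg * A.sg) * e2 + s2
    linear_combination (η * T.ep * A.sg * r) * hz1 - (η * T.ep * A.sg * T.t) * hz2 - r * m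
  have hs : η * T.ep * A.sg * ε = 1 ∨ η * T.ep * A.sg * ε = -1 := by
    rcases hη with h1 | h1 <;> rcases T.hep with h2 | h2 <;> rcases A.hsg with h3 | h3 <;>
      rcases hε with h4 | h4 <;> rw [h1, h2, h3, h4] <;> norm_num
  rcases hs with h | h
  · right
    rw [h, one_mul] at key
    exact key
  · left
    rw [h] at key
    rwa [show r + -1 * T.t = r - T.t by ring] at key

end Pool.Agent.H78.Tie
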