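import Pool.Agent.H78.Tie.Rule2

/-!
# Ties with offset `± h` are impossible: two equal charges at the same point
-/

namespace Pool.Agent.H78.Tie

open Finset
open Pool.Agent.H98.Flat
open Pool.Agent.H67.Flat

/-- sum with a single residue -/
theorem sum_single {p : ℕ} (hp : 0 < p) (j : ℤ) (f : ℤ → ℤ) (P : ℤ → Prop)
    (h1 : ∀ k : ℤ, P k → f k = 1) (h0 : ∀ k : ℤ, ¬ P k → f k = 0)
    (hP : ∀ k, P k ↔ (p : ℤ) ∣ k - j) : ∑ k ∈ range p, f k = 1 := by
  have hp' : (0 : ℤ) < p := by exact_mod_cast hp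
  have l0 := Int.emod_nonneg j hp'.ne'
  have l1 := Int.emod_lt_of_pos j hp'
  rw [Finset.sum_eq_single (j % (p : ℤ)).toNat]
  · apply h1
    rw [hP, Int.toNat_of_nonneg l0, ← dvd_neg, neg_sub]
    exact Int.dvd_self_sub_emod
  · intro k hk hne
    have hk := Finset.mem_range.1 hk
    apply h0
    rw [hP]
    intro h
    apply hne
    have : j % (p : ℤ) = k := by
      rw [← Int.emod_eq_of_lt (a := (k : ℤ)) (b := p) (by omega) (by omega)]
      exact emod_congr (by rw [← dvd_neg, neg_sub]; exact h)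
    omega
  · intro h
    exact absurd (Finset.mem_range.2 (by omega)) h

/-- a corner is in a triangle of size one iff it lies on its row, at one of its two points -/
theorem vis_one {C : Cfg} (hq : 2 ≤ C.q) {Uc Vc row x v Y : ℤ} (hV : C.N ∣ Vc - (Uc + C.q * row))
    (hs : C.N ∣ v - x - C.q * Y - 1) :
    vis C.N C.q C.p Uc Vc row x v Y = 1 ↔
      ((C.p : ℤ) ∣ row - Y ∧ (C.N ∣ Uc - x ∨ C.N ∣ Uc - (x + 1))) := by
  have hN := C.N_pos
  have hp' : (0 : ℤ) < C.p := by exact_mod_cast C.p_pos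
  have hq' : (0 : ℤ) < C.q := by exact_mod_cast C.hq
  have hq2 : (2 : ℤ) ≤ C.q := by exact_mod_cast hq
  have hNe : C.N = C.p * C.q := rfl
  have hN2 : 2 ≤ C.N := by rw [hNe]; nlinarith
  rw [vis_eq hN hNe.symm hq' hp' hV]
  have m1 : (v - x - C.q * Y) % C.N = 1 := by
    rw [emod_congr (b := 1) hs]
    exact Int.emod_eq_of_lt (by norm_num) (by omega)
  rw [m1]
  have r0 := Int.emod_nonneg (row - Y) hp'.ne'
  have x0 := Int.emod_nonneg (Uc - x) hN.ne'
  have re := Int.emod_add_mul_ediv (row - Y) C.p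
  have xe := Int.emod_add_mul_ediv (Uc - x) C.N
  constructor
  · intro h
    have hc : (Uc - x) % C.N ≤ 1 - C.q * ((row - Y) % C.p) := by
      by_contra hc
      rw [if_neg hc] at h
      exact absurd h (by norm_num)
    have hr : (row - Y) % (C.p : ℤ) = 0 := by
      by_contra hne
      have : 1 ≤ (row - Y) % (C.p : ℤ) := by omega
      nlinarith
    refine ⟨Int.dvd_of_emod_eq_zero hr, ?_⟩
    rw [hr, mul_zero, sub_zero] at hc
    have : (Uc - x) % C.N = 0 ∨ (Uc - x) % C.N = 1 := by omega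
    rcases this with h2 | h2
    · left; exact Int.dvd_of_emod_eq_zero h2
    · right
      rw [h2] at xe
      exact ⟨(Uc - x) / C.N, by linear_combination -xe⟩
  · rintro ⟨h1, h2⟩
    have hr : (row - Y) % (C.p : ℤ) = 0 := Int.emod_eq_zero_of_dvd h1
    rw [hr, mul_zero, sub_zero, if_pos]
    rcases h2 with h2 | h2
    · rw [Int.emod_eq_zero_of_dvd h2]; norm_num
    · have : (Uc - x) % C.N = 1 := by
        rw [emod_congr (b := 1) (by rwa [sub_sub])]
        exact Int.emod_eq_of_lt (by norm_num) (by omega)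
      rw [this]

theorem vis01 (N q p Uc Vc row x v Y : ℤ) :
    vis N q p Uc Vc row x v Y = 0 ∨ vis N q p Uc Vc row x v Y = 1 := by
  unfold vis; split_ifs <;> simp

/-- two charges of the same sign at the same point -/
theorem double_charge {C : Cfg} (G : C.Gen) (hq : 2 ≤ C.q) {u jl jr cl cr : ℤ}
    (hl : C.N ∣ cl - C.U jl) (hr : C.N ∣ cr - (C.U jr + C.W))
    (hc : (cl = u + 1 ∧ cr = u + 2) ∨ (cl = u + 2 ∧ cr = u + 1))
    (hx : (C.p : ℤ) ∣ jl - jr + C.w - C.h ∨ (C.p : ℤ) ∣ jl - jr + C.w + C.h) :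
    ∃ v Y, Fq C Y u v = -2 ∨ Fq C Y u v = 2 := by
  have hN := C.N_pos
  have hp' : (0 : ℤ) < C.p := by exact_mod_cast C.p_pos
  have hNe : C.N = C.p * C.q := rfl
  have hW : C.W = C.q * C.w := rfl
  have hH : C.H = C.q * C.h := rfl
  have ph : ¬ (C.p : ℤ) ∣ C.h := by
    intro h
    have h1 := Int.le_of_dvd (by have := C.hh; omega) h
    have := C.hwh
    have := C.hw
    omega
  have two : ∀ z : ℤ, (C.N ∣ z - (u + 1) ∨ C.N ∣ z - (u + 1 + 1)) →
      (C.N ∣ z - cl ∨ C.N ∣ z - cr) := by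
    intro z h
    rw [show u + 1 + 1 = u + 2 by ring] at h
    rcases hc with ⟨h1, h2⟩ | ⟨h1, h2⟩ <;> rw [h1, h2]
    · exact h
    · exact h.symm
  have two' : ∀ z : ℤ, (C.N ∣ z - cl ∨ C.N ∣ z - cr) →
      (C.N ∣ z - (u + 1) ∨ C.N ∣ z - (u + 1 + 1)) := by
    intro z h
    rw [show u + 1 + 1 = u + 2 by ring]
    rcases hc with ⟨h1, h2⟩ | ⟨h1, h2⟩ <;> rw [h1, h2] at h
    · exact h
    · exact h.symm
  -- left walls at the line
  have Lw : ∀ k, (C.N ∣ C.U k - cl ∨ C.N ∣ C.U k - cr) ↔ (C.p : ℤ) ∣ k - jl := by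
    intro k
    constructor
    · rintro (h | h)
      · apply G.UU
        have := dvd_add h hl
        rwa [sub_add_sub_cancel] at this
      · exfalso
        apply G.UW k jr
        have := dvd_add h hr
        rwa [sub_add_sub_cancel] at this
    · intro h
      left
      have := dvd_sub (C.U_congr h) hl
      rwa [show C.U k - C.U jl - (cl - C.U jl) = C.U k - cl by ring] at this
  have Rw : ∀ k, (C.N ∣ C.U k + C.W - cl ∨ C.N ∣ C.U k + C.W - cr) ↔ (C.p : ℤ) ∣ k - jr := by
    intro k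
    constructor
    · rintro (h | h)
      · exfalso
        apply G.UW jl k
        have := dvd_add h hl
        rw [sub_add_sub_cancel] at this
        have h2 := (dvd_neg).2 this
        rwa [neg_sub] at h2
      · apply G.UU
        have := dvd_add h hr
        rwa [show C.U k + C.W - cr + (cr - (C.U jr + C.W)) = C.U k - C.U jr by ring] at this
    · intro h
      right
      have := dvd_sub (C.U_congr h) hr
      rwa [show C.U k - C.U jr - (cr - (C.U jr + C.W)) = C.U k + C.W - cr by ring] at this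
  rcases hx with hx | hx
  · -- `A` of `jr` and `B` of `jl`
    refine ⟨u + 1 + C.q * (jr - C.w) + 1, jr - C.w, Or.inl ?_⟩
    have hs : C.N ∣ (u + 1 + C.q * (jr - C.w) + 1) - (u + 1) - C.q * (jr - C.w) - 1 :=
      ⟨0, by ring⟩
    have e := C.Fint_eq u (u + 1 + C.q * (jr - C.w) + 1) (jr - C.w)
    unfold Fq
    rw [← e]
    unfold Cfg.Fint
    rw [Finset.sum_add_distrib, Finset.sum_sub_distrib, Finset.sum_sub_distrib]
    have s1 : ∑ k ∈ range C.p, vis C.N C.q C.p (C.U k) (C.V k) k (u + 1)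
        (u + 1 + C.q * (jr - C.w) + 1) (jr - C.w) = 0 := by
      refine Finset.sum_eq_zero fun k _ => ?_
      rcases vis01 C.N C.q C.p (C.U k) (C.V k) k (u + 1)
        (u + 1 + C.q * (jr - C.w) + 1) (jr - C.w) with h | h
      · exact h
      · exfalso
        obtain ⟨h1, h2⟩ := (vis_one hq ⟨0, by unfold Cfg.V; ring⟩ hs).1 h
        have h3 := (Lw k).1 (two _ h2)
        apply ph
        have := dvd_sub (dvd_sub h1 h3) hx
        rwa [show (k : ℤ) - (jr - C.w) - (k - jl) - (jl - jr + C.w - C.h) = C.h by ring] at this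
    have s4 : ∑ k ∈ range C.p, vis C.N C.q C.p (C.U k + C.W) (C.V k - C.H) (k - C.w - C.h) (u + 1)
        (u + 1 + C.q * (jr - C.w) + 1) (jr - C.w) = 0 := by
      refine Finset.sum_eq_zero fun k _ => ?_
      rcases vis01 C.N C.q C.p (C.U k + C.W) (C.V k - C.H) (k - C.w - C.h) (u + 1)
        (u + 1 + C.q * (jr - C.w) + 1) (jr - C.w) with h | h
      · exact h
      · exfalso
        obtain ⟨h1, h2⟩ := (vis_one hq ⟨0, by unfold Cfg.V Cfg.W Cfg.H; ring⟩ hs).1 h
        have h3 := (Rw k).1 (two _ h2)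
        apply ph
        have := dvd_sub h3 h1
        rwa [show (k : ℤ) - jr - (k - C.w - C.h - (jr - C.w)) = C.h by ring] at this
    have s2 : ∑ k ∈ range C.p, vis C.N C.q C.p (C.U k + C.W) (C.V k) (k - C.w) (u + 1)
        (u + 1 + C.q * (jr - C.w) + 1) (jr - C.w) = 1 := by
      refine sum_single (f := fun k => vis C.N C.q C.p (C.U k + C.W) (C.V k) (k - C.w) (u + 1)
        (u + 1 + C.q * (jr - C.w) + 1) (jr - C.w)) C.p_pos jr
        (fun k => vis C.N C.q C.p (C.U k + C.W) (C.V k) (k - C.w) (u + 1)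
        (u + 1 + C.q * (jr - C.w) + 1) (jr - C.w) = 1) (fun k h => h) ?_ ?_
      · intro k h
        exact (vis01 _ _ _ _ _ _ _ _ _).resolve_right h
      · intro k
        rw [vis_one hq ⟨0, by unfold Cfg.V Cfg.W; ring⟩ hs]
        constructor
        · rintro ⟨_, h2⟩
          exact (Rw k).1 (two _ h2)
        · intro h
          refine ⟨?_, two' _ ((Rw k).2 h)⟩
          rwa [show k - (C.w : ℤ) - (jr - C.w) = k - jr by ring]
    have s3 : ∑ k ∈ range C.p, vis C.N C.q C.p (C.U k) (C.V k - C.H) (k - C.h) (u + 1)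
        (u + 1 + C.q * (jr - C.w) + 1) (jr - C.w) = 1 := by
      refine sum_single (f := fun k => vis C.N C.q C.p (C.U k) (C.V k - C.H) (k - C.h) (u + 1)
        (u + 1 + C.q * (jr - C.w) + 1) (jr - C.w)) C.p_pos jl
        (fun k => vis C.N C.q C.p (C.U k) (C.V k - C.H) (k - C.h) (u + 1)
        (u + 1 + C.q * (jr - C.w) + 1) (jr - C.w) = 1) (fun k h => h) ?_ ?_
      · intro k h
        exact (vis01 _ _ _ _ _ _ _ _ _).resolve_right h
      · intro k
        rw [vis_one hq ⟨0, by unfold Cfg.V Cfg.H; ring⟩ hs]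
        constructor
        · rintro ⟨_, h2⟩
          exact (Lw k).1 (two _ h2)
        · intro h
          refine ⟨?_, two' _ ((Lw k).2 h)⟩
          have := dvd_add h hx
          rwa [show k - jl + (jl - jr + C.w - C.h) = k - (C.h : ℤ) - (jr - C.w) by ring] at this
    rw [s1, s2, s3, s4]; norm_num
  · -- `C` of `jr` and `P` of `jl`
    refine ⟨u + 1 + C.q * jl + 1, jl, Or.inr ?_⟩
    have hs : C.N ∣ (u + 1 + C.q * jl + 1) - (u + 1) - C.q * jl - 1 := ⟨0, by ring⟩
    have e := C.Fint_eq u (u + 1 + C.q * jl + 1) jl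
    unfold Fq
    rw [← e]
    unfold Cfg.Fint
    rw [Finset.sum_add_distrib, Finset.sum_sub_distrib, Finset.sum_sub_distrib]
    have s2 : ∑ k ∈ range C.p, vis C.N C.q C.p (C.U k + C.W) (C.V k) (k - C.w) (u + 1)
        (u + 1 + C.q * jl + 1) jl = 0 := by
      refine Finset.sum_eq_zero fun k _ => ?_
      rcases vis01 C.N C.q C.p (C.U k + C.W) (C.V k) (k - C.w) (u + 1)
        (u + 1 + C.q * jl + 1) jl with h | h
      · exact h
      · exfalso
        obtain ⟨h1, h2⟩ := (vis_one hq ⟨0, by unfold Cfg.V Cfg.W; ring⟩ hs).1 h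
        have h3 := (Rw k).1 (two _ h2)
        apply ph
        have := dvd_add (dvd_sub h1 h3) hx
        rwa [show (k : ℤ) - C.w - jl - (k - jr) + (jl - jr + C.w + C.h) = C.h by ring] at this
    have s3 : ∑ k ∈ range C.p, vis C.N C.q C.p (C.U k) (C.V k - C.H) (k - C.h) (u + 1)
        (u + 1 + C.q * jl + 1) jl = 0 := by
      refine Finset.sum_eq_zero fun k _ => ?_
      rcases vis01 C.N C.q C.p (C.U k) (C.V k - C.H) (k - C.h) (u + 1)
        (u + 1 + C.q * jl + 1) jl with h | h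
      · exact h
      · exfalso
        obtain ⟨h1, h2⟩ := (vis_one hq ⟨0, by unfold Cfg.V Cfg.H; ring⟩ hs).1 h
        have h3 := (Lw k).1 (two _ h2)
        apply ph
        have := dvd_sub h3 h1
        rwa [show (k : ℤ) - jl - (k - C.h - jl) = C.h by ring] at this
    have s1 : ∑ k ∈ range C.p, vis C.N C.q C.p (C.U k) (C.V k) k (u + 1)
        (u + 1 + C.q * jl + 1) jl = 1 := by
      refine sum_single (f := fun k => vis C.N C.q C.p (C.U k) (C.V k) k (u + 1)
        (u + 1 + C.q * jl + 1) jl) C.p_pos jl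
        (fun k => vis C.N C.q C.p (C.U k) (C.V k) k (u + 1)
        (u + 1 + C.q * jl + 1) jl = 1) (fun k h => h) ?_ ?_
      · intro k h
        exact (vis01 _ _ _ _ _ _ _ _ _).resolve_right h
      · intro k
        rw [vis_one hq ⟨0, by unfold Cfg.V; ring⟩ hs]
        constructor
        · rintro ⟨h1, _⟩
          exact h1
        · intro h
          exact ⟨h, two' _ ((Lw k).2 h)⟩
    have s4 : ∑ k ∈ range C.p, vis C.N C.q C.p (C.U k + C.W) (C.V k - C.H) (k - C.w - C.h) (u + 1)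
        (u + 1 + C.q * jl + 1) jl = 1 := by
      refine sum_single (f := fun k => vis C.N C.q C.p (C.U k + C.W) (C.V k - C.H)
        (k - C.w - C.h) (u + 1) (u + 1 + C.q * jl + 1) jl) C.p_pos jr
        (fun k => vis C.N C.q C.p (C.U k + C.W) (C.V k - C.H) (k - C.w - C.h) (u + 1)
        (u + 1 + C.q * jl + 1) jl = 1) (fun k h => h) ?_ ?_
      · intro k h
        exact (vis01 _ _ _ _ _ _ _ _ _).resolve_right h
      · intro k
        rw [vis_one hq ⟨0, by unfold Cfg.V Cfg.W Cfg.H; ring⟩ hs]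
        constructor
        · rintro ⟨_, h2⟩
          exact (Rw k).1 (two _ h2)
        · intro h
          refine ⟨?_, two' _ ((Rw k).2 h)⟩
          have := dvd_sub h hx
          rwa [show k - jr - (jl - jr + C.w + C.h) = k - (C.w : ℤ) - C.h - jl by ring] at this
    rw [s1, s2, s3, s4]; norm_num

namespace TAp

variable {A : TAp}

/-- a tie whose offset is `± h` is impossible -/
theorem Tie.not_h (F : A.Fl) (T : A.Tie)
    (hx : (A.p : ℤ) ∣ T.x - A.h ∨ (A.p : ℤ) ∣ T.x + A.h) : False := by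
  have hq2 : 2 ≤ A.q := by have := A.pq; have := A.hp; omega
  have e2 : T.ep * T.ep = 1 := by rcases T.hep with h | h <;> rw [h] <;> norm_num
  have t0 := T.t0
  have tp := T.tp
  have hp := A.p_pos'
  have hW : (A.cfg 0).W = A.q * A.w := rfl
  have U0 : (A.cfg 0).U 0 = 0 := A.U00
  have Ut : (A.cfg 0).U (A.e * T.t) = A.a * T.t :=
    U_of_idx (by omega) (by omega) (by simp)
  -- the two rows of the line, and the line
  obtain ⟨jl, jr, cl, hl, hr, hcl, hrow⟩ : ∃ jl jr cl : ℤ, (A.cfg 0).N ∣ cl - (A.cfg 0).U jl ∧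
      (A.cfg 0).N ∣ (cl - A.sg) - ((A.cfg 0).U jr + (A.cfg 0).W) ∧ (A.p : ℤ) ∣ cl ∧
      (A.p : ℤ) ∣ jl - jr + A.w - T.x := by
    rcases T.hep with hep | hep
    · refine ⟨A.e * T.t, 0, A.a * T.t, ?_, ?_, A.hpa.mul_right _, ?_⟩
      · rw [Ut, sub_self]; exact dvd_zero _
      · rw [U0, hW]
        have := T.tie
        rw [hep] at this
        rwa [show A.a * T.t - A.sg - (0 + A.q * (A.w : ℤ)) = A.a * T.t - 1 * (A.q * A.w + A.sg) by
          ring]
      · have := T.row
        rw [hep] at this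
        rwa [show A.e * T.t - 0 + A.w - T.x = A.e * T.t - 1 * (T.x - A.w) by ring]
    · refine ⟨0, A.e * T.t, 0, ?_, ?_, dvd_zero _, ?_⟩
      · rw [U0, sub_self]; exact dvd_zero _
      · rw [Ut, hW]
        have := T.tie
        rw [hep] at this
        rw [← dvd_neg]
        rwa [show -(0 - A.sg - (A.a * T.t + A.q * (A.w : ℤ)))
          = A.a * T.t - -1 * (A.q * A.w + A.sg) by ring]
      · have := T.row
        rw [hep] at this
        rw [← dvd_neg]
        rwa [show -(0 - A.e * T.t + A.w - T.x) = A.e * T.t - -1 * (T.x - A.w) by ring]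
  have hu : (A.p : ℤ) ∣ cl - A.k0 + A.k0 := by rwa [sub_add_cancel]
  have hc : (cl = cl - A.k0 + 1 ∧ cl - A.sg = cl - A.k0 + 2) ∨
      (cl = cl - A.k0 + 2 ∧ cl - A.sg = cl - A.k0 + 1) := by
    rcases A.k0_cases with ⟨h3, h3'⟩ | ⟨h3, h3'⟩ <;> rw [h3, h3']
    · right; constructor <;> ring
    · left; constructor <;> ring
  have hx' : (A.p : ℤ) ∣ jl - jr + A.w - A.h ∨ (A.p : ℤ) ∣ jl - jr + A.w + A.h := by
    rcases hx with h | h
    · left
      have := dvd_add hrow h
      rwa [show jl - jr + A.w - T.x + (T.x - A.h) = jl - jr + A.w - A.h by ring] at this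
    · right
      have := dvd_add hrow h
      rwa [show jl - jr + A.w - T.x + (T.x + A.h) = jl - jr + A.w + A.h by ring] at this
  obtain ⟨v, Y, h⟩ := double_charge (A.cfg_gen 0) hq2 hl hr hc hx'
  have b := abs_le.1 (F.zero 0 hu v Y)
  rcases h with h | h <;> rw [h] at b <;> omega

/-- the second tie -/
def Tie.second (T : A.Tie) (h : (A.q : ℤ) - T.t < A.p) : A.Tie where
  t := A.q - T.t
  ep := -T.ep
  x := T.x + T.ep * A.om * A.h
  t0 := by
    have := T.tp
    have hpq : (A.p : ℤ) < A.q := by exact_mod_cast A.pq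
    omega
  tp := h
  hep := by rcases T.hep with h | h <;> rw [h] <;> simp
  tie := by
    obtain ⟨z1, hz1⟩ := T.tie
    obtain ⟨z2, hz2⟩ := A.hpa
    exact ⟨z2 - z1, by linear_combination (A.q : ℤ) * hz2 - hz1⟩
  row := by
    obtain ⟨z1, hz1⟩ := T.row
    obtain ⟨z2, hz2⟩ := A.hqe
    have e2 : T.ep * T.ep = 1 := by rcases T.hep with h | h <;> rw [h] <;> norm_num
    exact ⟨z2 - z1, by linear_combination hz2 - hz1 + (A.om * A.h) * e2⟩

end TAp

end Pool.Agent.H78.Tie
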