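import Pool.Agent.H98.Tie.StatWAp
import Pool.Agent.H42.Tie.One
import Pool.Agent.H78.Tie.Corner
import Pool.Agent.H78.Tie.Bridge

/-!
# Assembly of the tie case from its parts
-/

namespace Pool.Agent.H78.Tie

open Finset
open Pool.Agent.H98.Flat
open Pool.Agent.H42.Tie (one_tie_false)

namespace TAp

variable {A : TAp}

/-- single ties, from the parts -/
theorem single_tie_false_of
    (HNo : ∀ (A : TAp) (T : A.Tie), A.Fl → T.Single → T.t ≠ 1 → T.x ≠ 0 → |T.x| < A.h → T.NoOv)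
    (HV : ∀ (A : TAp) (T : A.Tie), A.Fl → T.Single → T.NoOv → T.t ≠ 1 → T.x < 0 →
      A.w - T.x ≤ A.h → False)
    (A : TAp) (T : A.Tie) (F : A.Fl) (hs : T.Single) (hx0 : T.x ≠ 0) (hx : |T.x| < A.h) :
    False := by
  by_cases ht : T.t = 1
  · exact one_tie_false F T ht hx0 hx
  have hn := HNo A T F hs ht hx0 hx
  have hxa := abs_lt.1 hx
  rcases lt_or_gt_of_ne hx0 with h | h
  · exact HV A T F hs hn ht h (T.K1 F hn h (by omega))
  · have := T.K3 F hs hn h (by omega)
    exact T.W F hs hn this.1 (by omega)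

/-- all ties, from the parts -/
theorem tie_false_of
    (HNo : ∀ (A : TAp) (T : A.Tie), A.Fl → T.Single → T.t ≠ 1 → T.x ≠ 0 → |T.x| < A.h → T.NoOv)
    (HV : ∀ (A : TAp) (T : A.Tie), A.Fl → T.Single → T.NoOv → T.t ≠ 1 → T.x < 0 →
      A.w - T.x ≤ A.h → False)
    (HD : ∀ (A : TAp) (T T' : A.Tie), A.Fl → T'.t = A.q - T.t → T.t < T'.t → T'.ep = -T.ep →
      (A.p : ℤ) ∣ T'.x - (T.x + T.ep * A.om * A.h) →
      T.t ≠ 1 → T'.t ≠ 1 → T.x ≠ 0 → T'.x ≠ 0 → |T.x| < A.h → |T'.x| < A.h → False)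
    (A : TAp) (T : A.Tie) (F : A.Fl) (hx : |T.x| < A.h) (hx0 : ∀ T' : A.Tie, T'.x ≠ 0) :
    False := by
  by_cases hs : T.Single
  · exact single_tie_false_of HNo HV A T F hs (hx0 T) hx
  unfold Tie.Single at hs
  rw [not_or] at hs
  obtain ⟨hs1, hs2⟩ := hs
  push Not at hs1
  have hp := A.p_pos'
  have h2 := A.h2
  -- the second tie, with a small offset
  obtain ⟨x', hx', hx'l⟩ : ∃ x' : ℤ, (A.p : ℤ) ∣ x' - (T.x + T.ep * A.om * A.h) ∧
      |x'| ≤ A.h := by
    have r0 := Int.emod_nonneg (T.x + T.ep * A.om * A.h) hp.ne'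
    have r1 := Int.emod_lt_of_pos (T.x + T.ep * A.om * A.h) hp
    have re := Int.mul_ediv_add_emod (T.x + T.ep * A.om * A.h) A.p
    set z := T.x + T.ep * A.om * A.h
    rcases le_or_gt (z % A.p) A.h with h | h
    · exact ⟨z % A.p, ⟨-(z / A.p), by linear_combination re⟩, by rw [abs_le]; constructor <;> omega⟩
    · have h4 : (A.p : ℤ) - A.h ≤ z % A.p := by
        by_contra hc
        exact hs2 ⟨h, by omega⟩
      exact ⟨z % A.p - A.p, ⟨-(z / A.p) - 1, by linear_combination re⟩, by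
        rw [abs_le]; constructor <;> omega⟩
  set T2 : A.Tie := T.second hs1 with hT2
  let T' : A.Tie :=
    { t := T2.t
      ep := T2.ep
      x := x'
      t0 := T2.t0
      tp := T2.tp
      hep := T2.hep
      tie := T2.tie
      row := by
        have h1 := T2.row
        have e2 : T2.x = T.x + T.ep * A.om * A.h := rfl
        rw [e2] at h1
        have h3 := dvd_sub h1 (hx'.mul_left T2.ep)
        rwa [show A.e * T2.t - T2.ep * (T.x + T.ep * A.om * A.h - A.w) -
          T2.ep * (x' - (T.x + T.ep * A.om * A.h)) = A.e * T2.t - T2.ep * (x' - A.w) by ring] at h3 }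
  have ht' : T'.t = A.q - T.t := rfl
  have hep' : T'.ep = -T.ep := rfl
  have hxe : T'.x = x' := rfl
  have hxl : |T'.x| < A.h := by
    rcases lt_or_eq_of_le hx'l with h | h
    · exact h
    · exfalso
      rcases (abs_eq (by omega)).1 h with h | h
      · exact T'.not_h F (Or.inl (by rw [hxe, h, sub_self]; exact dvd_zero _))
      · exact T'.not_h F (Or.inr (by rw [hxe, h, neg_add_cancel]; exact dvd_zero _))
  have x0 := hx0 T
  have x0' := hx0 T'
  have n1 : T.t ≠ 1 := fun h => one_tie_false F T h x0 hx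
  have n1' : T'.t ≠ 1 := fun h => one_tie_false F T' h x0' hxl
  have hne : T.t ≠ T'.t := by
    intro h
    -- `q = 2 t`, so `q ∣ a (2 t)`, impossible
    have h1 : (A.q : ℤ) = 2 * T.t := by omega
    have h3 : IsCoprime (A.q : ℤ) A.p := A.coprime_pq.symm
    obtain ⟨z1, hz1⟩ := T.tie
    obtain ⟨z2, hz2⟩ := T'.tie
    rw [ht', hep'] at hz2
    rw [← h.trans ht'] at hz2
    -- subtract
    have e2 : T.ep * T.ep = 1 := by rcases T.hep with h | h <;> rw [h] <;> norm_num
    have h4 : (A.p : ℤ) * A.q ∣ 2 * (A.q * A.w + A.sg) := by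
      refine ⟨T.ep * (z2 - z1), ?_⟩
      have : 2 * (T.ep * (A.q * A.w + A.sg)) = (A.p : ℤ) * A.q * (z2 - z1) := by
        linear_combination hz2 - hz1
      linear_combination T.ep * this - 2 * (A.q * A.w + A.sg) * e2
    have h5 : (A.q : ℤ) ∣ 2 * (A.q * A.w + A.sg) := (dvd_mul_left _ _).trans h4
    have h6 : (A.q : ℤ) ∣ 2 := by
      have h7 : (A.q : ℤ) ∣ 2 * A.sg := by
        have := dvd_sub h5 (dvd_mul_right (A.q : ℤ) (2 * A.w))
        rwa [show 2 * ((A.q : ℤ) * A.w + A.sg) - A.q * (2 * A.w) = 2 * A.sg by ring] at this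
      rcases A.hsg with h8 | h8
      · rwa [h8, mul_one] at h7
      · rw [h8] at h7
        rwa [show (2 : ℤ) * -1 = -2 by ring, dvd_neg] at h7
    have := Int.le_of_dvd (by norm_num) h6
    have hpq : (A.p : ℤ) < A.q := by exact_mod_cast A.pq
    have := A.hh
    omega
  rcases lt_or_gt_of_ne hne with h | h
  · exact HD A T T' F ht' h hep' hx' n1 n1' x0 x0' hx hxl
  · refine HD A T' T F (by omega) h (by omega) ?_ n1' n1 x0' x0 hxl hx
    rw [hxe, hep']
    rw [← dvd_neg]
    rwa [show -(T.x - (x' + -T.ep * A.om * A.h)) = x' - (T.x + T.ep * A.om * A.h) by ring]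

end TAp

end Pool.Agent.H78.Tie
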