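import Pool.Agent.H78.Tie.Rule

/-!
# Rule (E0) for free walls and for merged walls
-/

namespace Pool.Agent.H78.Tie

open Finset
open Pool.Agent.H98.Flat
open Pool.Agent.H67.Flat

namespace TAp

variable {A : TAp}

/-- the left wall of class `j` is free -/
def Tie.FreeL (T : A.Tie) (j : ℤ) : Prop :=
  (T.ep = 1 ∧ j < T.t) ∨ (T.ep = -1 ∧ A.p < j + T.t)

/-- the right wall of class `j` is free -/
def Tie.FreeR (T : A.Tie) (j : ℤ) : Prop :=
  (T.ep = 1 ∧ A.p < j + T.t) ∨ (T.ep = -1 ∧ j < T.t)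

/-- class `j` has a free vertical wall at position `(mc, f)`; `g = V_j - c`; rows `(g-h, g]` -/
def Tie.FW (T : A.Tie) (j mc f g : ℤ) : Prop :=
  (A.Cls j mc f g ∧ T.FreeL j) ∨ (A.Cls j (mc - A.w) f (g + A.w) ∧ T.FreeR j)

/-- **rule (E0)** for free walls: `c = (mc, fc)` a free vertical wall of class `j`, rows
`(g-h, g]`; `b = (mb, fb)` a horizontal wall of class `i ≠ j`, rows `(k-w, k]`; `r` the level of
`b - c`.  If a level `Y` is separated from `r` by both arcs then `Φ(Y) = Φ(r)`. -/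
theorem E0f (F : A.Fl) (T : A.Tie) (hs : T.Single) {j i mc fc g mb fb k r : ℤ}
    (hj : T.FW j mc fc g) (hi : A.HW i mb fb k)
    (hij : i ≠ j) (hr : r = mb - mc + (if fc < fb then 1 else 0)) (Y : ℤ)
    (h1 : InA A.p Y (g - A.h) A.h ↔ ¬ InA A.p r (g - A.h) A.h)
    (h2 : InA A.p Y (k - A.w) A.w ↔ ¬ InA A.p r (k - A.w) A.w) :
    A.Phi mc fc mb fb Y = A.Phi mc fc mb fb r := by
  rcases hj with ⟨c, hf⟩ | ⟨c, hf⟩
  · exact E0 (Or.inl c) (okL F T hs c hf) hi hij hr Y h1 h2
  · refine E0 (Or.inr c) ?_ hi hij hr Y h1 h2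
    have := okR F T hs c hf
    rwa [sub_add_cancel] at this

/-! ### merged lines -/

/-- charge of level `y` for a merged line: left wall of a class of row `s`, right wall of a class
of row `s'` -/
def chi (A : TAp) (s s' y : ℤ) : ℤ :=
  (if InA A.p y (s - A.h) A.h then 1 else 0) - (if InA A.p y (s' - A.w - A.h) A.h then 1 else 0)

theorem InA_if {p K n Y : ℤ} (hn0 : 0 < n) (hn : n ≤ p) :
    (if InA p Y (K - n) n then (1 : ℤ) else 0) = lv p K n Y := by
  by_cases h : InA p Y (K - n) n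
  · rw [if_pos h, (Ap.InA_lv hn0 hn).1 h]
  · rw [if_neg h]
    rcases lv01 p K n Y with h1 | h1
    · exact h1.symm
    · exact absurd ((Ap.InA_lv hn0 hn).2 h1) h

theorem merged_ML (F : A.Fl) {jl jr m f s s' : ℤ} (cl : A.Cls jl m f s)
    (cr : A.Cls jr (m - A.w) (f - A.sg) s') :
    ML (A.cfg 0) A.D (A.q * m + f - A.k0) s s' (A.q * m + f) (A.q * m + f - A.sg) := by
  have hu : (A.p : ℤ) ∣ A.q * m + f - A.k0 + A.k0 := by
    rw [sub_add_cancel]
    have h1 := dvd_sub (A.U_dvd 0 s) ((dvd_mul_right _ _).trans cl.U0)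
    rwa [sub_sub_cancel] at h1
  refine ⟨?_, ?_, ?_, rowne cl, rowne cr, F.zero 0 hu, F.two 0 hu, ?_, ?_⟩
  · rw [← dvd_neg, neg_sub]; exact cl.U0
  · rw [← dvd_neg]
    have hW : (A.cfg 0).W = A.q * A.w := rfl
    rw [hW]
    have := cr.U0
    rwa [show -(A.q * m + f - A.sg - ((A.cfg 0).U s' + A.q * A.w))
      = (A.cfg 0).U s' - (A.q * (m - A.w) + (f - A.sg)) by ring]
  · rcases A.k0_cases with ⟨h3, h3'⟩ | ⟨h3, h3'⟩ <;> rw [h3, h3']
    · right; constructor <;> ring
    · left; constructor <;> ring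
  · intro v Y; rw [A.win]; exact F.zero 1 hu v Y
  · intro v Y; rw [A.win]; exact F.two 1 hu v Y

/-- position of the second wall of a merged line -/
theorem merged_ph {jl jr m f s s' : ℤ} (cl : A.Cls jl m f s)
    (cr : A.Cls jr (m - A.w) (f - A.sg) s') :
    ph (A.cfg 0).N 0 A.D (A.q * m + f - A.k0 + 2) = ph (A.cfg 0).N 0 A.D (A.q * m + f) ∧
    ph (A.cfg 0).N (A.cfg 0).W A.D (A.q * m + f - A.k0 + 2)
      = ph (A.cfg 0).N (A.cfg 0).W A.D (A.q * m + f) := by
  have hN := (A.cfg 0).N_pos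
  have hp := A.p_pos'
  have hp4 : (4 : ℤ) < A.p := by
    have hw := A.hw
    have w2 := A.w2
    have : 4 < A.p := by omega
    exact_mod_cast this
  rcases A.k0_cases with ⟨h3, h3'⟩ | ⟨h3, h3'⟩
  · rw [h3', sub_add_cancel]; exact ⟨rfl, rfl⟩
  · rw [h3', show A.q * m + f - 1 + 2 = A.q * m + f + 1 by ring]
    have hu : (A.p : ℤ) ∣ A.q * m + f := by
      have h1 := dvd_sub (A.U_dvd 0 s) ((dvd_mul_right _ _).trans cl.U0)
      rwa [sub_sub_cancel] at h1
    have hD : (A.p : ℤ) ∣ A.D := by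
      have h1 := (dvd_mul_right (A.p : ℤ) A.q).trans A.hd
      have h2 := dvd_sub (A.hpa.mul_right A.p) h1
      rwa [sub_sub_cancel] at h2
    have np1 : ¬ (A.p : ℤ) ∣ 1 := by
      intro h; have := Int.le_of_dvd (by norm_num) h; omega
    have hNd : (A.cfg 0).N = (A.p : ℤ) * A.q := rfl
    have hWd : (A.cfg 0).W = A.q * A.w := rfl
    constructor
    · have j := ph_jump hN (a := 0) A.D_nonneg (by have := A.D_W; have := (A.cfg 0).W_pos; omega)
        (A.q * m + f + 1)
      rw [add_sub_cancel_right] at j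
      rw [dv_not, dv_not] at j
      · omega
      · intro h
        apply np1
        have h1 := (A.p_N 0).trans h
        have h2 := dvd_sub (dvd_add h1 hD) hu
        rwa [show A.q * m + f + 1 - 0 - A.D + A.D - (A.q * m + f) = 1 by ring] at h2
      · intro h
        apply np1
        have h1 := (A.p_N 0).trans h
        have h2 := dvd_sub h1 hu
        rwa [show A.q * m + f + 1 - 0 - (A.q * m + f) = 1 by ring] at h2
    · have j := ph_jump hN (a := (A.cfg 0).W) A.D_nonneg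
        (by have := A.D_W; have := (A.cfg 0).W_pos; omega) (A.q * m + f + 1)
      rw [add_sub_cancel_right] at j
      rw [dv_not, dv_not] at j
      · omega
      · -- right wall of class `p`
        intro h
        have e1 := cr.2.2.2.2.1
        obtain ⟨z1, hz1⟩ := h
        obtain ⟨z2, hz2⟩ := e1
        obtain ⟨z3, hz3⟩ := A.hd
        refine A.gen (A.p - jr) (by have := cr.2.1; omega)
          (by have := cr.1; have := cr.2.1; rw [abs_le]; constructor <;> omega) ?_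
        rw [hWd, hNd] at hz1
        unfold D at hz1
        rw [h3] at hz2
        exact ⟨A.p * (z3 - z2 - z1), by linear_combination hz3 - hz2 - hz1⟩
      · -- right wall of class `0`
        intro h
        have e1 := cr.2.2.2.2.1
        obtain ⟨z1, hz1⟩ := h
        obtain ⟨z2, hz2⟩ := e1
        refine not_dvd_ai (A := A) cr.1 cr.2.1.le ?_
        rw [hWd, hNd] at hz1
        rw [h3] at hz2
        exact ⟨A.p * (z2 + z1), by linear_combination hz2 + hz1⟩

/-- levels at a merged line -/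
theorem merged_level {jl jr i m f s s' mb fb k r : ℤ} (cl : A.Cls jl m f s)
    (cr : A.Cls jr (m - A.w) (f - A.sg) s') (hb0 : 0 < fb) (hb1 : fb < A.q) (hb2 : fb ≠ f)
    (hb3 : fb ≠ f - A.sg) (hr : r = mb - m + (if f < fb then 1 else 0)) :
    (A.q * (r - 1) < A.q * mb + fb - (A.q * m + f) ∧
      A.q * mb + fb - (A.q * m + f) < A.q * r) ∧
    (A.q * (r - 1) < A.q * mb + fb - (A.q * m + f - A.sg) ∧
      A.q * mb + fb - (A.q * m + f - A.sg) < A.q * r) := by
  have l1 := level (q := (A.q : ℤ)) hb0 hb1 cl.2.2.1 cl.2.2.2.1 hr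
  have hr' : r = mb - m + (if f - A.sg < fb then 1 else 0) := by
    rw [hr]
    congr 1
    rcases A.hsg with h | h <;> rw [h] at hb3 ⊢ <;> split_ifs <;> omega
  have l2 := level (q := (A.q : ℤ)) hb0 hb1 cr.2.2.1 cr.2.2.2.1 hr'
  have e2 : A.q * mb + fb - (A.q * m + (f - A.sg)) = A.q * mb + fb - (A.q * m + f - A.sg) := by
    ring
  rw [e2] at l2
  have key : ∀ x y : ℤ, A.q * mb + fb - (A.q * m + x) = A.q * r → 0 < x → x < A.q → fb = x := by
    intro x _ h h0 h1
    have h2 : (A.q : ℤ) * (mb - m - r) = x - fb := by linear_combination h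
    have h3 : mb - m - r = 0 := by
      by_contra hc
      rcases lt_or_gt_of_ne hc with h4 | h4
      · have : mb - m - r ≤ -1 := by omega
        nlinarith
      · have : 1 ≤ mb - m - r := by omega
        nlinarith
    rw [h3, mul_zero] at h2
    omega
  refine ⟨⟨l1.1, lt_of_le_of_ne l1.2 ?_⟩, ⟨l2.1, lt_of_le_of_ne l2.2 ?_⟩⟩
  · intro h
    exact hb2 (key f 0 h cl.2.2.1 cl.2.2.2.1)
  · intro h
    exact hb3 (key (f - A.sg) 0 (by rw [← h]; ring) cr.2.2.1 cr.2.2.2.1)

theorem merged_diag {jl m f s v r : ℤ} (cl : A.Cls jl m f s)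
    (h1 : A.q * (r - 1) < v - (A.q * m + f) ∧ v - (A.q * m + f) < A.q * r)
    (h2 : A.q * (r - 1) < v - (A.q * m + f - A.sg) ∧ v - (A.q * m + f - A.sg) < A.q * r) :
    ∃ t, (A.cfg 0).N ∣ v - (A.q * m + f - A.k0 + 2) - t ∧ A.q * (r - 1) ≤ t ∧ t ≤ A.q * r := by
  refine ⟨v - (A.q * m + f - A.k0 + 2), by simp, ?_⟩
  rcases A.k0_cases with ⟨h3, h3'⟩ | ⟨h3, h3'⟩ <;> rw [h3'] <;> rw [h3] at h2 <;>
    constructor <;> omega

/-- membership of a level in the arc of a vertical wall, at a general height -/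
theorem lv_ver' {C : Cfg} {j c J e b r : ℤ} (hV : Pool.Agent.H67.Flat.VW C j c J e)
    (h2 : C.q * (r - 1) < b - c) (h3 : b - c < C.q * r) :
    lv C.p J C.h r = C.ver j b := by
  have hN := C.N_pos
  have hq0 : (0 : ℤ) < C.q := by exact_mod_cast C.hq
  have hp' : (0 : ℤ) < C.p := by exact_mod_cast C.p_pos
  have hNe : C.N = C.q * C.p := by unfold Cfg.N; ring
  have hHe : C.H = C.q * C.h := rfl
  -- `b - (V j - H) = (b - c) + H - q J` mod `N`
  have key : C.N ∣ (b - (C.V j - C.H)) - ((b - c) + C.H - C.q * J) := by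
    rcases hV with ⟨_, hc, hJ⟩ | ⟨_, hc, hJ⟩
    · rw [hJ]
      rwa [show b - (C.V j - C.H) - (b - c + C.H - C.q * j) = c - C.U j by
        unfold Cfg.V; ring]
    · rw [hJ]
      rwa [show b - (C.V j - C.H) - (b - c + C.H - C.q * (j - C.w)) = c - (C.U j + C.W) by
        unfold Cfg.V Cfg.W; ring]
  unfold Cfg.ver ph
  rw [emod_congr key]
  have x0 := Int.emod_nonneg (J - r) hp'.ne'
  have x1 := Int.emod_lt_of_pos (J - r) hp'
  have xe := Int.mul_ediv_add_emod (J - r) C.p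
  unfold lv
  set x := (J - r) % (C.p : ℤ)
  set z := (J - r) / (C.p : ℤ)
  set y := C.q * r - (b - c) with hy
  have y0 : 0 < y := by omega
  have y1 : y < C.q := by nlinarith
  have e1 : b - c + C.H - C.q * J = (C.H - y - C.q * x) + C.N * (-z) := by
    rw [hNe]
    linear_combination (C.q : ℤ) * xe - hy
  rw [e1, Int.add_mul_emod_self_left]
  have qx0 : 0 ≤ C.q * x := by positivity
  have qx1 : C.q * x + C.q ≤ C.N := by rw [hNe]; nlinarith
  have hHN := C.H_lt
  have hH0 := C.H_pos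
  by_cases cx : x < C.h
  · have : C.q * x + C.q ≤ C.H := by rw [hHe]; nlinarith
    rw [if_pos cx, Int.emod_eq_of_lt (by omega) (by omega), if_pos]
    omega
  · have : C.H ≤ C.q * x := by rw [hHe]; nlinarith
    have : (C.H - y - C.q * x) % C.N = C.H - y - C.q * x + C.N := by
      refine ((Int.ediv_emod_unique (q := -1) hN).2 ⟨?_, by omega, by omega⟩).2
      rw [mul_neg]; omega
    rw [if_neg cx, this, if_neg (by omega)]

/-- the charge of a merged line in terms of levels -/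
theorem kap_eq {jl jr m f s s' v r : ℤ} (cl : A.Cls jl m f s)
    (cr : A.Cls jr (m - A.w) (f - A.sg) s')
    (h1 : A.q * (r - 1) < v - (A.q * m + f) ∧ v - (A.q * m + f) < A.q * r)
    (h2 : A.q * (r - 1) < v - (A.q * m + f - A.sg) ∧ v - (A.q * m + f - A.sg) < A.q * r) (Y : ℤ) :
    kap (A.cfg 0) s s' v Y = A.chi s s' r - A.chi s s' Y := by
  have hh := A.hh
  have hh2 := A.h2
  have hh0 : (0 : ℤ) < A.h := by omega
  have hhp : (A.h : ℤ) ≤ A.p := by omega
  have hl : Pool.Agent.H67.Flat.VW (A.cfg 0) s (A.q * m + f) s 1 := by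
    refine Or.inl ⟨rfl, ?_, rfl⟩
    rw [← dvd_neg, neg_sub]; exact cl.U0
  have hr : Pool.Agent.H67.Flat.VW (A.cfg 0) s' (A.q * m + f - A.sg) (s' - A.w) (-1) := by
    refine Or.inr ⟨rfl, ?_, rfl⟩
    rw [← dvd_neg]
    have hW : (A.cfg 0).W = A.q * A.w := rfl
    rw [hW]
    have := cr.U0
    rwa [show -(A.q * m + f - A.sg - ((A.cfg 0).U s' + A.q * A.w))
      = (A.cfg 0).U s' - (A.q * (m - A.w) + (f - A.sg)) by ring]
  have e1 := lv_ver' hl h1.1 h1.2
  have e2 := lv_ver' hr h2.1 h2.2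
  change lv A.p s A.h r = _ at e1
  change lv A.p (s' - A.w) A.h r = _ at e2
  unfold kap chi
  rw [InA_if hh0 hhp, InA_if hh0 hhp, InA_if hh0 hhp, InA_if hh0 hhp, e1, e2]
  change _ - lv A.p s A.h Y - (_ - lv A.p (s' - A.w) A.h Y) = _
  ring

/-- **rule (E0)** for a merged line (left wall of class `jl` at `(m, f)`, right wall of class `jr`)
and a horizontal wall `b = (mb, fb)` of a third class `i`, rows `(k-w, k]`; `r` the level of
`b - c`; `κ = χ(r) - χ(Y)`.
If `κ = ± 1` and `Y` is separated from `r` by the arc of `b` then `Φ(Y) = Φ(r)`.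
If `κ = ± 2` then the arc of `b` does not separate `Y` and `r`, and `Φ(Y) = Φ(r)`. -/
theorem E0m (F : A.Fl) {jl jr i m f s s' mb fb k r : ℤ} (cl : A.Cls jl m f s)
    (cr : A.Cls jr (m - A.w) (f - A.sg) s') (hi : A.HW i mb fb k) (hil : i ≠ jl) (hir : i ≠ jr)
    (hr : r = mb - m + (if f < fb then 1 else 0)) (Y : ℤ) :
    ((A.chi s s' r - A.chi s s' Y = 1 ∨ A.chi s s' r - A.chi s s' Y = -1) →
      (InA A.p Y (k - A.w) A.w ↔ ¬ InA A.p r (k - A.w) A.w) →
      A.Phi m f mb fb Y = A.Phi m f mb fb r) ∧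
    ((A.chi s s' r - A.chi s s' Y = 2 ∨ A.chi s s' r - A.chi s s' Y = -2) →
      (InA A.p Y (k - A.w) A.w ↔ InA A.p r (k - A.w) A.w) ∧
      A.Phi m f mb fb Y = A.Phi m f mb fb r) := by
  have P1 := A.h2
  have w2 := A.w2
  have hw := A.hw
  have hh := A.hh
  obtain ⟨si, eH, si0, ei, i0, i1, fb0, fb1, hH⟩ := hi.data
  have rl : ¬ (A.p : ℤ) ∣ s - si := by
    intro h
    apply hil
    apply idx_inj (A := A)
    · have := dvd_sub (dvd_sub ei cl.2.2.2.2.2) h
      rwa [show A.e * i - si - (A.e * jl - s) - (s - si) = A.e * i - A.e * jl by ring] at this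
    · have := cl.1; omega
    · have := cl.2.1; omega
  have rr : ¬ (A.p : ℤ) ∣ s' - si := by
    intro h
    apply hir
    apply idx_inj (A := A)
    · have := dvd_sub (dvd_sub ei cr.2.2.2.2.2) h
      rwa [show A.e * i - si - (A.e * jr - s') - (s' - si) = A.e * i - A.e * jr by ring] at this
    · have := cr.1; omega
    · have := cr.2.1; omega
  obtain ⟨mi, ssi, ci, hci⟩ := id hi
  have fl : fb ≠ f := fun h => by
    have := Cls.f_ne ci cl hil
    exact this h
  have fr : fb ≠ f - A.sg := fun h => by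
    have := Cls.f_ne ci cr hir
    exact this h
  obtain ⟨l1, l2⟩ := merged_level (i := i) (k := k) cl cr fb0 fb1 fl fr hr
  have M := merged_ML F cl cr
  have dg := merged_diag cl l1 l2
  obtain ⟨p1, p2⟩ := merged_ph cl cr
  have kp := kap_eq cl cr l1 l2 Y
  have hw0 : (0 : ℤ) < A.w := by omega
  have hwp : (A.w : ℤ) ≤ A.p := by omega
  -- the arc of `b`
  have G0 := A.cfg_gen 0
  have lev := level (q := (A.q : ℤ)) fb0 fb1 cl.2.2.1 cl.2.2.2.1 hr
  have hl : (A.cfg 0).N ∣ (A.q * m + f) - (A.cfg 0).U s := M.hl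
  have n3 : ¬ (A.cfg 0).N ∣ A.q * m + f - (A.cfg 0).U si := by
    intro h
    apply rl
    apply G0.UU
    have := dvd_sub h hl
    rwa [sub_sub_sub_cancel_left] at this
  have n4 : ¬ (A.cfg 0).N ∣ A.q * m + f - ((A.cfg 0).U si + (A.cfg 0).W) := by
    intro h
    apply G0.UW s si
    have := dvd_sub h hl
    rwa [show A.q * m + f - ((A.cfg 0).U si + (A.cfg 0).W) - (A.q * m + f - (A.cfg 0).U s)
      = (A.cfg 0).U s - ((A.cfg 0).U si + (A.cfg 0).W) by ring] at this
  have L2 := lv_hor (r := r) (s := A.q * mb + fb - (A.q * m + f)) hH n3 n4 (by simp) lev.1 lev.2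
  have L2' : lv A.p k A.w r = (A.cfg 0).hor si (A.q * m + f) := L2
  have main := E0M (C := A.cfg 0) (d := A.D) A.U00 A.D_nonneg A.D_W A.D_H G0 A.G1 M si0 rl rr hH
    dg (Y := Y)
  have main2 := fun hk => E0V (C := A.cfg 0) (d := A.D) A.U00 A.D_nonneg A.D_W A.D_H G0 A.G1 M
    (v := A.q * mb + fb) dg (Y := Y) hk
  rw [kp, dict A p1 p2, dict A p1 p2] at main2
  rw [kp, dict A p1 p2, dict A p1 p2] at main
  rw [Ap.InA_lv hw0 hwp, Ap.InA_lv hw0 hwp]
  rw [L2'] at *
  constructor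
  · intro hk ha
    refine main.1 hk ?_
    intro he
    change (A.cfg 0).hor si (A.q * m + f) = lv A.p k A.w Y at he
    rw [← he] at ha
    tauto
  · intro hk
    have h1 := main.2 hk
    change (A.cfg 0).hor si (A.q * m + f) = lv A.p k A.w Y at h1
    exact ⟨by rw [← h1], main2 hk⟩

/-- **rule (E0)** for a merged line with charge `κ = ± 2` at any height `(mv, fv)` -/
theorem E0v (F : A.Fl) {jl jr m f s s' mv fv r : ℤ} (cl : A.Cls jl m f s)
    (cr : A.Cls jr (m - A.w) (f - A.sg) s') (fv0 : 0 < fv) (fv1 : fv < A.q) (hl : fv ≠ f)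
    (hr' : fv ≠ f - A.sg)
    (hr : r = mv - m + (if f < fv then 1 else 0)) (Y : ℤ)
    (hk : A.chi s s' r - A.chi s s' Y = 2 ∨ A.chi s s' r - A.chi s s' Y = -2) :
    A.Phi m f mv fv Y = A.Phi m f mv fv r := by
  obtain ⟨l1, l2⟩ := merged_level (i := 0) (k := 0) cl cr fv0 fv1 hl hr' hr
  have M := merged_ML F cl cr
  have dg := merged_diag cl l1 l2
  obtain ⟨p1, p2⟩ := merged_ph cl cr
  have kp := kap_eq cl cr l1 l2 Y
  have main2 := E0V (C := A.cfg 0) (d := A.D) A.U00 A.D_nonneg A.D_W A.D_H (A.cfg_gen 0) A.G1 M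
    (v := A.q * mv + fv) dg (Y := Y) (by rw [kp]; exact hk)
  rwa [dict A p1 p2, dict A p1 p2] at main2

end TAp

end Pool.Agent.H78.Tie
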