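import Pool.Agent.H78.Tie.Basic

/-!
# Crossing lemmas and the two window rule when only some columns are bounded
-/

namespace Pool.Agent.H78.Tie

open Finset
open Pool.Agent.H98.Flat
open Pool.Agent.H67.Flat

/-- no vertical wall at `x` -/
def NoWall (C : Cfg) (x : ℤ) : Prop := ∀ k, ¬ C.N ∣ x - C.U k ∧ ¬ C.N ∣ x - (C.U k + C.W)

theorem Fq_step {C : Cfg} {x : ℤ} (hx : NoWall C x) (Y v : ℤ) :
    Fq C Y x v = Fq C Y (x - 1) v := by
  have hR := R_jump_u C x v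
  have hg := C.g_jump Y x
  have a1 : ∑ k ∈ range C.p, dv C.N (x - C.U k) * C.ver k v = 0 :=
    Finset.sum_eq_zero fun k _ => by rw [dv_not (hx k).1, zero_mul]
  have a2 : ∑ k ∈ range C.p, dv C.N (x - (C.U k + C.W)) * C.ver k v = 0 :=
    Finset.sum_eq_zero fun k _ => by rw [dv_not (hx k).2, zero_mul]
  have a3 : ∑ i ∈ range C.h, dv C.N (x - C.U (Y + i)) = 0 :=
    Finset.sum_eq_zero fun k _ => dv_not (hx _).1
  have a4 : ∑ i ∈ range C.h, dv C.N (x - (C.U (Y + C.w + i) + C.W)) = 0 :=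
    Finset.sum_eq_zero fun k _ => dv_not (hx _).2
  unfold Fq
  omega

/-- the crossing lemma: at an active level the value is determined by the signs -/
theorem crossB {C : Cfg} (G : C.Gen) {j c J e i b K e' : ℤ}
    (hB : ∀ v Y, |Fq C Y c v| ≤ 1) (hB' : ∀ v Y, |Fq C Y (c - 1) v| ≤ 1)
    (hij : ¬ (C.p : ℤ) ∣ j - i)
    (hV : VW C j c J e) (hH : HW C i b K e') {Y : ℤ}
    (h1 : C.ver j b ≠ lv C.p J C.h Y) (h2 : C.hor i c ≠ lv C.p K C.w Y) :
    2 * Fq C Y c b = e * (C.ver j b - lv C.p J C.h Y) + e' * (C.hor i c - lv C.p K C.w Y) := by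
  have v1 : C.ver j (b - 1) = C.ver j b := by
    have := ph_jump C.N_pos (a := C.V j - C.H) C.H_pos.le C.H_lt.le b
    unfold Cfg.ver
    have n1 : ¬ C.N ∣ b - (C.V j - C.H) := by
      intro h
      rcases hH with ⟨_, hb, _⟩ | ⟨_, hb, _⟩
      · apply G.VH i j
        have := dvd_sub h hb
        rwa [sub_sub_sub_cancel_left] at this
      · apply hij
        apply G.VV
        have := dvd_sub hb h
        rwa [show b - (C.V i - C.H) - (b - (C.V j - C.H)) = C.V j - C.V i by ring] at this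
    have n2 : ¬ C.N ∣ b - (C.V j - C.H) - C.H := by
      rw [show b - (C.V j - C.H) - C.H = b - C.V j by ring]
      intro h
      rcases hH with ⟨_, hb, _⟩ | ⟨_, hb, _⟩
      · apply hij
        apply G.VV
        have := dvd_sub hb h
        rwa [sub_sub_sub_cancel_left] at this
      · apply G.VH j i
        have := dvd_sub hb h
        rwa [sub_sub_sub_cancel_left] at this
    rw [dv_not n1, dv_not n2] at this
    omega
  have v2 : C.hor i (c - 1) = C.hor i c := by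
    have := ph_jump C.N_pos (a := C.U i) C.W_pos.le C.W_lt.le c
    unfold Cfg.hor
    have n1 : ¬ C.N ∣ c - C.U i := by
      intro h
      rcases hV with ⟨_, hb, _⟩ | ⟨_, hb, _⟩
      · apply hij
        apply G.UU
        have := dvd_sub h hb
        rwa [sub_sub_sub_cancel_left] at this
      · apply G.UW i j
        have := dvd_sub hb h
        rwa [sub_sub_sub_cancel_left] at this
    have n2 : ¬ C.N ∣ c - C.U i - C.W := by
      rw [sub_sub]
      intro h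
      rcases hV with ⟨_, hb, _⟩ | ⟨_, hb, _⟩
      · apply G.UW j i
        have := dvd_sub h hb
        rwa [sub_sub_sub_cancel_left] at this
      · apply hij
        apply G.UU
        have := dvd_sub h hb
        rwa [show c - (C.U i + C.W) - (c - (C.U j + C.W)) = C.U j - C.U i by ring] at this
    rw [dv_not n1, dv_not n2] at this
    omega
  have j1 := vjump G hV Y b
  have j2 := vjump G hV Y (b - 1)
  have j3 := hjump G hH Y c
  rw [v1] at j2
  have f1 := abs_le.1 (hB b Y)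
  have f2 := abs_le.1 (hB' b Y)
  have f3 := abs_le.1 (hB (b - 1) Y)
  have f4 := abs_le.1 (hB' (b - 1) Y)
  have e1 : e = 1 ∨ e = -1 := by rcases hV with ⟨h, _⟩ | ⟨h, _⟩ <;> simp [h]
  have e2 : e' = 1 ∨ e' = -1 := by rcases hH with ⟨h, _⟩ | ⟨h, _⟩ <;> simp [h]
  rcases C.ver01 j b with a1 | a1 <;> rcases lv01 C.p J C.h Y with a2 | a2 <;>
    rcases C.hor01 i c with a3 | a3 <;> rcases lv01 C.p K C.w Y with a4 | a4 <;>
    rw [a1, a2] at h1 j1 j2 <;> rw [a3, a4] at h2 j3 <;> rw [a1, a2, a3, a4] <;>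
    first
    | exact absurd rfl h1
    | exact absurd rfl h2
    | (rcases e1 with rfl | rfl <;> rcases e2 with rfl | rfl <;> omega)

/-- equality of `F` in both windows gives the rule -/
theorem rule_of_eq {C : Cfg} {d : ℤ} (h0 : C.U 0 = 0) (hd : 0 ≤ d) (hW : d + C.W < C.N)
    (hH : d + C.H < C.N) {c b r Y : ℤ}
    (hr : ∃ s, C.N ∣ b - c - s ∧ C.q * (r - 1) ≤ s ∧ s ≤ C.q * r)
    (c3 : Fq C Y c b = Fq (mv C d) Y c b) :
    PHI C d c b Y = PHI C d c b r := by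
  have z1 := Fq_diag (C := C) hr
  have z2 := Fq_diag (C := mv C d) (r := r) (c := c) (b := b) hr
  have k1 := const_eq C h0 hd hW hH Y
  have k2 := const_eq C h0 hd hW hH r
  have g1 := dg_form C h0 hd hW Y c
  have g2 := dg_form C h0 hd hW r c
  have f1 := df_form C h0 hd hH Y b
  have f2 := df_form C h0 hd hH r b
  unfold Fq at c3 z1 z2
  unfold PHI
  linear_combination c3 - z1 + z2 + g1 - g2 - f1 + f2 + k1 - k2

/-- **E0**: the two window rule, bounds only in the two columns next to the wall -/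
theorem E0B {C : Cfg} {d : ℤ} (h0 : C.U 0 = 0) (hd : 0 ≤ d) (hW : d + C.W < C.N)
    (hH : d + C.H < C.N) (G : C.Gen) (G' : (mv C d).Gen) {j c J e i b K e' : ℤ}
    (B1 : ∀ v Y, |Fq C Y c v| ≤ 1) (B2 : ∀ v Y, |Fq C Y (c - 1) v| ≤ 1)
    (B1' : ∀ v Y, |Fq (mv C d) Y c v| ≤ 1) (B2' : ∀ v Y, |Fq (mv C d) Y (c - 1) v| ≤ 1)
    (hj : ¬ (C.p : ℤ) ∣ j) (hi : ¬ (C.p : ℤ) ∣ i) (hij : ¬ (C.p : ℤ) ∣ j - i)
    (hV : VW C j c J e) (hHw : HW C i b K e')
    {r : ℤ} (hr : ∃ s, C.N ∣ b - c - s ∧ C.q * (r - 1) ≤ s ∧ s ≤ C.q * r)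
    {Y : ℤ} (h1 : C.ver j b ≠ lv C.p J C.h Y) (h2 : C.hor i c ≠ lv C.p K C.w Y) :
    PHI C d c b Y = PHI C d c b r := by
  have hV' : VW (mv C d) j c J e := by
    unfold VW
    rw [mv_U C d j hj]
    exact hV
  have hH' : HW (mv C d) i b K e' := by
    unfold HW
    rw [mv_V C d i hi]
    exact hHw
  have v' : (mv C d).ver j b = C.ver j b := by
    unfold Cfg.ver; rw [mv_V C d j hj]; rfl
  have o' : (mv C d).hor i c = C.hor i c := by
    unfold Cfg.hor; rw [mv_U C d i hi]; rfl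
  have c1 := crossB G B1 B2 hij hV hHw h1 h2
  have c2 := crossB (C := mv C d) G' B1' B2' hij hV' hH' (Y := Y) (by rw [v']; exact h1)
    (by rw [o']; exact h2)
  rw [v', o'] at c2
  change _ = e * (C.ver j b - lv C.p J C.h Y) + e' * (C.hor i c - lv C.p K C.w Y) at c2
  exact rule_of_eq h0 hd hW hH hr (by omega)

/-- the jump over a merged line -/
theorem vjump2 {C : Cfg} (G : C.Gen) {u jl jr cl cr : ℤ} (hl : C.N ∣ cl - C.U jl)
    (hr : C.N ∣ cr - (C.U jr + C.W))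
    (hc : (cl = u + 1 ∧ cr = u + 2) ∨ (cl = u + 2 ∧ cr = u + 1)) (Y v : ℤ) :
    Fq C Y (u + 2) v - Fq C Y u v = (C.ver jl v - lv C.p jl C.h Y)
      - (C.ver jr v - lv C.p (jr - C.w) C.h Y) := by
  have j1 := vjump G (J := jl) (e := 1) (Or.inl ⟨rfl, hl, rfl⟩) Y v
  have j2 := vjump G (J := jr - C.w) (e := -1) (Or.inr ⟨rfl, hr, rfl⟩) Y v
  rcases hc with ⟨rfl, rfl⟩ | ⟨rfl, rfl⟩
  · rw [show u + 1 - 1 = u by ring] at j1
    rw [show u + 2 - 1 = u + 1 by ring] at j2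
    omega
  · rw [show u + 2 - 1 = u + 1 by ring] at j1
    rw [show u + 1 - 1 = u by ring] at j2
    omega

/-- a merged line: `u` and `u + 2` are bounded in both windows -/
structure ML (C : Cfg) (d u jl jr cl cr : ℤ) : Prop where
  hl : C.N ∣ cl - C.U jl
  hr : C.N ∣ cr - (C.U jr + C.W)
  hc : (cl = u + 1 ∧ cr = u + 2) ∨ (cl = u + 2 ∧ cr = u + 1)
  jl0 : ¬ (C.p : ℤ) ∣ jl
  jr0 : ¬ (C.p : ℤ) ∣ jr
  B1 : ∀ v Y, |Fq C Y u v| ≤ 1
  B2 : ∀ v Y, |Fq C Y (u + 2) v| ≤ 1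
  B1' : ∀ v Y, |Fq (mv C d) Y u v| ≤ 1
  B2' : ∀ v Y, |Fq (mv C d) Y (u + 2) v| ≤ 1

/-- the charge of a merged line -/
def kap (C : Cfg) (jl jr v Y : ℤ) : ℤ :=
  (C.ver jl v - lv C.p jl C.h Y) - (C.ver jr v - lv C.p (jr - C.w) C.h Y)

theorem ML.jump {C : Cfg} (G : C.Gen) {d u jl jr cl cr : ℤ} (M : ML C d u jl jr cl cr)
    (Y v : ℤ) : Fq C Y (u + 2) v - Fq C Y u v = kap C jl jr v Y :=
  vjump2 G M.hl M.hr M.hc Y v

theorem mv_kap (C : Cfg) {d jl jr : ℤ} (jl0 : ¬ (C.p : ℤ) ∣ jl) (jr0 : ¬ (C.p : ℤ) ∣ jr)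
    (v Y : ℤ) : kap (mv C d) jl jr v Y = kap C jl jr v Y := by
  have v1 : (mv C d).ver jl v = C.ver jl v := by
    unfold Cfg.ver; rw [mv_V C d jl jl0]; rfl
  have v2 : (mv C d).ver jr v = C.ver jr v := by
    unfold Cfg.ver; rw [mv_V C d jr jr0]; rfl
  unfold kap
  rw [v1, v2]
  rfl

theorem ML.jump' {C : Cfg} {d : ℤ} (G' : (mv C d).Gen) {u jl jr cl cr : ℤ}
    (M : ML C d u jl jr cl cr)
    (Y v : ℤ) : Fq (mv C d) Y (u + 2) v - Fq (mv C d) Y u v = kap C jl jr v Y := by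
  rw [← mv_kap C M.jl0 M.jr0 (d := d)]
  refine vjump2 G' ?_ ?_ M.hc Y v
  · rw [mv_U C d jl M.jl0]; exact M.hl
  · rw [mv_U C d jr M.jr0]; exact M.hr

/-- **E0** on a merged line with charge `± 2`, at any height -/
theorem E0V {C : Cfg} {d : ℤ} (h0 : C.U 0 = 0) (hd : 0 ≤ d) (hW : d + C.W < C.N)
    (hH : d + C.H < C.N) (G : C.Gen) (G' : (mv C d).Gen) {u jl jr cl cr : ℤ}
    (M : ML C d u jl jr cl cr) {v r : ℤ}
    (hr : ∃ s, C.N ∣ v - (u + 2) - s ∧ C.q * (r - 1) ≤ s ∧ s ≤ C.q * r)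
    {Y : ℤ} (hk : kap C jl jr v Y = 2 ∨ kap C jl jr v Y = -2) :
    PHI C d (u + 2) v Y = PHI C d (u + 2) v r := by
  have j1 := M.jump G Y v
  have j2 := M.jump' G' Y v
  have b1 := abs_le.1 (M.B1 v Y)
  have b2 := abs_le.1 (M.B2 v Y)
  have b3 := abs_le.1 (M.B1' v Y)
  have b4 := abs_le.1 (M.B2' v Y)
  refine rule_of_eq h0 hd hW hH hr ?_
  rcases hk with hk | hk <;> rw [hk] at j1 j2 <;> omega

/-- the functions of the crossing do not jump at a horizontal wall of another class -/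
theorem ver_pred {C : Cfg} (G : C.Gen) {j i b K e' : ℤ} (hij : ¬ (C.p : ℤ) ∣ j - i)
    (hH : HW C i b K e') : C.ver j (b - 1) = C.ver j b := by
  have := ph_jump C.N_pos (a := C.V j - C.H) C.H_pos.le C.H_lt.le b
  unfold Cfg.ver
  have n1 : ¬ C.N ∣ b - (C.V j - C.H) := by
    intro h
    rcases hH with ⟨_, hb, _⟩ | ⟨_, hb, _⟩
    · apply G.VH i j
      have := dvd_sub h hb
      rwa [sub_sub_sub_cancel_left] at this
    · apply hij
      apply G.VV
      have := dvd_sub hb h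
      rwa [show b - (C.V i - C.H) - (b - (C.V j - C.H)) = C.V j - C.V i by ring] at this
  have n2 : ¬ C.N ∣ b - (C.V j - C.H) - C.H := by
    rw [show b - (C.V j - C.H) - C.H = b - C.V j by ring]
    intro h
    rcases hH with ⟨_, hb, _⟩ | ⟨_, hb, _⟩
    · apply hij
      apply G.VV
      have := dvd_sub hb h
      rwa [sub_sub_sub_cancel_left] at this
    · apply G.VH j i
      have := dvd_sub hb h
      rwa [sub_sub_sub_cancel_left] at this
  rw [dv_not n1, dv_not n2] at this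
  omega

theorem hor_pred {C : Cfg} {i c : ℤ} (n1 : ¬ C.N ∣ c - C.U i) (n2 : ¬ C.N ∣ c - (C.U i + C.W)) :
    C.hor i (c - 1) = C.hor i c := by
  have := ph_jump C.N_pos (a := C.U i) C.W_pos.le C.W_lt.le c
  unfold Cfg.hor
  rw [dv_not n1, dv_not (by rwa [sub_sub])] at this
  omega

theorem ML.hor_eq {C : Cfg} (G : C.Gen) {d u jl jr cl cr : ℤ} (M : ML C d u jl jr cl cr) {i : ℤ}
    (hil : ¬ (C.p : ℤ) ∣ jl - i) (hir : ¬ (C.p : ℤ) ∣ jr - i) :
    C.hor i (u + 2) = C.hor i u ∧ C.hor i (u + 2) = C.hor i cl := by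
  have e1 : C.hor i (cl - 1) = C.hor i cl := by
    apply hor_pred
    · intro h
      apply hil
      apply G.UU
      have := dvd_sub h M.hl
      rwa [sub_sub_sub_cancel_left] at this
    · intro h
      apply G.UW jl i
      have := dvd_sub h M.hl
      rwa [show cl - (C.U i + C.W) - (cl - C.U jl) = C.U jl - (C.U i + C.W) by ring] at this
  have e2 : C.hor i (cr - 1) = C.hor i cr := by
    apply hor_pred
    · intro h
      apply G.UW i jr
      have := dvd_sub M.hr h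
      rwa [show cr - (C.U jr + C.W) - (cr - C.U i) = C.U i - (C.U jr + C.W) by ring] at this
    · intro h
      apply hir
      apply G.UU
      have := dvd_sub h M.hr
      rwa [show cr - (C.U i + C.W) - (cr - (C.U jr + C.W)) = C.U jr - C.U i by ring] at this
  rcases M.hc with ⟨h1, h2⟩ | ⟨h1, h2⟩
  · rw [h1, show u + 1 - 1 = u by ring] at e1
    rw [h2, show u + 2 - 1 = u + 1 by ring] at e2
    rw [h1]
    exact ⟨by rw [← e2, ← e1], by rw [← e2]⟩
  · rw [h1, show u + 2 - 1 = u + 1 by ring] at e1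
    rw [h2, show u + 1 - 1 = u by ring] at e2
    rw [h1]
    exact ⟨by rw [← e1, ← e2], rfl⟩

/-- **E0** on a merged line, crossed by a horizontal wall of a third class -/
theorem E0M {C : Cfg} {d : ℤ} (h0 : C.U 0 = 0) (hd : 0 ≤ d) (hW : d + C.W < C.N)
    (hH : d + C.H < C.N) (G : C.Gen) (G' : (mv C d).Gen) {u jl jr cl cr i b K e' : ℤ}
    (M : ML C d u jl jr cl cr)
    (hi : ¬ (C.p : ℤ) ∣ i) (hil : ¬ (C.p : ℤ) ∣ jl - i) (hir : ¬ (C.p : ℤ) ∣ jr - i)
    (hHw : HW C i b K e')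
    {r : ℤ} (hr : ∃ s, C.N ∣ b - (u + 2) - s ∧ C.q * (r - 1) ≤ s ∧ s ≤ C.q * r) {Y : ℤ} :
    ((kap C jl jr b Y = 1 ∨ kap C jl jr b Y = -1) → C.hor i cl ≠ lv C.p K C.w Y →
      PHI C d (u + 2) b Y = PHI C d (u + 2) b r) ∧
    ((kap C jl jr b Y = 2 ∨ kap C jl jr b Y = -2) → C.hor i cl = lv C.p K C.w Y) := by
  obtain ⟨m1, m2⟩ := M.hor_eq G hil hir
  have v1 := ver_pred G hil hHw
  have v2 := ver_pred G hir hHw
  have hH' : HW (mv C d) i b K e' := by
    unfold HW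
    rw [mv_V C d i hi]
    exact hHw
  have o' : ∀ x, (mv C d).hor i x = C.hor i x := by
    intro x
    unfold Cfg.hor; rw [mv_U C d i hi]; rfl
  have kp : kap C jl jr (b - 1) Y = kap C jl jr b Y := by
    unfold kap; rw [v1, v2]
  have j1 := M.jump G Y b
  have j2 := M.jump G Y (b - 1)
  have j3 := M.jump' G' Y b
  have j4 := M.jump' G' Y (b - 1)
  rw [kp] at j2 j4
  have k1 := hjump G hHw Y (u + 2)
  have k2 := hjump G hHw Y u
  have k3 := hjump G' hH' Y (u + 2)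
  have k4 := hjump G' hH' Y u
  rw [o'] at k3 k4
  change _ = e' * (_ - lv C.p K C.w Y) at k3 k4
  rw [m2] at k1 k3
  rw [← m1, m2] at k2 k4
  have e2 : e' = 1 ∨ e' = -1 := by rcases hHw with ⟨h, _⟩ | ⟨h, _⟩ <;> simp [h]
  have b1 := abs_le.1 (M.B1 b Y)
  have b2 := abs_le.1 (M.B2 b Y)
  have b3 := abs_le.1 (M.B1' b Y)
  have b4 := abs_le.1 (M.B2' b Y)
  have b5 := abs_le.1 (M.B1 (b - 1) Y)
  have b6 := abs_le.1 (M.B2 (b - 1) Y)
  have b7 := abs_le.1 (M.B1' (b - 1) Y)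
  have b8 := abs_le.1 (M.B2' (b - 1) Y)
  constructor
  · intro hk hne
    refine rule_of_eq h0 hd hW hH hr ?_
    rcases C.hor01 i cl with a3 | a3 <;> rcases lv01 C.p K C.w Y with a4 | a4 <;>
      rw [a3, a4] at hne k1 k2 k3 k4 <;>
      first
      | exact absurd rfl hne
      | (rcases e2 with rfl | rfl <;> rcases hk with hk | hk <;> rw [hk] at j1 j2 j3 j4 <;> omega)
  · intro hk
    rcases C.hor01 i cl with a3 | a3 <;> rcases lv01 C.p K C.w Y with a4 | a4 <;>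
      rw [a3, a4] at k1 k2 ⊢ <;>
      (exfalso; rcases e2 with rfl | rfl <;> rcases hk with hk | hk <;> rw [hk] at j1 j2 <;> omega)

end Pool.Agent.H78.Tie
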