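import Pool.Agent.H98.Flat.O.Basic
import Pool.Agent.H67.Flat.E0b
import Pool.Agent.H67.Flat.ShiftA
import Pool.Agent.H98.Flat.O.E0

/-!
# Arithmetic progressions of rectangles with ties

Integer model of a ternary cyclotomic polynomial: one real unit is `q`, the circle has length
`N = p q`, class `i` has `U_i = a i`, row `e i (mod p)`, `V_i = U_i + q * row`.
All the abscissae `U_i` are multiples of `p` (`p ∣ a`); `q w ≡ -sg (mod p)` with `sg = ±1`
(`sg = -1`: the right walls are `≡ 1`, `sg = 1`: the right walls are `≡ -1 (mod p)`).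
The columns `u` which are *visible* are those with `p ∣ u + k0`, `k0 = 1` (`sg = -1`) or
`k0 = 2` (`sg = 1`).  No relation between `w` and `h` is assumed.
-/

namespace Pool.Agent.H78.Tie

open Finset
open Pool.Agent.H98.Flat

structure TAp where
  p : ℕ
  q : ℕ
  w : ℕ
  h : ℕ
  a : ℤ
  e : ℤ
  e' : ℤ
  md : ℤ
  fd : ℤ
  sg : ℤ
  om : ℤ
  hw : 2 ≤ w
  hh : 2 ≤ h
  w2 : 2 * w < p
  h2 : 2 * h < p
  pq : p < q
  inv : (p : ℤ) ∣ e * e' - 1
  hpa : (p : ℤ) ∣ a
  hqa : IsCoprime (q : ℤ) a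
  hmd : 0 ≤ md
  hmd2 : 2 * md < p
  hfd : 0 < fd
  hfd2 : fd < q
  hd : (p : ℤ) * q ∣ a * p - (q * md + fd)
  hsg : sg = 1 ∨ sg = -1
  hpw : (p : ℤ) ∣ q * w + sg
  hom : om = 1 ∨ om = -1
  hqe : (p : ℤ) ∣ e * q + om * h

namespace TAp

variable (A : TAp)

theorem hq : 0 < A.q := by have := A.hfd; have := A.hfd2; omega
theorem hp : 0 < A.p := by have := A.h2; omega

theorem gen (i : ℤ) (hi : i ≠ 0) (hi' : |i| ≤ A.p) : ¬ (A.q : ℤ) ∣ A.a * i := by
  intro h
  have h1 := A.hqa.dvd_of_dvd_mul_left h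
  apply hi
  refine Int.eq_zero_of_abs_lt_dvd h1 ?_
  have : (A.p : ℤ) < A.q := by exact_mod_cast A.pq
  omega

/-- the window of classes `n, …, n + p - 1`, indexed by rows -/
def cfg (n : ℤ) : Cfg where
  p := A.p
  q := A.q
  w := A.w
  h := A.h
  U := fun k => A.a * (n + (A.e' * k - n) % A.p)
  hq := A.hq
  hw := by have := A.hw; omega
  hh := by have := A.hh; omega
  hwh := by have := A.h2; have := A.w2; omega
  per := by
    intro k
    have : (A.e' * (k + A.p) - n) % (A.p : ℤ) = (A.e' * k - n) % A.p := by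
      apply emod_congr
      exact ⟨A.e', by ring⟩
    show _ ∣ A.a * (n + (A.e' * (k + A.p) - n) % A.p) - A.a * (n + (A.e' * k - n) % A.p)
    rw [this, sub_self]; exact dvd_zero _

/-- offset of the visible columns -/
def k0 : ℤ := if A.sg = 1 then 2 else 1

/-- visible flatness of a window -/
def FlN (n : ℤ) : Prop := ∀ u v y, (A.p : ℤ) ∣ u + A.k0 →
  |(A.cfg n).R u v - (A.cfg n).g y u + (A.cfg n).f y v| ≤ 1

/-- visible flatness (window `0 … p-1`) -/
def Fl : Prop := A.FlN 0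

/-- class `i` has lifts `(m, f, s)`: `U_i ≡ q m + f (mod p q)`, row `≡ s (mod p)` -/
def Cls (i m f s : ℤ) : Prop :=
  0 < i ∧ i < A.p ∧ 0 < f ∧ f < A.q ∧ (A.p : ℤ) * A.q ∣ A.a * i - (A.q * m + f) ∧
    (A.p : ℤ) ∣ A.e * i - s

/-- class `j` has a left wall at position `(mc, f)`; `g = V_j - c`; its rows are `(g-h, g]` -/
def LW (j mc f g : ℤ) : Prop := A.Cls j mc f g

/-- class `j` has a right wall at position `(mc, f)`; `g = V_j - c`; its rows are `(g-h, g]` -/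
def RW (j mc f g : ℤ) : Prop := A.Cls j (mc - A.w) f (g + A.w)

/-- class `i` has a horizontal wall at height `(mb, f)`, with rows `(k-w, k]` -/
def HW (i mb f k : ℤ) : Prop :=
  ∃ m s, A.Cls i m f s ∧ ((mb = m + s ∧ k = s) ∨ (mb = m + s - A.h ∧ k = s - A.h))

/-- the position `(m, f)` lies in `(0, d)` modulo `p` -/
def InL (m f : ℤ) : Prop :=
  (A.q * m + f) % ((A.p : ℤ) * A.q) < A.q * A.md + A.fd

instance (m f : ℤ) : Decidable (A.InL m f) := by unfold InL; infer_instance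

/-- the function `Φ` of rule (E0) -/
def Phi (mc fc mb fb Y : ℤ) : ℤ :=
  - (if A.InL mc fc ∧ InA A.p Y (-A.h) A.h then 1 else 0)
  + (if A.InL (mc - A.w) fc ∧ InA A.p Y (-A.w - A.h) A.h then 1 else 0)
  + (if A.InL mb fb ∧ InA A.p Y (-A.w) A.w then 1 else 0)
  - (if A.InL (mb + A.h) fb ∧ InA A.p Y (-A.w - A.h) A.w then 1 else 0)

/-- a tie: `D_t = ep (w, x)` up to `sg / q` -/
structure Tie where
  t : ℤ
  ep : ℤ
  x : ℤ
  t0 : 0 < t
  tp : t < A.p
  hep : ep = 1 ∨ ep = -1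
  tie : (A.p : ℤ) * A.q ∣ A.a * t - ep * (A.q * A.w + A.sg)
  row : (A.p : ℤ) ∣ A.e * t - ep * (x - A.w)

end TAp

end Pool.Agent.H78.Tie
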