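import Pool.Agent.H78.Tie.Win

/-!
# Which walls have bounded neighbours
-/

namespace Pool.Agent.H78.Tie

open Finset
open Pool.Agent.H98.Flat
open Pool.Agent.H67.Flat

/-- if the level arcs and the vertical sides of the two walls of a merged line are disjoint then
the strip between them is bounded -/
theorem strip_far {C : Cfg} (G : C.Gen) {u jl jr cl cr : ℤ} (hl : C.N ∣ cl - C.U jl)
    (hr : C.N ∣ cr - (C.U jr + C.W))
    (hc : (cl = u + 1 ∧ cr = u + 2) ∨ (cl = u + 2 ∧ cr = u + 1))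
    (B1 : ∀ v Y, |Fq C Y u v| ≤ 1) (B2 : ∀ v Y, |Fq C Y (u + 2) v| ≤ 1)
    (f1 : C.h < (jl - jr + C.w) % C.p) (f2 : (jl - jr + C.w) % C.p < C.p - C.h) (v Y : ℤ) :
    |Fq C Y (u + 1) v| ≤ 1 := by
  have hN := C.N_pos
  have hp : (0 : ℤ) < C.p := by exact_mod_cast C.p_pos
  have hq : (0 : ℤ) < C.q := by exact_mod_cast C.hq
  have j1 := vjump G (J := jl) (e := 1) (Or.inl ⟨rfl, hl, rfl⟩) Y v
  have j2 := vjump G (J := jr - C.w) (e := -1) (Or.inr ⟨rfl, hr, rfl⟩) Y v
  have xe := Int.emod_add_mul_ediv (jl - jr + C.w) C.p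
  set X := (jl - jr + C.w) % (C.p : ℤ)
  set z := (jl - jr + C.w) / (C.p : ℤ)
  -- levels
  have dl : ¬ (lv C.p jl C.h Y = 1 ∧ lv C.p (jr - C.w) C.h Y = 1) := by
    rintro ⟨h1, h2⟩
    have a1 : (jl - Y) % (C.p : ℤ) < C.h := by
      by_contra hc
      unfold lv at h1; rw [if_neg hc] at h1; exact absurd h1 (by norm_num)
    have a2 : (jr - C.w - Y) % (C.p : ℤ) < C.h := by
      by_contra hc
      unfold lv at h2; rw [if_neg hc] at h2; exact absurd h2 (by norm_num)
    have b1 := Int.emod_nonneg (jl - Y) hp.ne'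
    have b2 := Int.emod_nonneg (jr - C.w - Y) hp.ne'
    have e1 := Int.emod_add_mul_ediv (jl - Y) C.p
    have e2 := Int.emod_add_mul_ediv (jr - C.w - Y) C.p
    set A1 := (jl - Y) % (C.p : ℤ)
    set A2 := (jr - C.w - Y) % (C.p : ℤ)
    have key : (C.p : ℤ) ∣ X - (A1 - A2) :=
      ⟨(jl - Y) / C.p - (jr - C.w - Y) / C.p - z, by linear_combination xe - e1 + e2⟩
    obtain ⟨t, ht⟩ := key
    have : 0 < C.p * t := by omega
    have t0 : 0 < t := by
      by_contra hc
      have : t ≤ 0 := by omega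
      nlinarith
    have : (C.p : ℤ) * 1 ≤ C.p * t := by nlinarith
    omega
  -- heights
  have dv : ¬ (C.ver jl v = 1 ∧ C.ver jr v = 1) := by
    rintro ⟨h1, h2⟩
    have a1 : (v - (C.V jl - C.H)) % C.N < C.H := ph_eq_one_iff.1 h1
    have a2 : (v - (C.V jr - C.H)) % C.N < C.H := ph_eq_one_iff.1 h2
    have b1 := Int.emod_nonneg (v - (C.V jl - C.H)) hN.ne'
    have b2 := Int.emod_nonneg (v - (C.V jr - C.H)) hN.ne'
    have e1 := Int.emod_add_mul_ediv (v - (C.V jl - C.H)) C.N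
    have e2 := Int.emod_add_mul_ediv (v - (C.V jr - C.H)) C.N
    set A1 := (v - (C.V jl - C.H)) % C.N
    set A2 := (v - (C.V jr - C.H)) % C.N
    obtain ⟨tl, htl⟩ := hl
    obtain ⟨tr, htr⟩ := hr
    have hNe : C.N = C.q * C.p := by unfold Cfg.N; ring
    have hWe : C.W = C.q * C.w := rfl
    have hHe : C.H = C.q * C.h := rfl
    have hVl : C.V jl = C.U jl + C.q * jl := rfl
    have hVr : C.V jr = C.U jr + C.q * jr := rfl
    have key : C.N ∣ (C.q * X + (cl - cr)) - (A2 - A1) := by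
      refine ⟨(v - (C.V jr - C.H)) / C.N - (v - (C.V jl - C.H)) / C.N + tl - tr - z, ?_⟩
      linear_combination (C.q : ℤ) * xe - e2 + e1 + htl - htr - hWe - hVl + hVr + z * hNe
    obtain ⟨t, ht⟩ := key
    have q1 : (C.q : ℤ) * (C.h + 1) ≤ C.q * X := by
      apply mul_le_mul_of_nonneg_left _ hq.le; omega
    have q2 : (C.q : ℤ) * X ≤ C.q * (C.p - C.h - 1) := by
      apply mul_le_mul_of_nonneg_left _ hq.le; omega
    have q3 : (C.q : ℤ) * (C.p - C.h - 1) = C.N - C.H - C.q := by rw [hNe, hHe]; ring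
    have q4 : (C.q : ℤ) * (C.h + 1) = C.H + C.q := by rw [hHe]; ring
    have hc' : cl - cr = -1 ∨ cl - cr = 1 := by rcases hc with h | h <;> omega
    have t0 : 0 < t := by
      by_contra hc
      have h3 : t ≤ 0 := by omega
      have h4 : C.N * t ≤ 0 := by nlinarith
      omega
    have : C.N * 1 ≤ C.N * t := by nlinarith
    omega
  have b1 := abs_le.1 (B1 v Y)
  have b2 := abs_le.1 (B2 v Y)
  have dv' : C.ver jl v = 0 ∨ C.ver jr v = 0 := by
    rcases C.ver01 jl v with a1 | a1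
    · left; exact a1
    · rcases C.ver01 jr v with a2 | a2
      · right; exact a2
      · exact absurd ⟨a1, a2⟩ dv
  have dl' : lv C.p jl C.h Y = 0 ∨ lv C.p (jr - C.w) C.h Y = 0 := by
    rcases lv01 C.p jl C.h Y with a1 | a1
    · left; exact a1
    · rcases lv01 C.p (jr - C.w) C.h Y with a2 | a2
      · right; exact a2
      · exact absurd ⟨a1, a2⟩ dl
  have a1 := C.ver01 jl v
  have a2 := C.ver01 jr v
  have a3 := lv01 C.p jl C.h Y
  have a4 := lv01 C.p (jr - C.w) C.h Y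
  rw [abs_le]
  rcases hc with ⟨rfl, rfl⟩ | ⟨rfl, rfl⟩
  · rw [show u + 1 - 1 = u by ring] at j1
    rw [show u + 2 - 1 = u + 1 by ring] at j2
    omega
  · rw [show u + 1 - 1 = u by ring] at j2
    rw [show u + 2 - 1 = u + 1 by ring] at j1
    omega

namespace TAp

variable {A : TAp}

theorem U_dvd (A : TAp) (n k : ℤ) : (A.p : ℤ) ∣ (A.cfg n).U k := by
  rw [cfg_U]; exact A.hpa.mul_right _

theorem p_N (A : TAp) (n : ℤ) : (A.p : ℤ) ∣ (A.cfg n).N := ⟨A.q, rfl⟩

/-- no wall at the positions which are neither `≡ 0` nor `≡ - sg` -/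
theorem noWall_res (n : ℤ) {x : ℤ} (h0 : ¬ (A.p : ℤ) ∣ x) (h1 : ¬ (A.p : ℤ) ∣ x + A.sg) :
    NoWall (A.cfg n) x := by
  intro k
  constructor
  · intro h
    apply h0
    have := dvd_add ((A.p_N n).trans h) (A.U_dvd n k)
    rwa [sub_add_cancel] at this
  · intro h
    apply h1
    have h2 := dvd_add (dvd_add ((A.p_N n).trans h) (A.U_dvd n k)) A.hpw
    have hW : (A.cfg n).W = A.q * A.w := rfl
    rw [hW] at h2
    rwa [show x - ((A.cfg n).U k + A.q * A.w) + (A.cfg n).U k + (A.q * A.w + A.sg)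
      = x + A.sg by ring] at h2

theorem k0_cases (A : TAp) : (A.sg = 1 ∧ A.k0 = 2) ∨ (A.sg = -1 ∧ A.k0 = 1) := by
  unfold k0
  rcases A.hsg with h | h
  · left; rw [if_pos h]; exact ⟨h, rfl⟩
  · right; rw [if_neg (by omega)]; exact ⟨h, rfl⟩

theorem not_dvd_of_lt {p x : ℤ} (h : ∃ z, p * z < x ∧ x < p * (z + 1)) (hp : 0 < p) : ¬ p ∣ x := by
  rintro ⟨c, rfl⟩
  obtain ⟨z, h1, h2⟩ := h
  have h3 : z < c := lt_of_mul_lt_mul_left h1 hp.le
  have h4 : c < z + 1 := lt_of_mul_lt_mul_left h2 hp.le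
  omega

/-- the second column after a visible one is bounded -/
theorem Fl.two (F : A.Fl) (n : ℤ) {u : ℤ} (hu : (A.p : ℤ) ∣ u + A.k0) (v Y : ℤ) :
    |Fq (A.cfg n) Y (u + 2) v| ≤ 1 := by
  have hp := A.p_pos'
  have hw := A.hw
  have w2 := A.w2
  have hp4 : (4 : ℤ) < A.p := by have : 4 < A.p := by omega
                                 exact_mod_cast this
  have key : ∀ m : ℕ, m + 2 ≤ A.p → Fq (A.cfg n) Y (u + 2 + m) v = Fq (A.cfg n) Y (u + 2) v := by
    intro m
    induction m with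
    | zero => intro _; simp
    | succ m ih =>
      intro hm
      have h1 := ih (by omega)
      have nw : NoWall (A.cfg n) (u + 2 + ((m + 1 : ℕ) : ℤ)) := by
        obtain ⟨z, hz⟩ := hu
        have hm' : ((m : ℤ) + 1) + 2 ≤ A.p := by exact_mod_cast hm
        apply noWall_res
        · apply not_dvd_of_lt _ hp
          refine ⟨z, ?_, ?_⟩
          · rcases A.k0_cases with ⟨h, h'⟩ | ⟨h, h'⟩ <;> push_cast <;> rw [h'] at hz <;> omega
          · rw [mul_add, mul_one]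
            rcases A.k0_cases with ⟨h, h'⟩ | ⟨h, h'⟩ <;> push_cast <;> rw [h'] at hz <;> omega
        · apply not_dvd_of_lt _ hp
          refine ⟨z, ?_, ?_⟩
          · rcases A.k0_cases with ⟨h, h'⟩ | ⟨h, h'⟩ <;> push_cast <;> rw [h'] at hz <;>
              rw [h] <;> omega
          · rw [mul_add, mul_one]
            rcases A.k0_cases with ⟨h, h'⟩ | ⟨h, h'⟩ <;> push_cast <;> rw [h'] at hz <;>
              rw [h] <;> omega
      rw [Fq_step nw, ← h1]
      congr 1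
      push_cast; ring
  have h1 := key (A.p - 2) (by omega)
  rw [← h1]
  have e1 : u + 2 + ((A.p - 2 : ℕ) : ℤ) = u + A.p := by
    have : 2 ≤ A.p := by omega
    push_cast [Nat.cast_sub this]; ring
  rw [e1]
  exact F.all n (u + A.p) v Y (by
    have := dvd_add hu (dvd_refl (A.p : ℤ))
    rwa [show u + A.k0 + A.p = u + A.p + A.k0 by ring] at this)

theorem Fl.zero (F : A.Fl) (n : ℤ) {u : ℤ} (hu : (A.p : ℤ) ∣ u + A.k0) (v Y : ℤ) :
    |Fq (A.cfg n) Y u v| ≤ 1 := F.all n u v Y hu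

/-- the strip between the two possible walls after `u` is bounded -/
def Strip (A : TAp) (n u : ℤ) : Prop := ∀ v Y, |Fq (A.cfg n) Y (u + 1) v| ≤ 1

theorem OK.of_strip (F : A.Fl) {u c : ℤ} (hu : (A.p : ℤ) ∣ u + A.k0) (s0 : A.Strip 0 u)
    (s1 : A.Strip 1 u) (hc : c = u + 1 ∨ c = u + 2) : A.OK c := by
  rcases hc with rfl | rfl
  · refine ⟨s0, ?_, s1, ?_⟩
    · intro v Y; rw [show u + 1 - 1 = u by ring]; exact F.zero 0 hu v Y
    · intro v Y; rw [show u + 1 - 1 = u by ring]; exact F.zero 1 hu v Y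
  · refine ⟨F.two 0 hu, ?_, F.two 1 hu, ?_⟩
    · intro v Y; rw [show u + 2 - 1 = u + 1 by ring]; exact s0 v Y
    · intro v Y; rw [show u + 2 - 1 = u + 1 by ring]; exact s1 v Y

theorem Strip.of_one (F : A.Fl) {n u : ℤ} (hu : (A.p : ℤ) ∣ u + A.k0)
    (h : NoWall (A.cfg n) (u + 1)) : A.Strip n u := by
  intro v Y
  rw [Fq_step h, show u + 1 - 1 = u by ring]
  exact F.zero n hu v Y

theorem Strip.of_two (F : A.Fl) {n u : ℤ} (hu : (A.p : ℤ) ∣ u + A.k0)
    (h : NoWall (A.cfg n) (u + 2)) : A.Strip n u := by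
  intro v Y
  have := Fq_step h Y v
  rw [show u + 2 - 1 = u + 1 by ring] at this
  rw [← this]
  exact F.two n hu v Y

end TAp

end Pool.Agent.H78.Tie
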