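import Pool.Agent.H78.Tie.W.Fin
import Pool.Agent.H67.NP.NoPass
import Pool.Agent.H42.Tie.VFin

/-!
# Region V: a single tie without overlaps, `x < 0`, `w + |x| ≤ h`, is impossible
-/

namespace Pool.Agent.H78.Tie.TAp

theorem regionV (A : TAp) (T : A.Tie) (F : A.Fl) (hs : T.Single) (hn : T.NoOv)
    (_ht : T.t ≠ 1) (hx : T.x < 0) (hV : A.w - T.x ≤ A.h) : False := by
  rcases T.hep with h | h
  · exact WR.false (T := T) ⟨F, hs, hn, h, hx, hV⟩
  · exact VR.false (T := T) ⟨F, hn, h, hx, hV, NPH.noPass ⟨F, hs, hn, h, hx, hV⟩⟩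

end Pool.Agent.H78.Tie.TAp
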