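import Pool.Agent.H78.Tie.Ok

/-!
# The rules for the walls of a tie configuration
-/

namespace Pool.Agent.H78.Tie

open Finset
open Pool.Agent.H98.Flat
open Pool.Agent.H67.Flat

namespace TAp

variable {A : TAp}

/-- the second tie (index difference `q - t`) is absent or harmless -/
def Tie.Single (T : A.Tie) : Prop :=
  (A.p : ℤ) ≤ A.q - T.t ∨
    ((A.h : ℤ) < (T.x + T.ep * A.om * A.h) % A.p ∧
      (T.x + T.ep * A.om * A.h) % A.p < A.p - A.h)

theorem q_dvd_of (A : TAp) {z : ℤ} (h : (A.q : ℤ) ∣ A.a * z) : (A.q : ℤ) ∣ z := by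
  exact A.hqa.dvd_of_dvd_mul_left h

/-- indices of two walls which form a merged line -/
theorem Tie.partner (T : A.Tie) {j i : ℤ}
    (h : (A.p : ℤ) * A.q ∣ A.a * (j - i) - (A.q * A.w + A.sg)) (h1 : |j - i| ≤ A.p) :
    i = j - T.ep * T.t ∨ i = j + T.ep * (A.q - T.t) := by
  have h2 : (A.q : ℤ) ∣ A.a * (j - i - T.ep * T.t) := by
    obtain ⟨z1, hz1⟩ := h
    obtain ⟨z2, hz2⟩ := T.tie
    have e2 : T.ep * T.ep = 1 := by rcases T.hep with h | h <;> rw [h] <;> norm_num
    exact ⟨A.p * (z1 - T.ep * z2), by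
      linear_combination hz1 - T.ep * hz2 - (A.q * A.w + A.sg) * e2⟩
  obtain ⟨z, hz⟩ := A.q_dvd_of h2
  have t0 := T.t0
  have tp := T.tp
  have hpq : (A.p : ℤ) < A.q := by exact_mod_cast A.pq
  have hp := A.p_pos'
  rw [abs_le] at h1
  have z1 : -2 < z := by
    by_contra hc
    have : z ≤ -2 := by omega
    have : A.q * z ≤ A.q * (-2) := mul_le_mul_of_nonneg_left this (by omega)
    rcases T.hep with h | h <;> rw [h] at hz <;> omega
  have z2 : z < 2 := by
    by_contra hc
    have : 2 ≤ z := by omega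
    have : (A.q : ℤ) * 2 ≤ A.q * z := mul_le_mul_of_nonneg_left this (by omega)
    rcases T.hep with h | h <;> rw [h] at hz <;> omega
  have z3 : z = -1 ∨ z = 0 ∨ z = 1 := by omega
  rcases z3 with rfl | rfl | rfl
  · rcases T.hep with h | h <;> rw [h] at hz ⊢
    · right; omega
    · exfalso; omega
  · left; omega
  · rcases T.hep with h | h <;> rw [h] at hz ⊢
    · exfalso; omega
    · right; omega

theorem Tie.sec_row (T : A.Tie) {j i s s' : ℤ} (hj : (A.p : ℤ) ∣ A.e * j - s)
    (hi : (A.p : ℤ) ∣ A.e * i - s') (h : i = j + T.ep * (A.q - T.t)) :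
    (s - s' + A.w) % (A.p : ℤ) = (T.x + T.ep * A.om * A.h) % A.p := by
  apply emod_congr
  obtain ⟨z1, hz1⟩ := hj
  obtain ⟨z2, hz2⟩ := hi
  obtain ⟨z3, hz3⟩ := T.row
  obtain ⟨z4, hz4⟩ := A.hqe
  have e2 : T.ep * T.ep = 1 := by rcases T.hep with h | h <;> rw [h] <;> norm_num
  refine ⟨-z1 + z2 + T.ep * z3 - T.ep * z4, ?_⟩
  rw [h] at hz2
  linear_combination -hz1 + hz2 + T.ep * hz3 - T.ep * hz4 + (T.x - A.w) * e2

/-- the strip next to the left wall of a class whose main partner is not in the window -/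
theorem stripL (F : A.Fl) (T : A.Tie) (hs : T.Single) {j m f s n : ℤ} (c : A.Cls j m f s)
    (hn : n = 0 ∨ n = 1)
    (hm : (T.ep = 1 ∧ j < T.t) ∨ (T.ep = -1 ∧ A.p < j + T.t)) :
    A.Strip n (A.q * m + f - A.k0) := by
  have hp := A.p_pos'
  have j0 := c.1
  have j1 := c.2.1
  have hC : (A.p : ℤ) * A.q ∣ (A.cfg n).U s - (A.q * m + f) := by
    rcases hn with rfl | rfl
    · exact c.U0
    · exact c.U1
  have hu : (A.p : ℤ) ∣ A.q * m + f - A.k0 + A.k0 := by
    rw [sub_add_cancel]
    have h1 := dvd_sub (A.U_dvd n s) ((dvd_mul_right _ _).trans hC)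
    rwa [sub_sub_cancel] at h1
  by_cases hw : NoWall (A.cfg n) (A.q * m + f - A.sg)
  · rcases A.k0_cases with ⟨h, h'⟩ | ⟨h, h'⟩
    · apply Strip.of_one F hu
      rw [h'] at *
      rw [h] at hw
      rwa [show A.q * m + f - 2 + 1 = A.q * m + f - 1 by ring]
    · apply Strip.of_two F hu
      rw [h'] at *
      rw [h] at hw
      rwa [show A.q * m + f - 1 + 2 = A.q * m + f - -1 by ring]
  · -- there is a second wall
    have hk : ∃ k, (A.p : ℤ) * A.q ∣ A.q * m + f - A.sg - ((A.cfg n).U k + A.q * A.w) := by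
      unfold NoWall at hw
      push Not at hw
      obtain ⟨k, hk⟩ := hw
      refine ⟨k, ?_⟩
      by_cases hk2 : (A.cfg n).N ∣ A.q * m + f - A.sg - (A.cfg n).U k
      · exfalso
        have h1 := dvd_add ((A.p_N n).trans hk2) (A.U_dvd n k)
        rw [sub_add_cancel] at h1
        rw [sub_add_cancel] at hu
        have h2 := dvd_sub hu h1
        rw [sub_sub_cancel] at h2
        have h3 : (A.p : ℤ) ∣ 1 := by
          rcases A.hsg with h | h
          · rwa [h] at h2
          · rw [h] at h2; exact (dvd_neg).1 h2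
        have := Int.le_of_dvd (by norm_num) h3
        have := A.w2
        have := A.hw
        omega
      · exact hk hk2
    obtain ⟨k, hk⟩ := hk
    have i0 := Int.emod_nonneg (A.e' * k - n) hp.ne'
    have i1 := Int.emod_lt_of_pos (A.e' * k - n) hp
    have ik := A.idx_row n k
    set i := n + (A.e' * k - n) % (A.p : ℤ) with hi
    have hUk : (A.cfg n).U k = A.a * i := rfl
    have hpart : (A.p : ℤ) * A.q ∣ A.a * (j - i) - (A.q * A.w + A.sg) := by
      obtain ⟨z1, hz1⟩ := hk
      obtain ⟨z2, hz2⟩ := c.2.2.2.2.1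
      rw [hUk] at hz1
      exact ⟨z1 + z2, by linear_combination hz1 + hz2⟩
    rcases T.partner hpart (by rw [abs_le]; rcases hn with rfl | rfl <;> constructor <;> omega)
      with h | h
    · exfalso
      rcases hm with ⟨h1, h2⟩ | ⟨h1, h2⟩ <;> rw [h1] at h <;> rcases hn with rfl | rfl <;> omega
    · rcases hs with h1 | ⟨h1, h2⟩
      · exfalso
        rcases T.hep with h3 | h3 <;> rw [h3] at h <;> rcases hn with rfl | rfl <;> omega
      · have hrow := T.sec_row c.2.2.2.2.2 ik h
        have hl : (A.cfg n).N ∣ (A.q * m + f) - (A.cfg n).U s := by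
          rw [← dvd_neg, neg_sub]; exact hC
        have hr : (A.cfg n).N ∣ (A.q * m + f - A.sg) - ((A.cfg n).U k + (A.cfg n).W) := hk
        intro v Y
        refine strip_far (A.cfg_gen n) hl hr ?_ (F.zero n hu) (F.two n hu) ?_ ?_ v Y
        · rcases A.k0_cases with ⟨h3, h3'⟩ | ⟨h3, h3'⟩ <;> rw [h3, h3']
          · right; constructor <;> ring
          · left; constructor <;> ring
        · change (A.h : ℤ) < (s - k + A.w) % A.p
          rw [hrow]; exact h1
        · change (s - k + (A.w : ℤ)) % A.p < A.p - A.h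
          rw [hrow]; exact h2

/-- the strip next to the right wall of a class whose main partner is not in the window -/
theorem stripR (F : A.Fl) (T : A.Tie) (hs : T.Single) {j m f s n : ℤ} (c : A.Cls j m f s)
    (hn : n = 0 ∨ n = 1)
    (hm : (T.ep = 1 ∧ A.p < j + T.t) ∨ (T.ep = -1 ∧ j < T.t)) :
    A.Strip n (A.q * (m + A.w) + f + A.sg - A.k0) := by
  have hp := A.p_pos'
  have j0 := c.1
  have j1 := c.2.1
  have hC : (A.p : ℤ) * A.q ∣ (A.cfg n).U s - (A.q * m + f) := by
    rcases hn with rfl | rfl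
    · exact c.U0
    · exact c.U1
  have hu : (A.p : ℤ) ∣ A.q * (m + A.w) + f + A.sg - A.k0 + A.k0 := by
    rw [sub_add_cancel]
    have h1 := dvd_add (dvd_sub (A.U_dvd n s) ((dvd_mul_right _ _).trans hC)) A.hpw
    rwa [show (A.cfg n).U s - ((A.cfg n).U s - (A.q * m + f)) + (A.q * A.w + A.sg)
      = A.q * (m + A.w) + f + A.sg by ring] at h1
  by_cases hw : NoWall (A.cfg n) (A.q * (m + A.w) + f + A.sg)
  · rcases A.k0_cases with ⟨h, h'⟩ | ⟨h, h'⟩
    · apply Strip.of_two F hu
      rw [h'] at *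
      rwa [sub_add_cancel]
    · apply Strip.of_one F hu
      rw [h'] at *
      rwa [sub_add_cancel]
  · -- there is a second wall
    have hk : ∃ k, (A.p : ℤ) * A.q ∣ A.q * (m + A.w) + f + A.sg - (A.cfg n).U k := by
      unfold NoWall at hw
      push Not at hw
      obtain ⟨k, hk⟩ := hw
      refine ⟨k, ?_⟩
      by_contra hk2
      have hk3 := hk hk2
      have h1 := dvd_add (dvd_add ((A.p_N n).trans hk3) (A.U_dvd n k)) A.hpw
      have hW : (A.cfg n).W = A.q * A.w := rfl
      rw [hW] at h1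
      rw [show A.q * (m + A.w) + f + A.sg - ((A.cfg n).U k + A.q * A.w) + (A.cfg n).U k
        + (A.q * A.w + A.sg) = A.q * (m + A.w) + f + A.sg + A.sg by ring] at h1
      rw [sub_add_cancel] at hu
      have h2 := dvd_sub h1 hu
      rw [add_sub_cancel_left] at h2
      have h3 : (A.p : ℤ) ∣ 1 := by
        rcases A.hsg with h | h
        · rwa [h] at h2
        · rw [h] at h2; exact (dvd_neg).1 h2
      have := Int.le_of_dvd (by norm_num) h3
      have := A.w2
      have := A.hw
      omega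
    obtain ⟨k, hk⟩ := hk
    have i0 := Int.emod_nonneg (A.e' * k - n) hp.ne'
    have i1 := Int.emod_lt_of_pos (A.e' * k - n) hp
    have ik := A.idx_row n k
    set i := n + (A.e' * k - n) % (A.p : ℤ) with hi
    have hUk : (A.cfg n).U k = A.a * i := rfl
    have hpart : (A.p : ℤ) * A.q ∣ A.a * (i - j) - (A.q * A.w + A.sg) := by
      obtain ⟨z1, hz1⟩ := hk
      obtain ⟨z2, hz2⟩ := c.2.2.2.2.1
      rw [hUk] at hz1
      exact ⟨-z1 - z2, by linear_combination -hz1 - hz2⟩
    rcases T.partner hpart (by rw [abs_le]; rcases hn with rfl | rfl <;> constructor <;> omega)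
      with h | h
    · exfalso
      rcases hm with ⟨h1, h2⟩ | ⟨h1, h2⟩ <;> rw [h1] at h <;> rcases hn with rfl | rfl <;> omega
    · rcases hs with h1 | ⟨h1, h2⟩
      · exfalso
        rcases T.hep with h3 | h3 <;> rw [h3] at h <;> rcases hn with rfl | rfl <;> omega
      · have hrow := T.sec_row ik c.2.2.2.2.2 h
        have hl : (A.cfg n).N ∣ (A.q * (m + A.w) + f + A.sg) - (A.cfg n).U k := hk
        have hr : (A.cfg n).N ∣ (A.q * (m + A.w) + f) - ((A.cfg n).U s + (A.cfg n).W) := by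
          rw [← dvd_neg]
          have hW : (A.cfg n).W = A.q * A.w := rfl
          rw [hW]
          rwa [show -(A.q * (m + A.w) + f - ((A.cfg n).U s + A.q * A.w))
            = (A.cfg n).U s - (A.q * m + f) by ring]
        intro v Y
        refine strip_far (A.cfg_gen n) hl hr ?_ (F.zero n hu) (F.two n hu) ?_ ?_ v Y
        · rcases A.k0_cases with ⟨h3, h3'⟩ | ⟨h3, h3'⟩ <;> rw [h3, h3']
          · right; constructor <;> ring
          · left; constructor <;> ring
        · change (A.h : ℤ) < (k - s + A.w) % A.p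
          rw [hrow]; exact h1
        · change (k - s + (A.w : ℤ)) % A.p < A.p - A.h
          rw [hrow]; exact h2

/-- left walls without main partner -/
theorem okL (F : A.Fl) (T : A.Tie) (hs : T.Single) {j m f s : ℤ} (c : A.Cls j m f s)
    (hm : (T.ep = 1 ∧ j < T.t) ∨ (T.ep = -1 ∧ A.p < j + T.t)) : A.OK (A.q * m + f) := by
  have hu : (A.p : ℤ) ∣ A.q * m + f - A.k0 + A.k0 := by
    rw [sub_add_cancel]
    have h1 := dvd_sub (A.U_dvd 0 s) ((dvd_mul_right _ _).trans c.U0)
    rwa [sub_sub_cancel] at h1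
  refine OK.of_strip F hu (stripL F T hs c (Or.inl rfl) hm) (stripL F T hs c (Or.inr rfl) hm) ?_
  rcases A.k0_cases with ⟨h3, h3'⟩ | ⟨h3, h3'⟩ <;> rw [h3']
  · right; ring
  · left; ring

/-- right walls without main partner -/
theorem okR (F : A.Fl) (T : A.Tie) (hs : T.Single) {j m f s : ℤ} (c : A.Cls j m f s)
    (hm : (T.ep = 1 ∧ A.p < j + T.t) ∨ (T.ep = -1 ∧ j < T.t)) :
    A.OK (A.q * (m + A.w) + f) := by
  have hu : (A.p : ℤ) ∣ A.q * (m + A.w) + f + A.sg - A.k0 + A.k0 := by
    rw [sub_add_cancel]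
    have h1 := dvd_add (dvd_sub (A.U_dvd 0 s) ((dvd_mul_right _ _).trans c.U0)) A.hpw
    rwa [show (A.cfg 0).U s - ((A.cfg 0).U s - (A.q * m + f)) + (A.q * A.w + A.sg)
      = A.q * (m + A.w) + f + A.sg by ring] at h1
  refine OK.of_strip F hu (stripR F T hs c (Or.inl rfl) hm) (stripR F T hs c (Or.inr rfl) hm) ?_
  rcases A.k0_cases with ⟨h3, h3'⟩ | ⟨h3, h3'⟩ <;> rw [h3, h3']
  · left; ring
  · right; ring

end TAp

end Pool.Agent.H78.Tie
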