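import Pool.Agent.H78.Tie.Rule2

/-!
# Static rules for a tied pair in a configuration which is disjoint up to invisible columns

`K1`, `K2`, `K3` : local contradictions.
-/

namespace Pool.Agent.H78.Tie

open Finset
open Pool.Agent.H98.Flat
open Pool.Agent.H67.Flat

/-- a jump of `f` comes from a horizontal wall crossed by the level -/
theorem f_ne {C : Cfg} {y v : ℤ} (h : C.f y v ≠ C.f y (v - 1)) :
    ∃ (k : ℤ) (i : ℕ), i < C.w ∧
      ((k = y + i ∧ C.N ∣ v - C.V k) ∨ (k = y + C.h + i ∧ C.N ∣ v - (C.V k - C.H))) := by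
  rcases lt_or_gt_of_ne h with h1 | h1
  · obtain ⟨i, hi, hk⟩ := C.f_down h1
    exact ⟨_, i, hi, Or.inr ⟨rfl, hk⟩⟩
  · obtain ⟨i, hi, hk⟩ := C.f_up h1
    exact ⟨_, i, hi, Or.inl ⟨rfl, hk⟩⟩

/-- the crossed wall covers the columns `v - q y, …, v - q y + q - 1` -/
theorem f_ne_hor {C : Cfg} {y v k : ℤ} {i : ℕ} (hi : i < C.w)
    (h : (k = y + i ∧ C.N ∣ v - C.V k) ∨ (k = y + C.h + i ∧ C.N ∣ v - (C.V k - C.H)))
    {c : ℤ} (c0 : 0 ≤ c) (c1 : c < C.q) : C.hor k (v - C.q * y + c) = 1 := by
  have hN := C.N_pos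
  have hW : C.W = C.q * C.w := rfl
  have hH : C.H = C.q * C.h := rfl
  have hV : C.V k = C.U k + C.q * k := rfl
  have hWl := C.W_lt
  have hq : (0 : ℤ) < C.q := by exact_mod_cast C.hq
  have hi' : (i : ℤ) + 1 ≤ C.w := by exact_mod_cast hi
  have e : (C.q : ℤ) * (i + 1) ≤ C.q * C.w := mul_le_mul_of_nonneg_left hi' hq.le
  have e0 : 0 ≤ (C.q : ℤ) * i := by positivity
  rw [mul_add, mul_one] at e
  unfold Cfg.hor
  rw [ph_at (t := C.q * i + c) ?_ (by omega) (by omega), if_pos (by omega)]
  rcases h with ⟨hk, hd⟩ | ⟨hk, hd⟩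
  · rw [hV] at hd
    rwa [show v - C.q * y + c - (C.U k + (C.q * i + c)) = v - (C.U k + C.q * (y + i)) by ring,
      ← hk]
  · rw [hV, hH] at hd
    rwa [show v - C.q * y + c - (C.U k + (C.q * i + c))
      = v - (C.U k + C.q * (y + C.h + i) - C.q * C.h) by ring, ← hk]

/-- rows covered by the crossed rectangle next to the wall -/
theorem f_ne_ver {C : Cfg} {v k y : ℤ} {i : ℕ}
    (h : (k = y + i ∧ C.N ∣ v - C.V k) ∨ (k = y + C.h + i ∧ C.N ∣ v - (C.V k - C.H))) :
    ∃ v', (v' = v ∨ v' = v - 1) ∧ C.ver k v' = 1 := by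
  have hH := C.H_pos
  have hHl := C.H_lt
  rcases h with ⟨_, hd⟩ | ⟨_, hd⟩
  · refine ⟨v - 1, Or.inr rfl, ?_⟩
    unfold Cfg.ver
    rw [ph_at (t := C.H - 1) (by rwa [show v - 1 - (C.V k - C.H + (C.H - 1)) = v - C.V k by ring])
      (by omega) (by omega), if_pos (by omega)]
  · refine ⟨v, Or.inl rfl, ?_⟩
    unfold Cfg.ver
    rw [ph_at (t := 0) (by rwa [add_zero]) le_rfl C.N_pos, if_pos (by omega)]

theorem R_le_of {C : Cfg} {a u v : ℤ} (h : ∀ k, C.In k u v → (C.p : ℤ) ∣ k - a) : C.R u v ≤ 1 := by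
  have hp : (0 : ℤ) < C.p := by exact_mod_cast C.p_pos
  have l0 := Int.emod_nonneg a hp.ne'
  have l1 := Int.emod_lt_of_pos a hp
  unfold Cfg.R
  rw [Finset.sum_eq_single (a % (C.p : ℤ)).toNat]
  · rcases C.hor01 ((a % (C.p : ℤ)).toNat : ℤ) u with h1 | h1 <;>
      rcases C.ver01 ((a % (C.p : ℤ)).toNat : ℤ) v with h2 | h2 <;> rw [h1, h2] <;> norm_num
  · intro k hk hne
    have hk := Finset.mem_range.1 hk
    rcases C.hor01 k u with h1 | h1
    · rw [h1, zero_mul]
    · rcases C.ver01 k v with h2 | h2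
      · rw [h2, mul_zero]
      · exfalso
        apply hne
        have h3 := h k ⟨h1, h2⟩
        have : a % (C.p : ℤ) = k := by
          rw [← Int.emod_eq_of_lt (a := (k : ℤ)) (b := C.p) (by omega) (by omega)]
          exact emod_congr (by rw [← dvd_neg, neg_sub]; exact h3)
        omega
  · intro h1
    exact absurd (Finset.mem_range.2 (by omega)) h1

theorem R_zero_of {C : Cfg} {u v : ℤ} (h : ∀ k, ¬ C.In k u v) : C.R u v = 0 := by
  have h0 := C.R_nonneg u v
  by_contra hc
  obtain ⟨k, hk⟩ := C.exists_In (u := u) (v := v) (by omega)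
  exact h k hk

/-- disjoint up to invisible columns -/
structure SC (C : Cfg) (sg : ℤ) : Prop where
  G : C.Gen
  hsg : sg = 1 ∨ sg = -1
  q3 : 3 ≤ C.q
  hw : 2 ≤ C.w
  hh : 2 ≤ C.h
  w2 : 2 * C.w < C.p
  h2 : 2 * C.h < C.p
  res : ∀ k, (C.p : ℤ) ∣ C.U k
  dj : ∀ k j u v, ¬ (C.p : ℤ) ∣ k - j → C.In k u v → C.In j u v → sg = -1 ∧ (C.p : ℤ) ∣ u

namespace SC

variable {C : Cfg} {sg : ℤ}

theorem one_not (S : SC C sg) : ¬ (C.p : ℤ) ∣ 1 := by
  intro h
  have := Int.le_of_dvd (by norm_num) h
  have := S.w2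
  have := S.hw
  omega

/-- two rectangles do not share two consecutive columns in a row -/
theorem two (S : SC C sg) {k a x v : ℤ} (h : ¬ (C.p : ℤ) ∣ k - a) (k1 : C.hor k x = 1)
    (k2 : C.hor k (x + 1) = 1) (a1 : C.hor a x = 1) (a2 : C.hor a (x + 1) = 1)
    (kv : C.ver k v = 1) (av : C.ver a v = 1) : False := by
  have h1 := (S.dj k a x v h ⟨k1, kv⟩ ⟨a1, av⟩).2
  have h2 := (S.dj k a (x + 1) v h ⟨k2, kv⟩ ⟨a2, av⟩).2
  apply S.one_not
  have := dvd_sub h2 h1
  rwa [add_sub_cancel_left] at this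

theorem hor_of (_S : SC C sg) {a x t : ℤ} (h : C.N ∣ x - (C.U a + t)) (t0 : 0 ≤ t) (t1 : t < C.W) :
    C.hor a x = 1 := by
  unfold Cfg.hor
  rw [ph_at h t0 (t1.trans C.W_lt), if_pos t1]

theorem ver_of (_S : SC C sg) {a v t : ℤ} (h : C.N ∣ v - (C.V a - C.H + t)) (t0 : 0 ≤ t)
    (t1 : t < C.H) : C.ver a v = 1 := by
  unfold Cfg.ver
  rw [ph_at h t0 (t1.trans C.H_lt), if_pos t1]

theorem ver_not (_S : SC C sg) {a v t : ℤ} (h : C.N ∣ v - (C.V a - C.H + t)) (t0 : C.H ≤ t)
    (t1 : t < C.N) : C.ver a v = 0 := by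
  have := C.H_pos
  unfold Cfg.ver
  rw [ph_at h (by omega) t1, if_neg (by omega)]

theorem ndvd {N x : ℤ} (h0 : 0 < x) (h1 : x < N) : ¬ N ∣ x := by
  intro h
  have := Int.le_of_dvd h0 h
  omega

/-- `b` is the right neighbour of `a` -/
structure TP (C : Cfg) (sg a b x : ℤ) : Prop where
  hU : C.N ∣ C.U a - (C.U b - C.W - sg)
  row : a = b + C.w - x

theorem TP.hV {a b x : ℤ} (T : TP C sg a b x) : C.N ∣ C.V a - (C.V b - C.q * x - sg) := by
  have h := T.hU
  have hW : C.W = C.q * C.w := rfl
  have hVa : C.V a = C.U a + C.q * a := rfl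
  have hVb : C.V b = C.U b + C.q * b := rfl
  rw [hVa, hVb]
  rw [hW] at h
  have e := T.row
  rwa [show C.U a + C.q * a - (C.U b + C.q * b - C.q * x - sg)
    = C.U a - (C.U b - C.q * C.w - sg) by rw [e]; ring]

/-- the visible column next to the right of the line -/
def RC (C : Cfg) (sg b u : ℤ) : Prop := (sg = 1 ∧ u = C.U b) ∨ (sg = -1 ∧ u = C.U b + 1)

theorem size (S : SC C sg) : 2 * C.W + C.q ≤ C.N ∧ 2 * C.H + C.q ≤ C.N ∧ 2 * C.q ≤ C.W ∧
    2 * C.q ≤ C.H := by
  have hq : (0 : ℤ) < C.q := by exact_mod_cast C.hq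
  have w2 : 2 * (C.w : ℤ) + 1 ≤ C.p := by exact_mod_cast S.w2
  have h2 : 2 * (C.h : ℤ) + 1 ≤ C.p := by exact_mod_cast S.h2
  have hw : (2 : ℤ) ≤ C.w := by exact_mod_cast S.hw
  have hh : (2 : ℤ) ≤ C.h := by exact_mod_cast S.hh
  have hNe : C.N = C.p * C.q := rfl
  have hWe : C.W = C.q * C.w := rfl
  have hHe : C.H = C.q * C.h := rfl
  rw [hNe, hWe, hHe]
  refine ⟨?_, ?_, ?_, ?_⟩ <;> nlinarith

/-- **K1** -/
theorem K1 (S : SC C sg) {a b x u : ℤ} (T : TP C sg a b x) (hx : x < 0) (hx' : -x < C.h)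
    (hh : C.h < C.w - x) (hu : RC C sg b u) (fl : ∀ v Y, |Fq C Y u v| ≤ 1) : False := by
  have G := S.G
  have hN := C.N_pos
  have hp : (0 : ℤ) < C.p := by exact_mod_cast C.p_pos
  have hq : (3 : ℤ) ≤ C.q := by exact_mod_cast S.q3
  have hWe : C.W = C.q * C.w := rfl
  have hHe : C.H = C.q * C.h := rfl
  have hVb : C.V b = C.U b + C.q * b := rfl
  have hVa := T.hV
  have hUa := T.hU
  have hra := T.row
  obtain ⟨z1, z2, z3, z4⟩ := S.size
  have hsg := S.hsg
  have h1 : (C.q : ℤ) * 1 ≤ C.q * -x := mul_le_mul_of_nonneg_left (by omega) (by omega)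
  have h2 : (C.q : ℤ) * (-x + 1) ≤ C.q * C.h := mul_le_mul_of_nonneg_left (by omega) (by omega)
  have h3 : (C.q : ℤ) * (C.h + 1) ≤ C.q * (C.w - x) :=
    mul_le_mul_of_nonneg_left (by omega) (by omega)
  have e1 : (C.q : ℤ) * -x = -(C.q * x) := by ring
  have e2 : (C.q : ℤ) * (-x + 1) = -(C.q * x) + C.q := by ring
  have e3 : (C.q : ℤ) * (C.h + 1) = C.H + C.q := by rw [hHe]; ring
  have e4 : (C.q : ℤ) * (C.w - x) = C.W - C.q * x := by rw [hWe]; ring
  rw [e1] at h1
  rw [e2, ← hHe] at h2
  rw [e3, e4] at h3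
  set X := (C.q : ℤ) * x with hX
  set va := C.V b - X - sg with hva
  -- `f` is constant along the chord of `a`
  have step : ∀ β, va - C.H < β → β ≤ C.V b → C.f (b + 1) β = C.f (b + 1) (β - 1) := by
    intro β b1 b2
    by_contra hne
    obtain ⟨k, i, hi, hk⟩ := f_ne hne
    have c0 := f_ne_hor hi hk (c := 0) le_rfl (by omega)
    have c1 := f_ne_hor hi hk (c := 1) (by omega) (by omega)
    obtain ⟨v', hv', kv⟩ := f_ne_ver hk
    rw [add_zero] at c0
    have a0 : C.hor a (β - C.q * (b + 1)) = 1 := by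
      apply S.hor_of (t := β - C.V b - C.q + C.W + sg) _ (by omega) (by omega)
      have := (dvd_neg).2 hUa
      rwa [show β - C.q * (b + 1) - (C.U a + (β - C.V b - C.q + C.W + sg))
        = -(C.U a - (C.U b - C.W - sg)) by rw [hVb]; ring]
    have a1 : C.hor a (β - C.q * (b + 1) + 1) = 1 := by
      apply S.hor_of (t := β - C.V b - C.q + C.W + sg + 1) _ (by omega) (by omega)
      have := (dvd_neg).2 hUa
      rwa [show β - C.q * (b + 1) + 1 - (C.U a + (β - C.V b - C.q + C.W + sg + 1))
        = -(C.U a - (C.U b - C.W - sg)) by rw [hVb]; ring]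
    have av : C.ver a v' = 1 := by
      apply S.ver_of (t := v' - (va - C.H)) _ (by omega) (by omega)
      have := (dvd_neg).2 hVa
      rwa [show v' - (C.V a - C.H + (v' - (va - C.H))) = -(C.V a - va) by ring]
    by_cases hka : (C.p : ℤ) ∣ k - a
    · have hVk := C.V_congr hka
      rcases hk with ⟨_, hk⟩ | ⟨_, hk⟩
      · have := dvd_add (dvd_add hk hVk) hVa
        rw [show β - C.V k + (C.V k - C.V a) + (C.V a - (C.V b - X - sg)) = -(va - β) by
          rw [hva]; ring, dvd_neg] at this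
        exact ndvd (by omega) (by omega) this
      · have := dvd_add (dvd_add hk hVk) hVa
        rw [show β - (C.V k - C.H) + (C.V k - C.V a) + (C.V a - (C.V b - X - sg))
          = β - (va - C.H) by rw [hva]; ring] at this
        exact ndvd (by omega) (by omega) this
    · exact S.two hka c0 c1 a0 a1 kv av
  have cst : ∀ n : ℕ, va - C.H ≤ C.V b - n → C.f (b + 1) (C.V b - n) = C.f (b + 1) (C.V b) := by
    intro n
    induction n with
    | zero => intro _; simp
    | succ n ih =>
      intro hn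
      push_cast at hn ⊢
      rw [← ih (by omega), step (C.V b - n) (by omega) (by omega)]
      congr 1; ring
  have f1 : C.f (b + 1) (va - C.H) = C.f (b + 1) (C.V b) := by
    have := cst (C.V b - (va - C.H)).toNat (by omega)
    rwa [Int.toNat_of_nonneg (by omega), sub_sub_cancel] at this
  -- bottom of `a`
  have f2 : C.f (b + 1) (va - C.H) + 1 ≤ C.f (b + 1) (va - C.H - 1) := by
    apply C.f_down_of G (i := (C.w - x - 1 - C.h : ℤ).toNat) (by omega)
    rw [Int.toNat_of_nonneg (by omega),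
      show b + 1 + C.h + (C.w - x - 1 - C.h : ℤ) = a by rw [hra]; ring]
    have := (dvd_neg).2 hVa
    rwa [show va - C.H - (C.V a - C.H) = -(C.V a - va) by ring]
  -- the point lies in `b`
  have r1 : 1 ≤ C.R u (va - C.H - 1) := by
    apply C.R_pos_of_In (k := b)
    refine ⟨?_, ?_⟩
    · rcases hu with ⟨_, hu⟩ | ⟨_, hu⟩
      · apply S.hor_of (t := 0) _ (by omega) (by omega); rw [hu]; simp
      · apply S.hor_of (t := 1) _ (by omega) (by omega); rw [hu]; simp
    · apply S.ver_of (t := -X - sg - 1) _ (by omega) (by omega)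
      rw [show va - C.H - 1 - (C.V b - C.H + (-X - sg - 1)) = 0 by rw [hva]; ring]
      exact dvd_zero _
  -- `g`
  have gb : C.g (b + 1) (C.U b) = C.R (C.U b) (C.V b) + C.f (b + 1) (C.V b) := by
    have := C.gid (b + 1) (C.U b) (C.q * b) (by rw [add_sub_cancel_right])
      (by rw [mul_add]; omega)
    rwa [← hVb] at this
  have bv : C.ver b (C.V b - 1) = 1 := by
    apply S.ver_of (t := C.H - 1) _ (by omega) (by omega)
    rw [show C.V b - 1 - (C.V b - C.H + (C.H - 1)) = 0 by ring]; exact dvd_zero _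
  have bh : C.hor b (C.U b) = 1 := by
    apply S.hor_of (t := 0) _ (by omega) (by omega); simp
  have bvn : C.ver b (C.V b) = 0 := by
    apply S.ver_not (t := C.H) _ (by omega) (by omega)
    rw [show C.V b - (C.V b - C.H + C.H) = 0 by ring]; exact dvd_zero _
  have g1 : C.g (b + 1) u ≤ C.f (b + 1) (C.V b) := by
    rcases hu with ⟨hs, hu⟩ | ⟨hs, hu⟩
    · rw [hu, gb, R_zero_of, zero_add]
      intro k hk
      have hk2 := hk.2
      rw [show C.V b = C.V b - 1 + 1 by ring] at hk2
      obtain ⟨y, y1, y2⟩ := C.near_ver G bv hk2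
      by_cases hkb : (C.p : ℤ) ∣ k - b
      · have := hk.2
        rw [C.ver_congr hkb (by simp : C.N ∣ C.V b - C.V b), bvn] at this
        omega
      · have := (S.dj k b (C.U b) y hkb ⟨hk.1, y2⟩ ⟨bh, y1⟩).1
        omega
    · have h4 : C.g (b + 1) u + 1 ≤ C.g (b + 1) (u - 1) := by
        apply C.g_down_of G (i := (-x - 1 : ℤ).toNat) (by omega)
        rw [Int.toNat_of_nonneg (by omega),
          show b + 1 + C.w + (-x - 1 : ℤ) = a by rw [hra]; ring, hu]
        have := (dvd_neg).2 hUa
        rwa [show C.U b + 1 - (C.U a + C.W) = -(C.U a - (C.U b - C.W - sg)) by rw [hs]; ring]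
      rw [hu, add_sub_cancel_right, gb] at h4
      have h5 : C.R (C.U b) (C.V b) ≤ 1 := by
        apply R_le_of (a := a)
        intro k hk
        by_contra hka
        have a0 : C.hor a (C.U b - 1) = 1 := by
          apply S.hor_of (t := C.W + sg - 1) _ (by omega) (by omega)
          have := (dvd_neg).2 hUa
          rwa [show C.U b - 1 - (C.U a + (C.W + sg - 1))
            = -(C.U a - (C.U b - C.W - sg)) by ring]
        have a1 : C.hor a (C.U b) = 1 := by
          apply S.hor_of (t := C.W + sg) _ (by omega) (by omega)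
          have := (dvd_neg).2 hUa
          rwa [show C.U b - (C.U a + (C.W + sg))
            = -(C.U a - (C.U b - C.W - sg)) by ring]
        have av : C.ver a (C.V b) = 1 := by
          apply S.ver_of (t := C.V b - (va - C.H)) _ (by omega) (by omega)
          have := (dvd_neg).2 hVa
          rwa [show C.V b - (C.V a - C.H + (C.V b - (va - C.H))) = -(C.V a - va) by ring]
        have hk1 := hk.1
        rw [show C.U b = C.U b - 1 + 1 by ring] at hk1
        rcases ph_pred C.N_pos C.W_pos.le C.W_lt.le hk1 with h6 | h6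
        · exact S.two hka h6 hk1 a0 (by rw [show C.U b - 1 + 1 = C.U b by ring]; exact a1) hk.2 av
        · have h7 := G.UU b k (by rwa [show C.U b - 1 + 1 - C.U k = C.U b - C.U k by ring] at h6)
          have := hk.2
          rw [C.ver_congr (k := k) (j := b) (by rw [← dvd_neg, neg_sub]; exact h7)
            (by simp : C.N ∣ C.V b - C.V b), bvn] at this
          omega
      rw [hu]
      omega
  have b1 := (abs_le.1 (fl (va - C.H - 1) (b + 1))).2
  unfold Fq at b1
  omega

/-- **K2** -/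
theorem K2 (S : SC C sg) {a b x u : ℤ} (T : TP C sg a b x) (hx : 0 < x) (hx' : x < C.h)
    (hh : C.h < C.w + x) (hu : RC C sg b u) (fl : ∀ v Y, |Fq C Y u v| ≤ 1) : False := by
  have G := S.G
  have hN := C.N_pos
  have hp : (0 : ℤ) < C.p := by exact_mod_cast C.p_pos
  have hq : (3 : ℤ) ≤ C.q := by exact_mod_cast S.q3
  have hw2 := S.w2
  have hh2 := S.h2
  have hWe : C.W = C.q * C.w := rfl
  have hHe : C.H = C.q * C.h := rfl
  have hVb : C.V b = C.U b + C.q * b := rfl
  have hVa := T.hV
  have hUa := T.hU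
  have hra := T.row
  obtain ⟨z1, z2, z3, z4⟩ := S.size
  have hsg := S.hsg
  have h1 : (C.q : ℤ) * 1 ≤ C.q * x := mul_le_mul_of_nonneg_left (by omega) (by omega)
  have h2 : (C.q : ℤ) * (x + 1) ≤ C.q * C.h := mul_le_mul_of_nonneg_left (by omega) (by omega)
  have h3 : (C.q : ℤ) * (C.h + 1) ≤ C.q * (C.w + x) :=
    mul_le_mul_of_nonneg_left (by omega) (by omega)
  have e2 : (C.q : ℤ) * (x + 1) = C.q * x + C.q := by ring
  have e3 : (C.q : ℤ) * (C.h + 1) = C.H + C.q := by rw [hHe]; ring
  have e4 : (C.q : ℤ) * (C.w + x) = C.W + C.q * x := by rw [hWe]; ring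
  rw [mul_one] at h1
  rw [e2, ← hHe] at h2
  rw [e3, e4] at h3
  have hY : (C.q : ℤ) * (b - x + 1) = C.q * b - C.q * x + C.q := by ring
  set X := (C.q : ℤ) * x with hX
  set va := C.V b - X - sg with hva
  -- `f` is constant along the chord of `a`
  have step : ∀ β, C.V b - C.H ≤ β → β ≤ va - 1 →
      C.f (b - x + 1) β = C.f (b - x + 1) (β - 1) := by
    intro β b1 b2
    by_contra hne
    obtain ⟨k, i, hi, hk⟩ := f_ne hne
    rcases b1.eq_or_lt with b1 | b1
    · rcases hk with ⟨_, hk⟩ | ⟨hk0, hk⟩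
      · apply G.VH k b
        have := (dvd_neg).2 hk
        rwa [← b1, show -(C.V b - C.H - C.V k) = C.V k - (C.V b - C.H) by ring] at this
      · have h5 := G.VV b k (by
          rwa [← b1, show C.V b - C.H - (C.V k - C.H) = C.V b - C.V k by ring] at hk)
        rw [hk0, show b - (b - x + 1 + C.h + i) = -(C.h + 1 - x + (i : ℤ)) by ring,
          dvd_neg] at h5
        exact ndvd (by omega) (by omega) h5
    have c0 := f_ne_hor hi hk (c := 0) le_rfl (by omega)
    have c1 := f_ne_hor hi hk (c := 1) (by omega) (by omega)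
    obtain ⟨v', hv', kv⟩ := f_ne_ver hk
    rw [add_zero] at c0
    have a0 : C.hor a (β - C.q * (b - x + 1)) = 1 := by
      apply S.hor_of (t := β - va - C.q + C.W) _ (by omega) (by omega)
      have := (dvd_neg).2 hUa
      rwa [show β - C.q * (b - x + 1) - (C.U a + (β - va - C.q + C.W))
        = -(C.U a - (C.U b - C.W - sg)) by rw [hva, hVb, hX]; ring]
    have a1 : C.hor a (β - C.q * (b - x + 1) + 1) = 1 := by
      apply S.hor_of (t := β - va - C.q + C.W + 1) _ (by omega) (by omega)
      have := (dvd_neg).2 hUa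
      rwa [show β - C.q * (b - x + 1) + 1 - (C.U a + (β - va - C.q + C.W + 1))
        = -(C.U a - (C.U b - C.W - sg)) by rw [hva, hVb, hX]; ring]
    have av : C.ver a v' = 1 := by
      apply S.ver_of (t := v' - (va - C.H)) _ (by omega) (by omega)
      have := (dvd_neg).2 hVa
      rwa [show v' - (C.V a - C.H + (v' - (va - C.H))) = -(C.V a - va) by ring]
    by_cases hka : (C.p : ℤ) ∣ k - a
    · have hVk := C.V_congr hka
      rcases hk with ⟨_, hk⟩ | ⟨_, hk⟩
      · have := dvd_add (dvd_add hk hVk) hVa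
        rw [show β - C.V k + (C.V k - C.V a) + (C.V a - (C.V b - X - sg)) = -(va - β) by
          rw [hva]; ring, dvd_neg] at this
        exact ndvd (by omega) (by omega) this
      · have := dvd_add (dvd_add hk hVk) hVa
        rw [show β - (C.V k - C.H) + (C.V k - C.V a) + (C.V a - (C.V b - X - sg))
          = β - (va - C.H) by rw [hva]; ring] at this
        exact ndvd (by omega) (by omega) this
    · exact S.two hka c0 c1 a0 a1 kv av
  have cst : ∀ n : ℕ, C.V b - C.H - 1 ≤ va - 1 - n →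
      C.f (b - x + 1) (va - 1 - n) = C.f (b - x + 1) (va - 1) := by
    intro n
    induction n with
    | zero => intro _; simp
    | succ n ih =>
      intro hn
      push_cast at hn ⊢
      rw [← ih (by omega), step (va - 1 - n) (by omega) (by omega)]
      congr 1; ring
  have f1 : C.f (b - x + 1) (C.V b - C.H - 1) = C.f (b - x + 1) (va - 1) := by
    have := cst (va - 1 - (C.V b - C.H - 1)).toNat (by omega)
    rwa [Int.toNat_of_nonneg (by omega), sub_sub_cancel] at this
  -- top of `a`
  have f2 : C.f (b - x + 1) (va - 1) + 1 ≤ C.f (b - x + 1) va := by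
    apply C.f_up_of G (i := (C.w - 1 : ℤ).toNat) (by have := S.hw; omega)
    rw [Int.toNat_of_nonneg (by have := S.hw; omega),
      show b - x + 1 + (C.w - 1 : ℤ) = a by rw [hra]; ring]
    have := (dvd_neg).2 hVa
    rwa [show va - C.V a = -(C.V a - va) by ring]
  have bh : C.hor b u = 1 := by
    rcases hu with ⟨_, hu⟩ | ⟨_, hu⟩
    · apply S.hor_of (t := 0) _ (by omega) (by omega); rw [hu]; simp
    · apply S.hor_of (t := 1) _ (by omega) (by omega); rw [hu]; simp
  -- the point is not covered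
  have r1 : C.R u (C.V b - C.H - 1) = 0 := by
    apply R_zero_of
    intro k hk
    have bv : C.ver b (C.V b - C.H - 1 + 1) = 1 := by
      apply S.ver_of (t := 0) _ (by omega) (by omega)
      rw [show C.V b - C.H - 1 + 1 - (C.V b - C.H + 0) = 0 by ring]; exact dvd_zero _
    obtain ⟨y, y1, y2⟩ := C.near_ver G hk.2 bv
    by_cases hkb : (C.p : ℤ) ∣ k - b
    · have bvn : C.ver b (C.V b - C.H - 1) = 0 := by
        apply S.ver_not (t := C.N - 1) _ (by omega) (by omega)
        rw [show C.V b - C.H - 1 - (C.V b - C.H + (C.N - 1)) = -C.N by ring]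
        exact (dvd_neg).2 (dvd_refl _)
      have := hk.2
      rw [C.ver_congr hkb (by simp : C.N ∣ C.V b - C.H - 1 - (C.V b - C.H - 1)), bvn] at this
      omega
    · have h5 := S.dj k b u y hkb ⟨hk.1, y1⟩ ⟨bh, y2⟩
      rcases hu with ⟨hs, hu⟩ | ⟨hs, hu⟩
      · omega
      · apply S.one_not
        have := dvd_sub h5.2 (S.res b)
        rwa [hu, add_sub_cancel_left] at this
  -- `g`
  have g1 : C.f (b - x + 1) va + 1 ≤ C.g (b - x + 1) u := by
    rcases hu with ⟨hs, hu⟩ | ⟨hs, hu⟩
    · have h4 : C.g (b - x + 1) (u - 1) + 1 ≤ C.g (b - x + 1) u := by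
        apply C.g_up_of G (i := (x - 1 : ℤ).toNat) (by omega)
        rw [Int.toNat_of_nonneg (by omega), show b - x + 1 + (x - 1 : ℤ) = b by ring, hu]
        simp
      have h5 := C.gid (b - x + 1) (u - 1) (C.q * (b - x))
        (by rw [add_sub_cancel_right]) (by rw [mul_add]; omega)
      have h6 := C.R_nonneg (u - 1) (u - 1 + C.q * (b - x))
      have h7 : u - 1 + C.q * (b - x) = va := by rw [hva, hVb, hu, hs, hX]; ring
      rw [h7] at h5 h6
      omega
    · have h5 := C.gid (b - x + 1) u (C.q * (b - x))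
        (by rw [add_sub_cancel_right]) (by rw [mul_add]; omega)
      have h7 : u + C.q * (b - x) = va := by rw [hva, hVb, hu, hs, hX]; ring
      rw [h7] at h5
      have h6 : 1 ≤ C.R u va := by
        apply C.R_pos_of_In (k := b)
        refine ⟨bh, ?_⟩
        apply S.ver_of (t := va - (C.V b - C.H)) _ (by omega) (by omega)
        rw [show va - (C.V b - C.H + (va - (C.V b - C.H))) = 0 by ring]; exact dvd_zero _
      omega
  have b1 := (abs_le.1 (fl (C.V b - C.H - 1) (b - x + 1))).1
  unfold Fq at b1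
  omega

/-- the visible column next to the left of the rectangle `a` -/
def LC (C : Cfg) (sg a u : ℤ) : Prop :=
  (sg = 1 ∧ C.N ∣ u - (C.U a - 2)) ∨ (sg = -1 ∧ C.N ∣ u - (C.U a - 1))

/-- **K3** -/
theorem K3 (S : SC C sg) {a b x u : ℤ} (T : TP C sg a b x) (hx : 0 < x) (hx' : x < C.h)
    (hxw : x < C.w) (hwh : C.w ≤ C.h) (hu : LC C sg a u)
    (nl : ∀ k v, C.hor k u = 1 → C.ver k v = 1 → C.ver a v = 1 → False)
    (fl : ∀ v Y, |Fq C Y u v| ≤ 1) : False := by
  have G := S.G
  have hN := C.N_pos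
  have hp : (0 : ℤ) < C.p := by exact_mod_cast C.p_pos
  have hq : (3 : ℤ) ≤ C.q := by exact_mod_cast S.q3
  have hw2 := S.w2
  have hh2 := S.h2
  have hWe : C.W = C.q * C.w := rfl
  have hHe : C.H = C.q * C.h := rfl
  have hVb : C.V b = C.U b + C.q * b := rfl
  have hVa := T.hV
  have hUa := T.hU
  have hra := T.row
  obtain ⟨z1, z2, z3, z4⟩ := S.size
  have hsg := S.hsg
  have h1 : (C.q : ℤ) * 1 ≤ C.q * x := mul_le_mul_of_nonneg_left (by omega) (by omega)
  have h2 : (C.q : ℤ) * (x + 1) ≤ C.q * C.h := mul_le_mul_of_nonneg_left (by omega) (by omega)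
  have h3 : (C.q : ℤ) * (x + 1) ≤ C.q * C.w := mul_le_mul_of_nonneg_left (by omega) (by omega)
  have h4 : (C.q : ℤ) * C.w ≤ C.q * C.h :=
    mul_le_mul_of_nonneg_left (by exact_mod_cast hwh) (by omega)
  have e2 : (C.q : ℤ) * (x + 1) = C.q * x + C.q := by ring
  rw [mul_one] at h1
  rw [e2, ← hHe] at h2
  rw [e2, ← hWe] at h3
  rw [← hWe, ← hHe] at h4
  have hY : (C.q : ℤ) * (b - x + 1) = C.q * b - C.q * x + C.q := by ring
  set X := (C.q : ℤ) * x with hX
  set va := C.V b - X - sg with hva
  obtain ⟨k0, hk0, huu⟩ : ∃ k0 : ℤ, ((sg = 1 ∧ k0 = 2) ∨ (sg = -1 ∧ k0 = 1)) ∧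
      C.N ∣ u - (C.U b - C.W - sg - k0) := by
    rcases hu with ⟨hs, hu⟩ | ⟨hs, hu⟩
    · refine ⟨2, Or.inl ⟨hs, rfl⟩, ?_⟩
      have := dvd_add hu hUa
      rwa [show u - (C.U a - 2) + (C.U a - (C.U b - C.W - sg)) = u - (C.U b - C.W - sg - 2) by
        ring] at this
    · refine ⟨1, Or.inr ⟨hs, rfl⟩, ?_⟩
      have := dvd_add hu hUa
      rwa [show u - (C.U a - 1) + (C.U a - (C.U b - C.W - sg)) = u - (C.U b - C.W - sg - 1) by
        ring] at this
  -- the starting height
  set s := va - C.W + C.q - k0 with hs'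
  have hs1 : C.N ∣ s - (u + C.q * (b - x + 1)) := by
    have := (dvd_neg).2 huu
    rwa [show s - (u + C.q * (b - x + 1)) = -(u - (C.U b - C.W - sg - k0)) by
      rw [hs', hva, hVb, hX]; ring]
  -- first part of the chord
  have step : ∀ β, s < β → β ≤ va - 1 →
      C.f (b - x + 1) β = C.f (b - x + 1) (β - 1) := by
    intro β b1 b2
    by_contra hne
    obtain ⟨k, i, hi, hk⟩ := f_ne hne
    have c0 := f_ne_hor hi hk (c := 0) le_rfl (by omega)
    have c1 := f_ne_hor hi hk (c := 1) (by omega) (by omega)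
    obtain ⟨v', hv', kv⟩ := f_ne_ver hk
    rw [add_zero] at c0
    have a1 : C.hor a (β - C.q * (b - x + 1) + 1) = 1 := by
      apply S.hor_of (t := β - va - C.q + C.W + 1) _ (by omega) (by omega)
      have := (dvd_neg).2 hUa
      rwa [show β - C.q * (b - x + 1) + 1 - (C.U a + (β - va - C.q + C.W + 1))
        = -(C.U a - (C.U b - C.W - sg)) by rw [hva, hVb, hX]; ring]
    have av : C.ver a v' = 1 := by
      apply S.ver_of (t := v' - (va - C.H)) _ (by omega) (by omega)
      have := (dvd_neg).2 hVa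
      rwa [show v' - (C.V a - C.H + (v' - (va - C.H))) = -(C.V a - va) by ring]
    by_cases hka : (C.p : ℤ) ∣ k - a
    · have hVk := C.V_congr hka
      rcases hk with ⟨_, hk⟩ | ⟨_, hk⟩
      · have := dvd_add (dvd_add hk hVk) hVa
        rw [show β - C.V k + (C.V k - C.V a) + (C.V a - (C.V b - X - sg)) = -(va - β) by
          rw [hva]; ring, dvd_neg] at this
        exact ndvd (by omega) (by omega) this
      · have := dvd_add (dvd_add hk hVk) hVa
        rw [show β - (C.V k - C.H) + (C.V k - C.V a) + (C.V a - (C.V b - X - sg))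
          = β - (va - C.H) by rw [hva]; ring] at this
        exact ndvd (by omega) (by omega) this
    · have h5 := S.dj k a _ v' hka ⟨c1, kv⟩ ⟨a1, av⟩
      have a0 : C.hor a (β - C.q * (b - x + 1)) = 1 := by
        apply S.hor_of (t := β - va - C.q + C.W) _ (by omega) (by omega)
        have := (dvd_neg).2 hUa
        rwa [show β - C.q * (b - x + 1) - (C.U a + (β - va - C.q + C.W))
          = -(C.U a - (C.U b - C.W - sg)) by rw [hva, hVb, hX]; ring]
      exact S.two hka c0 c1 a0 a1 kv av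
  have cst : ∀ n : ℕ, s ≤ va - 1 - n →
      C.f (b - x + 1) (va - 1 - n) = C.f (b - x + 1) (va - 1) := by
    intro n
    induction n with
    | zero => intro _; simp
    | succ n ih =>
      intro hn
      push_cast at hn ⊢
      rw [← ih (by omega), step (va - 1 - n) (by omega) (by omega)]
      congr 1; ring
  have f1 : C.f (b - x + 1) s = C.f (b - x + 1) (va - 1) := by
    have := cst (va - 1 - s).toNat (by omega)
    rwa [Int.toNat_of_nonneg (by omega), sub_sub_cancel] at this
  -- top of `a`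
  have f2 : C.f (b - x + 1) (va - 1) + 1 ≤ C.f (b - x + 1) va := by
    apply C.f_up_of G (i := (C.w - 1 : ℤ).toNat) (by have := S.hw; omega)
    rw [Int.toNat_of_nonneg (by have := S.hw; omega),
      show b - x + 1 + (C.w - 1 : ℤ) = a by rw [hra]; ring]
    have := (dvd_neg).2 hVa
    rwa [show va - C.V a = -(C.V a - va) by ring]
  -- from the top of `a` to the top of `b`
  have step2 : ∀ β, va < β → β ≤ C.V b - 1 →
      C.f (b - x + 1) β = C.f (b - x + 1) (β - 1) := by
    intro β b1 b2
    by_contra hne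
    obtain ⟨k, i, hi, hk⟩ := f_ne hne
    have cc := fun c => f_ne_hor (c := c) hi hk
    obtain ⟨v', hv', kv⟩ := f_ne_ver hk
    have bv : C.ver b v' = 1 := by
      apply S.ver_of (t := v' - (C.V b - C.H)) _ (by omega) (by omega)
      rw [show v' - (C.V b - C.H + (v' - (C.V b - C.H))) = 0 by ring]; exact dvd_zero _
    -- offset relative to `b`
    set t := β - C.V b + X - C.q with ht
    have bhor : ∀ c, 0 ≤ t + c → t + c < C.W → C.hor b (β - C.q * (b - x + 1) + c) = 1 := by
      intro c h5 h6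
      apply S.hor_of (t := t + c) _ h5 h6
      rw [show β - C.q * (b - x + 1) + c - (C.U b + (t + c)) = 0 by rw [ht, hVb, hX]; ring]
      exact dvd_zero _
    by_cases hkb : (C.p : ℤ) ∣ k - b
    · have hVk := C.V_congr hkb
      rcases hk with ⟨_, hk⟩ | ⟨_, hk⟩
      · have := dvd_add hk hVk
        rw [show β - C.V k + (C.V k - C.V b) = -(C.V b - β) by ring, dvd_neg] at this
        exact ndvd (by omega) (by omega) this
      · have := dvd_add hk hVk
        rw [show β - (C.V k - C.H) + (C.V k - C.V b) = β - (C.V b - C.H) by ring] at this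
        exact ndvd (by omega) (by omega) this
    · rcases hsg with hs | hs
      · -- every common column is excluded
        by_cases c1 : 0 ≤ t
        · have h5 := S.dj k b _ v' hkb ⟨cc 0 le_rfl (by omega), kv⟩
            ⟨bhor 0 (by omega) (by omega), bv⟩
          omega
        · by_cases c2 : 0 ≤ t + C.q - 1
          · have h5 := S.dj k b _ v' hkb ⟨cc (-t) (by omega) (by omega), kv⟩
              ⟨bhor (-t) (by omega) (by omega), bv⟩
            omega
          · -- the next column
            have h5 := cc (C.q - 1) (by omega) (by omega)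
            have h6 : β - C.q * (b - x + 1) + (C.q - 1) + 1 = C.U b := by
              have : t + C.q = 0 := by omega
              rw [ht, hVb, hX] at this
              linear_combination this
            rcases ph_succ C.N_pos C.W_pos.le C.W_lt.le h5 with h7 | h7
            · rw [h6] at h7
              have h8 := bhor (-t) (by omega) (by omega)
              rw [show β - C.q * (b - x + 1) + -t = C.U b by
                have : t + C.q = 0 := by omega
                linear_combination h6 - this] at h8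
              have h9 := S.dj k b _ v' hkb ⟨h7, kv⟩ ⟨h8, bv⟩
              omega
            · rw [h6] at h7
              exact G.UW b k h7
      · by_cases c1 : 0 ≤ t
        · have h5 := cc 0 le_rfl (by omega)
          have h6 := bhor 0 (by omega) (by omega)
          rw [add_zero] at h5 h6
          exact S.two hkb h5 (cc 1 (by omega) (by omega)) h6 (bhor 1 (by omega) (by omega)) kv bv
        · have h5 := S.dj k b _ v' hkb ⟨cc (1 - t) (by omega) (by omega), kv⟩
            ⟨bhor (1 - t) (by omega) (by omega), bv⟩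
          apply S.one_not
          have := dvd_sub h5.2 (S.res b)
          rwa [show β - C.q * (b - x + 1) + (1 - t) - C.U b = 1 by
            rw [ht, hVb, hX]; ring] at this
  have cst2 : ∀ n : ℕ, va ≤ C.V b - 1 - n →
      C.f (b - x + 1) (C.V b - 1 - n) = C.f (b - x + 1) (C.V b - 1) := by
    intro n
    induction n with
    | zero => intro _; simp
    | succ n ih =>
      intro hn
      push_cast at hn ⊢
      rw [← ih (by omega), step2 (C.V b - 1 - n) (by omega) (by omega)]
      congr 1; ring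
  have f3 : C.f (b - x + 1) va = C.f (b - x + 1) (C.V b - 1) := by
    have := cst2 (C.V b - 1 - va).toNat (by omega)
    rwa [Int.toNat_of_nonneg (by omega), sub_sub_cancel] at this
  -- top of `b`
  have f4 : C.f (b - x + 1) (C.V b - 1) + 1 ≤ C.f (b - x + 1) (C.V b) := by
    apply C.f_up_of G (i := (x - 1 : ℤ).toNat) (by omega)
    rw [Int.toNat_of_nonneg (by omega), show b - x + 1 + (x - 1 : ℤ) = b by ring]
    simp
  -- `g`
  have g1 : C.g (b - x + 1) u = C.f (b - x + 1) s := by
    have h5 := C.gid (b - x + 1) u (C.q * (b - x + 1)) (by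
      have : (C.q : ℤ) * (b - x + 1 - 1) = C.q * (b - x + 1) - C.q := by ring
      omega) le_rfl
    rw [h5, C.f_congr (y := b - x + 1) (y' := b - x + 1) (v := u + C.q * (b - x + 1)) (v' := s)
      (by simp) (by rw [← dvd_neg, neg_sub]; exact hs1), R_zero_of, zero_add]
    intro k hk
    have av : C.ver a (u + C.q * (b - x + 1)) = 1 := by
      apply S.ver_of (t := s - (va - C.H)) _ (by omega) (by omega)
      have := (dvd_neg).2 (dvd_add hVa hs1)
      rwa [show u + C.q * (b - x + 1) - (C.V a - C.H + (s - (va - C.H)))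
        = -(C.V a - (C.V b - X - sg) + (s - (u + C.q * (b - x + 1)))) by rw [hva]; ring]
    exact nl k _ hk.1 hk.2 av
  have b1 := (abs_le.1 (fl (C.V b) (b - x + 1))).2
  have b2 := C.R_nonneg u (C.V b)
  unfold Fq at b1
  omega

end SC

end Pool.Agent.H78.Tie
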