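import Pool.Agent.H78.Tie.Stat

/-!
# The static rules for tie configurations
-/

namespace Pool.Agent.H78.Tie

open Finset
open Pool.Agent.H98.Flat
open Pool.Agent.H67.Flat

set_option linter.dupNamespace false

/-- two rectangles with adjacent walls at different heights -/
theorem ver_far {C : Cfg} {jl jr cl cr : ℤ} (hl : C.N ∣ cl - C.U jl)
    (hr : C.N ∣ cr - (C.U jr + C.W)) (hc : cl - cr = -1 ∨ cl - cr = 1)
    (f1 : C.h < (jl - jr + C.w) % C.p) (f2 : (jl - jr + C.w) % C.p < C.p - C.h) {v : ℤ}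
    (h1 : C.ver jl v = 1) (h2 : C.ver jr v = 1) : False := by
  have hN := C.N_pos
  have hp : (0 : ℤ) < C.p := by exact_mod_cast C.p_pos
  have hq : (0 : ℤ) < C.q := by exact_mod_cast C.hq
  have xe := Int.emod_add_mul_ediv (jl - jr + C.w) C.p
  set X := (jl - jr + C.w) % (C.p : ℤ)
  set z := (jl - jr + C.w) / (C.p : ℤ)
  have a1 : (v - (C.V jl - C.H)) % C.N < C.H := ph_eq_one_iff.1 h1
  have a2 : (v - (C.V jr - C.H)) % C.N < C.H := ph_eq_one_iff.1 h2
  have b1 := Int.emod_nonneg (v - (C.V jl - C.H)) hN.ne'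
  have b2 := Int.emod_nonneg (v - (C.V jr - C.H)) hN.ne'
  have e1 := Int.emod_add_mul_ediv (v - (C.V jl - C.H)) C.N
  have e2 := Int.emod_add_mul_ediv (v - (C.V jr - C.H)) C.N
  set A1 := (v - (C.V jl - C.H)) % C.N
  set A2 := (v - (C.V jr - C.H)) % C.N
  obtain ⟨tl, htl⟩ := hl
  obtain ⟨tr, htr⟩ := hr
  have hNe : C.N = C.q * C.p := by unfold Cfg.N; ring
  have hWe : C.W = C.q * C.w := rfl
  have hHe : C.H = C.q * C.h := rfl
  have hVl : C.V jl = C.U jl + C.q * jl := rfl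
  have hVr : C.V jr = C.U jr + C.q * jr := rfl
  have key : C.N ∣ (C.q * X + (cl - cr)) - (A2 - A1) := by
    refine ⟨(v - (C.V jr - C.H)) / C.N - (v - (C.V jl - C.H)) / C.N + tl - tr - z, ?_⟩
    linear_combination (C.q : ℤ) * xe - e2 + e1 + htl - htr - hWe - hVl + hVr + z * hNe
  obtain ⟨t, ht⟩ := key
  have q1 : (C.q : ℤ) * (C.h + 1) ≤ C.q * X := by
    apply mul_le_mul_of_nonneg_left _ hq.le; omega
  have q2 : (C.q : ℤ) * X ≤ C.q * (C.p - C.h - 1) := by
    apply mul_le_mul_of_nonneg_left _ hq.le; omega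
  have q3 : (C.q : ℤ) * (C.p - C.h - 1) = C.N - C.H - C.q := by rw [hNe, hHe]; ring
  have q4 : (C.q : ℤ) * (C.h + 1) = C.H + C.q := by rw [hHe]; ring
  have t0 : 0 < t := by
    by_contra hc
    have h3 : t ≤ 0 := by omega
    have h4 : C.N * t ≤ 0 := by nlinarith
    omega
  have : C.N * 1 ≤ C.N * t := by nlinarith
  omega

namespace TAp

variable {A : TAp}

/-- no class except `t` overlaps the rectangle of class `0` -/
def Tie.NoOv (T : A.Tie) : Prop := ∀ i m f s, A.Cls i m f s → i ≠ T.t →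
  ¬ (-(A.w : ℤ) ≤ m ∧ m < A.w ∧ -(A.h : ℤ) ≤ m + s ∧ m + s < A.h)

/-- index of row `k` in the window `0, …, p-1` -/
def ix (A : TAp) (k : ℤ) : ℤ := (A.e' * k) % A.p

theorem ix_nonneg (A : TAp) (k : ℤ) : 0 ≤ A.ix k := Int.emod_nonneg _ A.p_pos'.ne'
theorem ix_lt (A : TAp) (k : ℤ) : A.ix k < A.p := Int.emod_lt_of_pos _ A.p_pos'
theorem ix_U (A : TAp) (k : ℤ) : (A.cfg 0).U k = A.a * A.ix k := by
  rw [cfg_U]; unfold ix; simp
theorem ix_row (A : TAp) (k : ℤ) : (A.p : ℤ) ∣ A.e * A.ix k - k := by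
  have := A.idx_row 0 k
  rwa [show (0 : ℤ) + (A.e' * k - 0) % (A.p : ℤ) = A.ix k by unfold ix; simp] at this

theorem ix_inj {k j : ℤ} (h : A.ix k = A.ix j) : (A.p : ℤ) ∣ k - j := by
  have h1 := A.ix_row k
  have h2 := A.ix_row j
  rw [h] at h1
  have := dvd_sub h2 h1
  rwa [sub_sub_sub_cancel_left] at this

/-- the class of a difference of two rectangles which are close to each other -/
theorem cls_of {k j δu δv : ℤ} (hu : (A.p : ℤ) * A.q ∣ ((A.cfg 0).U k - (A.cfg 0).U j) - δu)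
    (hv : (A.p : ℤ) * A.q ∣ ((A.cfg 0).V k - (A.cfg 0).V j) - δv) (hlt : A.ix j < A.ix k)
    (u0 : -(A.q * (A.w : ℤ)) ≤ δu) (u1 : δu < A.q * A.w)
    (v0 : -(A.q * (A.h : ℤ)) ≤ δv) (v1 : δv < A.q * A.h) :
    ∃ m f s, A.Cls (A.ix k - A.ix j) m f s ∧ -(A.w : ℤ) ≤ m ∧ m < A.w ∧ -(A.h : ℤ) ≤ m + s ∧
      m + s < A.h ∧ A.q * m + f = δu := by
  have hq := A.q_pos'
  have hp := A.p_pos'
  have j0 := A.ix_nonneg j
  have k1 := A.ix_lt k
  have f0 := Int.emod_nonneg δu hq.ne'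
  have f1 := Int.emod_lt_of_pos δu hq
  have fe := Int.emod_add_mul_ediv δu A.q
  obtain ⟨zu, hzu⟩ := hu
  obtain ⟨zv, hzv⟩ := hv
  have hVk : (A.cfg 0).V k = (A.cfg 0).U k + A.q * k := rfl
  have hVj : (A.cfg 0).V j = (A.cfg 0).U j + A.q * j := rfl
  have fne : δu % A.q ≠ 0 := by
    intro h
    refine A.gen (A.ix k - A.ix j) (by omega) (by rw [abs_of_pos (by omega)]; omega) ?_
    rw [A.ix_U, A.ix_U] at hzu
    rw [h] at fe
    exact ⟨δu / A.q + A.p * zu, by linear_combination hzu - fe⟩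
  -- bounds
  have bd : ∀ y n : ℤ, A.q * y + δu % A.q = n → ∀ c : ℤ, (-(A.q * c) ≤ n → -c ≤ y) ∧
      (n < A.q * c → y < c) := by
    intro y n h c
    constructor
    · intro h1
      have h2 : A.q * (-c) < A.q * (y + 1) := by rw [mul_neg, mul_add]; omega
      have := lt_of_mul_lt_mul_left h2 hq.le
      omega
    · intro h1
      have h2 : A.q * y < A.q * c := by omega
      exact lt_of_mul_lt_mul_left h2 hq.le
  refine ⟨δu / A.q, δu % A.q, k - j - A.p * (zv - zu), ⟨by omega, by omega, by omega, f1, ?_, ?_⟩,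
    ?_, ?_, ?_, ?_, by omega⟩
  · rw [A.ix_U, A.ix_U] at hzu
    exact ⟨zu, by linear_combination hzu - fe⟩
  · obtain ⟨z1, hz1⟩ := A.ix_row k
    obtain ⟨z2, hz2⟩ := A.ix_row j
    exact ⟨z1 - z2 + (zv - zu), by linear_combination hz1 - hz2⟩
  · exact (bd _ _ (by omega) A.w).1 u0
  · exact (bd _ _ (by omega) A.w).2 u1
  · refine (bd (δu / A.q + (k - j - A.p * (zv - zu))) δv ?_ A.h).1 v0
    rw [hVk, hVj] at hzv
    linear_combination fe + hzv - hzu
  · refine (bd (δu / A.q + (k - j - A.p * (zv - zu))) δv ?_ A.h).2 v1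
    rw [hVk, hVj] at hzv
    linear_combination fe + hzv - hzu

theorem ph_diff {N a a' L x : ℤ} (h : ph N a L x = 1) (h' : ph N a' L x = 1) (hN : 0 < N) :
    ∃ δ, N ∣ (a - a') - δ ∧ -L < δ ∧ δ < L ∧ δ = (x - a') % N - (x - a) % N := by
  rw [ph_eq_one_iff] at h h'
  have a0 := Int.emod_nonneg (x - a) hN.ne'
  have b0 := Int.emod_nonneg (x - a') hN.ne'
  have ea := Int.emod_add_mul_ediv (x - a) N
  have eb := Int.emod_add_mul_ediv (x - a') N
  refine ⟨_, ?_, ?_, ?_, rfl⟩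
  · exact ⟨(x - a') / N - (x - a) / N, by linear_combination ea - eb⟩
  · omega
  · omega

/-- the configuration of a tie without overlaps is disjoint up to invisible columns -/
theorem dj_aux (T : A.Tie) (hn : T.NoOv) {k j u v : ℤ} (hlt : A.ix j < A.ix k)
    (hk : (A.cfg 0).In k u v) (hj : (A.cfg 0).In j u v) : A.sg = -1 ∧ (A.p : ℤ) ∣ u := by
  have hN := (A.cfg 0).N_pos
  have hq := A.q_pos'
  have hp := A.p_pos'
  have hW : (A.cfg 0).W = A.q * A.w := rfl
  have hH : (A.cfg 0).H = A.q * A.h := rfl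
  have hNe : (A.cfg 0).N = (A.p : ℤ) * A.q := rfl
  obtain ⟨δu, d1, d2, d3, d4⟩ := ph_diff hk.1 hj.1 hN
  obtain ⟨δv, d5, d6, d7, d8⟩ := ph_diff hk.2 hj.2 hN
  rw [sub_sub_sub_cancel_right] at d5
  rw [hW] at d2 d3
  rw [hH] at d6 d7
  obtain ⟨m, f, s, hc, c1, c2, c3, c4, c5⟩ := cls_of (A := A) d1 d5 hlt (by omega) d3 (by omega) d7
  have ht : A.ix k - A.ix j = T.t := by
    by_contra hne
    exact hn _ m f s hc hne ⟨c1, c2, c3, c4⟩
  -- the tie
  have h1 : (A.p : ℤ) * A.q ∣ δu - T.ep * (A.q * A.w + A.sg) := by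
    have h2 := T.tie
    rw [hNe, A.ix_U, A.ix_U, ← mul_sub, ht] at d1
    have := dvd_sub h2 d1
    rwa [show A.a * T.t - T.ep * (A.q * A.w + A.sg) - (A.a * T.t - δu)
      = δu - T.ep * (A.q * A.w + A.sg) by ring] at this
  have w2 : 2 * (A.w : ℤ) + 1 ≤ A.p := by have := A.w2; omega
  have hw := A.hw
  have b1 : 2 * (A.q * (A.w : ℤ)) + A.q ≤ A.p * A.q := by nlinarith
  have q2 : (2 : ℤ) < A.q := by
    have : (A.p : ℤ) < A.q := by exact_mod_cast A.pq
    omega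
  have hsg := A.hsg
  have h0 : δu - T.ep * (A.q * A.w + A.sg) = 0 := by
    obtain ⟨z, hz⟩ := h1
    have z1 : -1 < z := by
      by_contra hc
      have : (A.p : ℤ) * A.q * z ≤ A.p * A.q * (-1) :=
        mul_le_mul_of_nonneg_left (by omega) (by positivity)
      rcases T.hep with h | h <;> rw [h] at hz <;> omega
    have z2 : z < 1 := by
      by_contra hc
      have : (A.p : ℤ) * A.q * 1 ≤ A.p * A.q * z :=
        mul_le_mul_of_nonneg_left (by omega) (by positivity)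
      rcases T.hep with h | h <;> rw [h] at hz <;> omega
    rw [hz, show z = 0 by omega, mul_zero]
  have a0 := Int.emod_nonneg (u - (A.cfg 0).U k) hN.ne'
  have b0 := Int.emod_nonneg (u - (A.cfg 0).U j) hN.ne'
  have a1 := ph_eq_one_iff.1 hk.1
  have b1 := ph_eq_one_iff.1 hj.1
  rw [hW] at a1 b1
  have hsg1 : A.sg = -1 := by
    rcases hsg with h | h
    · exfalso
      rw [h] at h0
      rcases T.hep with h' | h' <;> rw [h'] at h0 <;> omega
    · exact h
  refine ⟨hsg1, ?_⟩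
  rw [hsg1] at h0
  rcases T.hep with h' | h' <;> rw [h'] at h0
  · -- `u = U k`
    have h2 : (u - (A.cfg 0).U k) % (A.cfg 0).N = 0 := by omega
    have h3 := (A.p_N 0).trans (Int.dvd_of_emod_eq_zero h2)
    have := dvd_add h3 (A.U_dvd 0 k)
    rwa [sub_add_cancel] at this
  · have h2 : (u - (A.cfg 0).U j) % (A.cfg 0).N = 0 := by omega
    have h3 := (A.p_N 0).trans (Int.dvd_of_emod_eq_zero h2)
    have := dvd_add h3 (A.U_dvd 0 j)
    rwa [sub_add_cancel] at this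

theorem Tie.sc (T : A.Tie) (hn : T.NoOv) : SC (A.cfg 0) A.sg where
  G := A.cfg_gen 0
  hsg := A.hsg
  q3 := by
    change 3 ≤ A.q
    have := A.pq; have := A.w2; have := A.hw; omega
  hw := A.hw
  hh := A.hh
  w2 := A.w2
  h2 := A.h2
  res := A.U_dvd 0
  dj := by
    intro k j u v hkj hk hj
    rcases lt_trichotomy (A.ix k) (A.ix j) with h | h | h
    · exact dj_aux T hn h hj hk
    · exact absurd (ix_inj h) hkj
    · exact dj_aux T hn h hk hj

/-- columns next to the right of a line are bounded -/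
theorem Fl.rc (F : A.Fl) {b u : ℤ} (hu : SC.RC (A.cfg 0) A.sg b u) (v Y : ℤ) :
    |Fq (A.cfg 0) Y u v| ≤ 1 := by
  have h0 := A.U_dvd 0 b
  rcases hu with ⟨hs, hu⟩ | ⟨hs, hu⟩
  · have hk : A.k0 = 2 := by unfold k0; rw [if_pos hs]
    have := F.two 0 (u := (A.cfg 0).U b - 2) (by rw [hk, sub_add_cancel]; exact h0) v Y
    rwa [sub_add_cancel, ← hu] at this
  · have hk : A.k0 = 1 := by unfold k0; rw [if_neg (by omega)]
    have := F.two 0 (u := (A.cfg 0).U b - 1) (by rw [hk, sub_add_cancel]; exact h0) v Y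
    rwa [show (A.cfg 0).U b - 1 + 2 = (A.cfg 0).U b + 1 by ring, ← hu] at this

/-- the two rows of the line of the tie -/
theorem Tie.pair (T : A.Tie) : ∃ a b, SC.TP (A.cfg 0) A.sg a b T.x := by
  have U0 : (A.cfg 0).U 0 = 0 := A.U00
  have t0 := T.t0
  have tp := T.tp
  have hW : (A.cfg 0).W = A.q * A.w := rfl
  rcases T.hep with hep | hep
  · have h1 := T.row
    rw [hep, one_mul] at h1
    have Ut : (A.cfg 0).U (T.x - A.w) = A.a * T.t := U_of_idx (by omega) (by omega) h1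
    refine ⟨0, T.x - A.w, ?_, ?_⟩
    · have := T.tie
      rw [hep] at this
      rw [U0, Ut, hW]
      have := (dvd_neg).2 this
      rwa [show (0 : ℤ) - (A.a * T.t - A.q * A.w - A.sg)
        = -(A.a * T.t - 1 * (A.q * A.w + A.sg)) by ring]
    · change (0 : ℤ) = T.x - A.w + A.w - T.x
      ring
  · have h1 := T.row
    rw [hep, neg_one_mul, neg_sub] at h1
    have Ut : (A.cfg 0).U (A.w - T.x) = A.a * T.t := U_of_idx (by omega) (by omega) h1
    refine ⟨A.w - T.x, 0, ?_, ?_⟩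
    · have := T.tie
      rw [hep] at this
      rw [U0, Ut, hW]
      rwa [show A.a * T.t - (0 - A.q * A.w - A.sg)
        = A.a * T.t - -1 * (A.q * A.w + A.sg) by ring]
    · change (A.w : ℤ) - T.x = 0 + A.w - T.x
      ring

theorem rc_exists (A : TAp) (b : ℤ) : ∃ u, SC.RC (A.cfg 0) A.sg b u := by
  rcases A.hsg with h | h
  · exact ⟨_, Or.inl ⟨h, rfl⟩⟩
  · exact ⟨_, Or.inr ⟨h, rfl⟩⟩

/-- **K1** : a tie without overlaps with `x < 0` has `w + |x| ≤ h` -/
theorem Tie.K1 (F : A.Fl) (T : A.Tie) (hn : T.NoOv) (hx : T.x < 0) (hx' : -T.x < A.h) :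
    A.w - T.x ≤ A.h := by
  by_contra hc
  obtain ⟨a, b, hT⟩ := T.pair
  obtain ⟨u, hu⟩ := A.rc_exists b
  exact SC.K1 (T.sc hn) hT hx hx' (by change (A.h : ℤ) < A.w - T.x; omega) hu (F.rc hu)

/-- **K2** : a tie without overlaps with `0 < x` has `w + x ≤ h` -/
theorem Tie.K2 (F : A.Fl) (T : A.Tie) (hn : T.NoOv) (hx : 0 < T.x) (hx' : T.x < A.h) :
    A.w + T.x ≤ A.h := by
  by_contra hc
  obtain ⟨a, b, hT⟩ := T.pair
  obtain ⟨u, hu⟩ := A.rc_exists b
  exact SC.K2 (T.sc hn) hT hx hx' (by change (A.h : ℤ) < A.w + T.x; omega) hu (F.rc hu)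

/-- a rectangle whose left neighbour is not in the window has no left contact -/
theorem Tie.nl (T : A.Tie) (hs : T.Single) (hn : T.NoOv) {a : ℤ}
    (hm : (T.ep = 1 ∧ A.ix a < T.t) ∨ (T.ep = -1 ∧ A.p ≤ A.ix a + T.t)) {k v : ℤ}
    (hk : (A.cfg 0).hor k ((A.cfg 0).U a - A.k0) = 1) (kv : (A.cfg 0).ver k v = 1)
    (av : (A.cfg 0).ver a v = 1) : False := by
  have hN := (A.cfg 0).N_pos
  have hq := A.q_pos'
  have hp := A.p_pos'
  have hW : (A.cfg 0).W = A.q * A.w := rfl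
  have hH : (A.cfg 0).H = A.q * A.h := rfl
  have hNe : (A.cfg 0).N = (A.p : ℤ) * A.q := rfl
  have t0 := T.t0
  have w2 : 2 * (A.w : ℤ) + 1 ≤ A.p := by have := A.w2; omega
  have hw := A.hw
  have b1 : 2 * (A.q * (A.w : ℤ)) + A.q ≤ A.p * A.q := by nlinarith
  have q2 : (4 : ℤ) < A.q := by
    have : (A.p : ℤ) < A.q := by exact_mod_cast A.pq
    omega
  have i0 := A.ix_nonneg a
  have i1 := A.ix_lt a
  have k0' := A.ix_nonneg k
  have k1' := A.ix_lt k
  -- the offset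
  have r1 : ((A.cfg 0).U a - A.k0 - (A.cfg 0).U k) % (A.cfg 0).N < (A.cfg 0).W :=
    ph_eq_one_iff.1 hk
  have r0 := Int.emod_nonneg ((A.cfg 0).U a - A.k0 - (A.cfg 0).U k) hN.ne'
  have re := Int.emod_add_mul_ediv ((A.cfg 0).U a - A.k0 - (A.cfg 0).U k) (A.cfg 0).N
  set r := ((A.cfg 0).U a - A.k0 - (A.cfg 0).U k) % (A.cfg 0).N with hr
  set z := ((A.cfg 0).U a - A.k0 - (A.cfg 0).U k) / (A.cfg 0).N
  rw [hW] at r1
  have hk0 := A.k0_cases
  have d1 : (A.p : ℤ) * A.q ∣ ((A.cfg 0).U a - (A.cfg 0).U k) - (r + A.k0) :=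
    ⟨z, by rw [hNe] at re; linear_combination -re⟩
  -- consequences for the class `t`
  have key : ∀ σ : ℤ, (σ = 1 ∨ σ = -1) → (A.p : ℤ) * A.q ∣ A.a * T.t - σ * (r + A.k0) →
      σ = T.ep := by
    intro σ hσ h
    by_contra hne
    have h2 := T.tie
    have h3 := dvd_sub h2 h
    have hσ2 : σ = -T.ep := by
      rcases hσ with h4 | h4 <;> rcases T.hep with h5 | h5 <;>
        first
        | exact absurd (h4.trans h5.symm) hne
        | (rw [h4, h5]; try norm_num)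
    rw [hσ2, show A.a * T.t - T.ep * (A.q * A.w + A.sg) - (A.a * T.t - -T.ep * (r + A.k0))
      = -(T.ep * (A.q * A.w + A.sg + (r + A.k0))) by ring, dvd_neg] at h3
    have h4 : (A.p : ℤ) * A.q ∣ A.q * A.w + A.sg + (r + A.k0) := by
      rcases T.hep with h5 | h5 <;> rw [h5] at h3
      · rwa [one_mul] at h3
      · rwa [neg_one_mul, dvd_neg] at h3
    refine SC.ndvd ?_ ?_ h4
    · rcases hk0 with ⟨h5, h6⟩ | ⟨h5, h6⟩ <;> rw [h5, h6] <;> nlinarith
    · rcases hk0 with ⟨h5, h6⟩ | ⟨h5, h6⟩ <;> rw [h5, h6] <;> omega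
  by_cases hr2 : r + A.k0 < A.q * A.w
  · -- overlap
    obtain ⟨δv, d5, d6, d7, -⟩ := ph_diff av kv hN
    rw [sub_sub_sub_cancel_right] at d5
    rw [hH] at d6 d7
    rcases lt_trichotomy (A.ix k) (A.ix a) with h | h | h
    · obtain ⟨m, f, s, hc, c1, c2, c3, c4, c5⟩ := cls_of (A := A) d1 d5 h
        (by rcases hk0 with ⟨h5, h6⟩ | ⟨h5, h6⟩ <;> omega) hr2 (by omega) d7
      have ht : A.ix a - A.ix k = T.t := by
        by_contra hne
        exact hn _ m f s hc hne ⟨c1, c2, c3, c4⟩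
      have h1 : (1 : ℤ) = T.ep := by
        apply key 1 (Or.inl rfl)
        rw [A.ix_U, A.ix_U, ← mul_sub, ht] at d1
        rwa [one_mul]
      rcases hm with ⟨h2, h3⟩ | ⟨h2, h3⟩ <;> omega
    · have h1 := ix_inj h
      have h2 := (A.cfg 0).U_congr h1
      have h3 := dvd_add d1 h2
      rw [show (A.cfg 0).U a - (A.cfg 0).U k - (r + A.k0) + ((A.cfg 0).U k - (A.cfg 0).U a)
        = -(r + A.k0) by ring, dvd_neg] at h3
      refine SC.ndvd ?_ ?_ h3 <;> rcases hk0 with ⟨h5, h6⟩ | ⟨h5, h6⟩ <;> omega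
    · have d1' : (A.p : ℤ) * A.q ∣ ((A.cfg 0).U k - (A.cfg 0).U a) - -(r + A.k0) := by
        have := (dvd_neg).2 d1
        rwa [show -((A.cfg 0).U a - (A.cfg 0).U k - (r + A.k0))
          = (A.cfg 0).U k - (A.cfg 0).U a - -(r + A.k0) by ring] at this
      have d5' : (A.p : ℤ) * A.q ∣ ((A.cfg 0).V k - (A.cfg 0).V a) - -δv := by
        have := (dvd_neg).2 d5
        rwa [show -((A.cfg 0).V a - (A.cfg 0).V k - δv)
          = (A.cfg 0).V k - (A.cfg 0).V a - -δv by ring] at this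
      obtain ⟨m, f, s, hc, c1, c2, c3, c4, c5⟩ := cls_of (A := A) d1' d5' h
        (by omega) (by rcases hk0 with ⟨h5, h6⟩ | ⟨h5, h6⟩ <;> omega) (by omega) (by omega)
      have ht : A.ix k - A.ix a = T.t := by
        by_contra hne
        exact hn _ m f s hc hne ⟨c1, c2, c3, c4⟩
      have h1 : (-1 : ℤ) = T.ep := by
        apply key (-1) (Or.inr rfl)
        rw [A.ix_U, A.ix_U, ← mul_sub, ht] at d1'
        rwa [neg_one_mul]
      rcases hm with ⟨h2, h3⟩ | ⟨h2, h3⟩ <;> omega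
  · -- the walls touch
    have hne : r + A.k0 ≠ A.q * A.w := by
      intro h
      apply (A.cfg_gen 0).UW a k
      rw [h] at d1
      rwa [hNe, hW, show (A.cfg 0).U a - ((A.cfg 0).U k + A.q * (A.w : ℤ))
        = (A.cfg 0).U a - (A.cfg 0).U k - A.q * A.w by ring]
    have h1 : A.sg = 1 ∧ A.k0 = 2 ∧ r + A.k0 = A.q * A.w + 1 := by
      rcases hk0 with ⟨h5, h6⟩ | ⟨h5, h6⟩
      · exact ⟨h5, h6, by omega⟩
      · exfalso; omega
    obtain ⟨h5, h6, h7⟩ := h1
    have hpart : (A.p : ℤ) * A.q ∣ A.a * (A.ix a - A.ix k) - (A.q * A.w + A.sg) := by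
      rw [h7, A.ix_U, A.ix_U] at d1
      rwa [h5, mul_sub]
    rcases T.partner hpart (by rw [abs_le]; constructor <;> omega) with h | h
    · rcases hm with ⟨h2, h3⟩ | ⟨h2, h3⟩ <;> rw [h2] at h <;> omega
    · rcases hs with h1 | ⟨h1, h2⟩
      · rcases T.hep with h3 | h3 <;> rw [h3] at h <;> omega
      · have hrow := T.sec_row (A.ix_row a) (A.ix_row k) h
        refine ver_far (C := A.cfg 0) (jl := a) (jr := k) (cl := (A.cfg 0).U a)
          (cr := (A.cfg 0).U a - 1) (by simp) ?_ (Or.inr (by ring)) ?_ ?_ av kv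
        · rw [h7] at d1
          rwa [hNe, hW, show (A.cfg 0).U a - 1 - ((A.cfg 0).U k + A.q * (A.w : ℤ))
            = (A.cfg 0).U a - (A.cfg 0).U k - (A.q * A.w + 1) by ring]
        · change (A.h : ℤ) < (a - k + A.w) % A.p
          rw [hrow]; exact h1
        · change (a - k + (A.w : ℤ)) % A.p < A.p - A.h
          rw [hrow]; exact h2

theorem ix_of {i s : ℤ} (h0 : 0 ≤ i) (h1 : i < A.p) (hs : (A.p : ℤ) ∣ A.e * i - s) :
    A.ix s = i := by
  have := A.ix_row s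
  apply idx_inj (A := A)
  · have := dvd_sub this hs
    rwa [sub_sub_sub_cancel_right] at this
  · have := A.ix_lt s; omega
  · have := A.ix_nonneg s; omega

/-- the leftmost pair -/
theorem Tie.pairL (T : A.Tie) : ∃ a b, SC.TP (A.cfg 0) A.sg a b T.x ∧
    ((T.ep = 1 ∧ A.ix a < T.t) ∨ (T.ep = -1 ∧ A.p ≤ A.ix a + T.t)) := by
  have U0 : (A.cfg 0).U 0 = 0 := A.U00
  have t0 := T.t0
  have tp := T.tp
  have hW : (A.cfg 0).W = A.q * A.w := rfl
  rcases T.hep with hep | hep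
  · have h1 := T.row
    rw [hep, one_mul] at h1
    have Ut : (A.cfg 0).U (T.x - A.w) = A.a * T.t := U_of_idx (by omega) (by omega) h1
    refine ⟨0, T.x - A.w, ⟨?_, ?_⟩, Or.inl ⟨hep, ?_⟩⟩
    · have := T.tie
      rw [hep] at this
      rw [U0, Ut, hW]
      have := (dvd_neg).2 this
      rwa [show (0 : ℤ) - (A.a * T.t - A.q * A.w - A.sg)
        = -(A.a * T.t - 1 * (A.q * A.w + A.sg)) by ring]
    · change (0 : ℤ) = T.x - A.w + A.w - T.x
      ring
    · have := ix_of (A := A) (i := 0) (s := 0) le_rfl (by omega) (by simp)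
      omega
  · have h1 := T.row
    rw [hep, neg_one_mul, neg_sub] at h1
    have r1 : (A.p : ℤ) ∣ A.e * (A.p - 1) - (-A.e) := ⟨A.e, by ring⟩
    have r2 : (A.p : ℤ) ∣ A.e * (A.p - 1 - T.t) - (-A.e + (T.x - A.w)) := by
      have := dvd_sub r1 h1
      rwa [show A.e * (A.p - 1) - -A.e - (A.e * T.t - (A.w - T.x))
        = A.e * (A.p - 1 - T.t) - (-A.e + (T.x - A.w)) by ring] at this
    have U1 : (A.cfg 0).U (-A.e) = A.a * (A.p - 1) := U_of_idx (by omega) (by omega) r1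
    have U2 : (A.cfg 0).U (-A.e + (T.x - A.w)) = A.a * (A.p - 1 - T.t) :=
      U_of_idx (by omega) (by omega) r2
    refine ⟨-A.e, -A.e + (T.x - A.w), ⟨?_, ?_⟩, Or.inr ⟨hep, ?_⟩⟩
    · have := T.tie
      rw [hep] at this
      rw [U1, U2, hW]
      rwa [show A.a * (A.p - 1) - (A.a * (A.p - 1 - T.t) - A.q * A.w - A.sg)
        = A.a * T.t - -1 * (A.q * A.w + A.sg) by ring]
    · change -A.e = -A.e + (T.x - A.w) + A.w - T.x
      ring
    · have := ix_of (A := A) (i := A.p - 1) (s := -A.e) (by omega) (by omega) r1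
      omega

/-- **K3** : a tie without overlaps with `0 < x` has `w ≤ x` -/
theorem Tie.K3 (F : A.Fl) (T : A.Tie) (hs : T.Single) (hn : T.NoOv) (hx : 0 < T.x)
    (hx' : T.x < A.h) : A.w ≤ T.x ∧ A.w + T.x ≤ A.h := by
  have h2 := T.K2 F hn hx hx'
  refine ⟨?_, h2⟩
  by_contra hc
  obtain ⟨a, b, hT, hm⟩ := T.pairL
  have hu : SC.LC (A.cfg 0) A.sg a ((A.cfg 0).U a - A.k0) := by
    rcases A.k0_cases with ⟨h5, h6⟩ | ⟨h5, h6⟩
    · left; rw [h6]; exact ⟨h5, by simp⟩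
    · right; rw [h6]; exact ⟨h5, by simp⟩
  exact SC.K3 (T.sc hn) hT hx hx' (by change T.x < (A.w : ℤ); omega)
    (by change A.w ≤ A.h; omega) hu (fun k v => T.nl hs hn hm)
    (F.zero 0 (by rw [sub_add_cancel]; exact A.U_dvd 0 a))

end TAp

end Pool.Agent.H78.Tie
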