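import Pool.Agent.H78.Tie.Cross

/-!
# The two windows
-/

namespace Pool.Agent.H78.Tie

open Finset
open Pool.Agent.H98.Flat
open Pool.Agent.H67.Flat

/-- congruent abscissae give the same heights -/
theorem wU_pt {C : Cfg} {U' : ℤ → ℤ}
    {per' : ∀ k, ((C.p : ℤ) * C.q) ∣ U' (k + C.p) - U' k} (h : ∀ k, C.N ∣ U' k - C.U k)
    (Y u v : ℤ) : Fq (wU C U' per') Y u v = Fq C Y u v := by
  have hV : ∀ k, C.N ∣ (wU C U' per').V k - C.V k := by
    intro k
    unfold Cfg.V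
    change C.N ∣ U' k + (C.q : ℤ) * k - (C.U k + C.q * k)
    rw [add_sub_add_right_eq_sub]; exact h k
  have hhor : ∀ k u, (wU C U' per').hor k u = C.hor k u := by
    intro k u
    unfold Cfg.hor
    change ph C.N (U' k) C.W u = _
    exact ph_congr (by rw [sub_sub_sub_cancel_left, ← dvd_neg, neg_sub]; exact h k)
  have hver : ∀ k v, (wU C U' per').ver k v = C.ver k v := by
    intro k v
    unfold Cfg.ver
    change ph C.N ((wU C U' per').V k - C.H) C.H v = _
    exact ph_congr (by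
      rw [sub_sub_sub_cancel_left, sub_sub_sub_cancel_right, ← dvd_neg, neg_sub]; exact hV k)
  have hell : ∀ k, (wU C U' per').ell k = C.ell k := by
    intro k
    unfold Cfg.ell
    change (U' (k + C.h) - U' k) % C.N = _
    apply emod_congr
    have := dvd_sub (h (k + C.h)) (h k)
    rwa [show U' (k + C.h) - C.U (k + C.h) - (U' k - C.U k)
      = U' (k + C.h) - U' k - (C.U (k + C.h) - C.U k) by ring] at this
  have hR : (wU C U' per').R u v = C.R u v := by
    unfold Cfg.R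
    exact Finset.sum_congr rfl fun k _ => by rw [hhor, hver]
  have hg : (wU C U' per').g Y u = C.g Y u := by
    unfold Cfg.g
    congr 1
    · refine Finset.sum_congr rfl fun i _ => ?_
      rw [hell]
      change ph C.N (U' (Y + i)) _ u = _
      exact ph_congr (by rw [sub_sub_sub_cancel_left, ← dvd_neg, neg_sub]; exact h _)
    · refine Finset.sum_congr rfl fun i _ => ?_
      change ph C.N (U' (Y + C.w + i)) C.W u = _
      exact ph_congr (by rw [sub_sub_sub_cancel_left, ← dvd_neg, neg_sub]; exact h _)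
  have hf : (wU C U' per').f Y v = C.f Y v := by
    unfold Cfg.f
    refine Finset.sum_congr rfl fun i _ => ?_
    rw [hell]
    exact ph_congr (by rw [sub_sub_sub_cancel_left, ← dvd_neg, neg_sub]; exact hV _)
  unfold Fq
  rw [hR, hg, hf]

namespace TAp

variable {A : TAp}

/-- the displacement of the rectangle of row `0` -/
def D (A : TAp) : ℤ := A.q * A.md + A.fd

theorem U00 (A : TAp) : (A.cfg 0).U 0 = 0 := by
  change A.a * (0 + (A.e' * 0 - 0) % (A.p : ℤ)) = 0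
  simp

theorem D_nonneg (A : TAp) : 0 ≤ A.D := by
  have hq0 := A.q_pos'
  have := A.hmd
  have := A.hfd
  unfold D; positivity

theorem D_lt (A : TAp) : A.D < A.q * (A.md + 1) := by
  have := A.hfd2
  unfold D
  rw [mul_add]; omega

theorem D_W (A : TAp) : A.D + (A.cfg 0).W < (A.cfg 0).N := by
  have hq0 := A.q_pos'
  have dlt := A.D_lt
  have w2 := A.w2
  have hmd2 := A.hmd2
  have hCN : (A.cfg 0).N = (A.p : ℤ) * A.q := rfl
  have hCW : (A.cfg 0).W = (A.q : ℤ) * A.w := rfl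
  rw [hCN, hCW]
  have : (A.q : ℤ) * (A.md + 1) + A.q * A.w ≤ A.p * A.q := by
    rw [← mul_add, mul_comm (A.p : ℤ)]
    apply mul_le_mul_of_nonneg_left _ hq0.le
    omega
  omega

theorem D_H (A : TAp) : A.D + (A.cfg 0).H < (A.cfg 0).N := by
  have hq0 := A.q_pos'
  have dlt := A.D_lt
  have h2 := A.h2
  have hmd2 := A.hmd2
  have hCN : (A.cfg 0).N = (A.p : ℤ) * A.q := rfl
  have hCH : (A.cfg 0).H = (A.q : ℤ) * A.h := rfl
  rw [hCN, hCH]
  have : (A.q : ℤ) * (A.md + 1) + A.q * A.h ≤ A.p * A.q := by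
    rw [← mul_add, mul_comm (A.p : ℤ)]
    apply mul_le_mul_of_nonneg_left _ hq0.le
    omega
  omega

theorem key (A : TAp) (k : ℤ) :
    (A.cfg 1).N ∣ (mv (A.cfg 0) A.D).U k - (A.cfg 1).U k := by
  by_cases hk : (A.p : ℤ) ∣ k
  · have e1 := zero_U0 (A := A) hk
    have e2 := zero_U1 (A := A) hk
    rw [mv_U0 (A.cfg 0) A.D k hk]
    have := dvd_sub e1 e2
    unfold D
    rwa [show (A.cfg 0).U k - ((A.cfg 1).U k - (A.q * A.md + A.fd))
      = (A.cfg 0).U k + (A.q * A.md + A.fd) - (A.cfg 1).U k by ring] at this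
  · obtain ⟨i', m', f', c', _⟩ := Cls.row (A := A) hk 0
    rw [mv_U (A.cfg 0) A.D k hk]
    have := dvd_sub c'.U0 c'.U1
    rwa [sub_sub_sub_cancel_right] at this

theorem win (A : TAp) (Y u v : ℤ) :
    Fq (mv (A.cfg 0) A.D) Y u v = Fq (A.cfg 1) Y u v :=
  wU_pt (C := A.cfg 1) (per' := (mv (A.cfg 0) A.D).per) A.key Y u v

theorem G1 (A : TAp) : (mv (A.cfg 0) A.D).Gen :=
  wU_gen (C := A.cfg 1) (A.cfg_gen 1) (per' := (mv (A.cfg 0) A.D).per) A.key

/-- the heights next to the wall at `c` are bounded in both windows -/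
structure OK (A : TAp) (c : ℤ) : Prop where
  b0 : ∀ v Y, |Fq (A.cfg 0) Y c v| ≤ 1
  b1 : ∀ v Y, |Fq (A.cfg 0) Y (c - 1) v| ≤ 1
  b2 : ∀ v Y, |Fq (A.cfg 1) Y c v| ≤ 1
  b3 : ∀ v Y, |Fq (A.cfg 1) Y (c - 1) v| ≤ 1

/-- class `j` has a vertical wall at position `(mc, f)`; `g = V_j - c`; its rows are `(g-h, g]` -/
def VW (A : TAp) (j mc f g : ℤ) : Prop := A.LW j mc f g ∨ A.RW j mc f g

theorem rowne {i m f s : ℤ} (hc : A.Cls i m f s) : ¬ (A.p : ℤ) ∣ s := by
  intro hs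
  have h3 := hc.2.2.2.2.2
  have h4 := dvd_add h3 hs
  rw [sub_add_cancel] at h4
  have h5 : (A.p : ℤ) ∣ i := by
    have := dvd_sub (h4.mul_right A.e') (A.inv.mul_left i)
    rwa [show A.e * i * A.e' - i * (A.e * A.e' - 1) = i by ring] at this
  have := Int.le_of_dvd hc.1 h5
  have := hc.2.1
  omega

/-- dictionary for the correction function; `c' ∈ {c, c ± 1}` -/
theorem dict (A : TAp) {mc fc c' mb fb : ℤ}
    (h1 : ph (A.cfg 0).N 0 A.D c' = ph (A.cfg 0).N 0 A.D (A.q * mc + fc))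
    (h2 : ph (A.cfg 0).N (A.cfg 0).W A.D c' = ph (A.cfg 0).N (A.cfg 0).W A.D (A.q * mc + fc))
    (x : ℤ) :
    PHI (A.cfg 0) A.D c' (A.q * mb + fb) x = A.Phi mc fc mb fb x := by
  have P1 := A.h2
  have w2 := A.w2
  have hw := A.hw
  have hh := A.hh
  set C := A.cfg 0 with hC
  have hCW : C.W = (A.q : ℤ) * A.w := rfl
  have hCH : C.H = (A.q : ℤ) * A.h := rfl
  have hh0 : (0 : ℤ) < A.h := by omega
  have hw0 : (0 : ℤ) < A.w := by omega
  have hhp : (A.h : ℤ) ≤ A.p := by omega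
  have hwp : (A.w : ℤ) ≤ A.p := by omega
  have ind : ∀ (P Q : Prop) [Decidable P] [Decidable Q] (s t : ℤ), (s = if P then 1 else 0) →
      (t = 0 ∨ t = 1) → (Q ↔ t = 1) → (if P ∧ Q then (1 : ℤ) else 0) = s * t := by
    intro P Q _ _ s t hs ht hQ
    rw [hs]
    rcases ht with ht | ht
    · rw [ht]
      have : ¬ Q := by rw [hQ, ht]; norm_num
      simp [this]
    · have : Q := hQ.2 ht
      rw [ht]; simp [this]
  have e1 := ind (A.InL mc fc) (InA A.p x (-A.h) A.h) (ph C.N 0 A.D c') (lv A.p 0 A.h x)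
    (by rw [h1]; unfold ph InL; rw [sub_zero]; rfl) (lv01 _ _ _ _)
    (by have := Ap.InA_lv (p := A.p) (K := 0) (Y := x) hh0 hhp; rwa [zero_sub] at this)
  have e2 := ind (A.InL (mc - A.w) fc) (InA A.p x (-A.w - A.h) A.h) (ph C.N C.W A.D c')
    (lv A.p (-A.w) A.h x)
    (by
      rw [h2]
      unfold ph InL
      rw [show A.q * mc + fc - C.W = A.q * (mc - A.w) + fc by rw [hCW]; ring]; rfl)
    (lv01 _ _ _ _) (Ap.InA_lv (p := A.p) (K := -A.w) (Y := x) hh0 hhp)
  have e3 := ind (A.InL mb fb) (InA A.p x (-A.w) A.w) (ph C.N 0 A.D (A.q * mb + fb))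
    (lv A.p 0 A.w x)
    (by unfold ph InL; rw [sub_zero]; rfl) (lv01 _ _ _ _)
    (by have := Ap.InA_lv (p := A.p) (K := 0) (Y := x) hw0 hwp; rwa [zero_sub] at this)
  have e4 := ind (A.InL (mb + A.h) fb) (InA A.p x (-A.w - A.h) A.w)
    (ph C.N (-C.H) A.D (A.q * mb + fb))
    (lv A.p (-A.h) A.w x)
    (by
      unfold ph InL
      rw [show A.q * mb + fb - -C.H = A.q * (mb + A.h) + fb by rw [hCH]; ring]; rfl)
    (lv01 _ _ _ _)
    (by
      have := Ap.InA_lv (p := A.p) (K := -A.h) (Y := x) hw0 hwp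
      rwa [show -(A.h : ℤ) - A.w = -A.w - A.h by ring] at this)
  unfold PHI Phi
  rw [e1, e2, e3, e4]
  rfl

/-- data of a vertical wall -/
theorem VW.data {j mc fc g : ℤ} (hj : A.VW j mc fc g) : ∃ s e, ¬ (A.p : ℤ) ∣ s ∧
    (A.p : ℤ) ∣ A.e * j - s ∧ 0 < j ∧ j < A.p ∧ 0 < fc ∧ fc < A.q ∧
    Pool.Agent.H67.Flat.VW (A.cfg 0) s (A.q * mc + fc) g e := by
  rcases hj with c | c
  · refine ⟨g, 1, rowne c, c.2.2.2.2.2, c.1, c.2.1, c.2.2.1, c.2.2.2.1, Or.inl ⟨rfl, ?_, rfl⟩⟩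
    have := c.U0
    rw [← dvd_neg]
    rwa [show -(A.q * mc + fc - (A.cfg 0).U g) = (A.cfg 0).U g - (A.q * mc + fc) by ring]
  · refine ⟨g + A.w, -1, rowne c, c.2.2.2.2.2, c.1, c.2.1, c.2.2.1, c.2.2.2.1,
      Or.inr ⟨rfl, ?_, ?_⟩⟩
    · have := c.U0
      rw [← dvd_neg]
      rwa [show -(A.q * mc + fc - ((A.cfg 0).U (g + A.w) + (A.cfg 0).W))
        = (A.cfg 0).U (g + A.w) - (A.q * (mc - A.w) + fc) by
          change -(A.q * mc + fc - ((A.cfg 0).U (g + A.w) + A.q * A.w)) = _; ring]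
    · change g = g + (A.w : ℤ) - A.w; ring

/-- data of a horizontal wall -/
theorem HW.data {i mb fb k : ℤ} (hi : A.HW i mb fb k) : ∃ s e, ¬ (A.p : ℤ) ∣ s ∧
    (A.p : ℤ) ∣ A.e * i - s ∧ 0 < i ∧ i < A.p ∧ 0 < fb ∧ fb < A.q ∧
    Pool.Agent.H67.Flat.HW (A.cfg 0) s (A.q * mb + fb) k e := by
  obtain ⟨mi, si, ci, hi⟩ := hi
  rcases hi with ⟨rfl, rfl⟩ | ⟨rfl, rfl⟩
  · refine ⟨k, -1, rowne ci, ci.2.2.2.2.2, ci.1, ci.2.1, ci.2.2.1, ci.2.2.2.1,
      Or.inl ⟨rfl, ?_, rfl⟩⟩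
    have := ci.V0
    rw [← dvd_neg]
    rwa [show -(A.q * (mi + k) + fb - (A.cfg 0).V k) = (A.cfg 0).V k - (A.q * (mi + k) + fb) by
      ring]
  · refine ⟨si, 1, rowne ci, ci.2.2.2.2.2, ci.1, ci.2.1, ci.2.2.1, ci.2.2.2.1,
      Or.inr ⟨rfl, ?_, rfl⟩⟩
    have := ci.V0
    rw [← dvd_neg]
    rwa [show -(A.q * (mi + si - A.h) + fb - ((A.cfg 0).V si - (A.cfg 0).H))
      = (A.cfg 0).V si - (A.q * (mi + si) + fb) by
      change -(A.q * (mi + si - A.h) + fb - ((A.cfg 0).V si - A.q * A.h)) = _; ring]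

/-- level of a difference of positions -/
theorem level {q mb mc fb fc r : ℤ} (fb0 : 0 < fb) (fb1 : fb < q) (fc0 : 0 < fc) (fc1 : fc < q)
    (hr : r = mb - mc + (if fc < fb then 1 else 0)) :
    q * (r - 1) < (q * mb + fb) - (q * mc + fc) ∧ (q * mb + fb) - (q * mc + fc) ≤ q * r := by
  have e1 : (q * mb + fb) - (q * mc + fc) = q * (mb - mc) + (fb - fc) := by ring
  rw [e1, hr]
  split_ifs with h
  · constructor
    · rw [add_sub_cancel_right]; omega
    · rw [mul_add]; omega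
  · constructor
    · rw [show mb - mc + 0 - 1 = (mb - mc) - 1 by ring, mul_sub q (mb - mc) 1]; omega
    · rw [add_zero]; omega

/-- **rule (E0)** for a wall with bounded neighbours: `c = (mc, fc)` a vertical wall of class `j`,
rows `(g-h, g]`; `b = (mb, fb)` a horizontal wall of class `i ≠ j`, rows `(k-w, k]`; `r` the level
of `b - c`.  If a level `Y` is separated from `r` by both arcs then `Φ(Y) = Φ(r)`. -/
theorem E0 {j i mc fc g mb fb k r : ℤ} (hj : A.VW j mc fc g) (ok : A.OK (A.q * mc + fc))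
    (hi : A.HW i mb fb k)
    (hij : i ≠ j) (hr : r = mb - mc + (if fc < fb then 1 else 0)) (Y : ℤ)
    (h1 : InA A.p Y (g - A.h) A.h ↔ ¬ InA A.p r (g - A.h) A.h)
    (h2 : InA A.p Y (k - A.w) A.w ↔ ¬ InA A.p r (k - A.w) A.w) :
    A.Phi mc fc mb fb Y = A.Phi mc fc mb fb r := by
  have P1 := A.h2
  have w2 := A.w2
  have hw := A.hw
  have hh := A.hh
  obtain ⟨sj, eV, sj0, ej, j0, j1, fc0, fc1, hV⟩ := hj.data
  obtain ⟨si, eH, si0, ei, i0, i1, fb0, fb1, hH⟩ := hi.data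
  have rij : ¬ (A.p : ℤ) ∣ sj - si := by
    intro h
    apply hij
    apply idx_inj (A := A)
    · have := dvd_sub (dvd_sub ei ej) h
      rwa [show A.e * i - si - (A.e * j - sj) - (sj - si) = A.e * i - A.e * j by ring] at this
    · omega
    · omega
  set C := A.cfg 0 with hC
  have hCN : C.N = (A.p : ℤ) * A.q := rfl
  have G0 : C.Gen := A.cfg_gen 0
  set c : ℤ := A.q * mc + fc with hc
  set b : ℤ := A.q * mb + fb with hb
  have lev : A.q * (r - 1) < b - c ∧ b - c ≤ A.q * r := level fb0 fb1 fc0 fc1 hr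
  -- no coincidences
  have n1 : ¬ C.N ∣ b - (C.V sj - C.H) := by
    intro h
    rcases hH with ⟨_, h3, _⟩ | ⟨_, h3, _⟩
    · apply G0.VH si sj
      have := dvd_sub h h3
      rwa [sub_sub_sub_cancel_left] at this
    · apply rij
      apply G0.VV
      have := dvd_sub h3 h
      rwa [show b - (C.V si - C.H) - (b - (C.V sj - C.H)) = C.V sj - C.V si by ring] at this
  have n2 : ¬ C.N ∣ b - C.V sj := by
    intro h
    rcases hH with ⟨_, h3, _⟩ | ⟨_, h3, _⟩
    · apply rij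
      apply G0.VV
      have := dvd_sub h3 h
      rwa [sub_sub_sub_cancel_left] at this
    · apply G0.VH sj si
      have := dvd_sub h3 h
      rwa [sub_sub_sub_cancel_left] at this
  have n3 : ¬ C.N ∣ c - C.U si := by
    intro h
    rcases hV with ⟨_, h3, _⟩ | ⟨_, h3, _⟩
    · apply rij
      apply G0.UU
      have := dvd_sub h h3
      rwa [sub_sub_sub_cancel_left] at this
    · apply G0.UW si sj
      have := dvd_sub h3 h
      rwa [sub_sub_sub_cancel_left] at this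
  have n4 : ¬ C.N ∣ c - (C.U si + C.W) := by
    intro h
    rcases hV with ⟨_, h3, _⟩ | ⟨_, h3, _⟩
    · apply G0.UW sj si
      have := dvd_sub h h3
      rwa [sub_sub_sub_cancel_left] at this
    · apply rij
      apply G0.UU
      have := dvd_sub h h3
      rwa [show c - (C.U si + C.W) - (c - (C.U sj + C.W)) = C.U sj - C.U si by ring] at this
  have L1 := lv_ver (r := r) (s := b - c) hV n1 n2 (by simp) lev.1 lev.2
  have L2 := lv_hor (r := r) (s := b - c) hH n3 n4 (by simp) lev.1 lev.2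
  have hh0 : (0 : ℤ) < A.h := by omega
  have hw0 : (0 : ℤ) < A.w := by omega
  have hhp : (A.h : ℤ) ≤ A.p := by omega
  have hwp : (A.w : ℤ) ≤ A.p := by omega
  rw [Ap.InA_lv hh0 hhp, Ap.InA_lv hh0 hhp] at h1
  rw [Ap.InA_lv hw0 hwp, Ap.InA_lv hw0 hwp] at h2
  have L1' : lv A.p g A.h r = C.ver sj b := L1
  have L2' : lv A.p k A.w r = C.hor si c := L2
  have k1 : C.ver sj b ≠ lv C.p g C.h Y := by
    change C.ver sj b ≠ lv A.p g A.h Y
    rw [← L1']
    intro h
    rw [h] at h1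
    tauto
  have k2 : C.hor si c ≠ lv C.p k C.w Y := by
    change C.hor si c ≠ lv A.p k A.w Y
    rw [← L2']
    intro h
    rw [h] at h2
    tauto
  have main := E0B (C := C) (d := A.D) A.U00 A.D_nonneg A.D_W A.D_H G0 A.G1
    (B1 := ok.b0) (B2 := ok.b1)
    (B1' := fun v Y => by rw [A.win]; exact ok.b2 v Y)
    (B2' := fun v Y => by rw [A.win]; exact ok.b3 v Y)
    sj0 si0 rij hV hH (r := r) ⟨b - c, by simp, lev.1.le, lev.2⟩ k1 k2
  rw [← dict A rfl rfl, ← dict A rfl rfl]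
  exact main

end TAp

end Pool.Agent.H78.Tie
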